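import Pool.Agent.Gen.F5.X12CD13m6.S000
import Pool.Agent.Gen.F5.X12CD13m6.S001
import Pool.Agent.Gen.F5.X12CD13m6.S002
import Pool.Agent.Gen.F5.X12CD13m6.S003
import Pool.Agent.Gen.F5.X12CD13m6.S004
import Pool.Agent.Gen.F5.X12CD13m6.S005

set_option autoImplicit false
set_option maxRecDepth 100000

namespace Pool.Agent.Gen.F5.X12CD13m6

open Pool.Agent.Helper72.F5

def n0 : Cl (O (nat_lit 6)) (R (nat_lit 104465))
    (p (nat_lit 0x10d0c8e0c0d9a) (nat_lit 0) (p (nat_lit 0x8c8c0d8b8d1a) (nat_lit 0) (p (nat_lit 0x10c0b8d0b0a9a) (nat_lit 0) (p (nat_lit 0x8b8b0c8a8a1a) (nat_lit 0) (p (nat_lit 0x2a825aa825800000b0c0a0b8a) (nat_lit 0) (p (nat_lit 0x2a825aa825800000a8b89890a) (nat_lit 0) (p (nat_lit 0xb0004) (nat_lit 1) (p (nat_lit 0x200014) (nat_lit 0) (p (nat_lit 0x20000c) (nat_lit 0) (p (nat_lit 0x89) (nat_lit 1) (p (nat_lit 0xc1) (nat_lit 1) (p (nat_lit 0x101) (nat_lit 1) (p (nat_lit 0x119)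 (nat_lit 0) (p (nat_lit 0xd1) (nat_lit 0) (p (nat_lit 0x81) (nat_lit 0) (p (nat_lit 0x41) (nat_lit 1) (p (nat_lit 0x10a098b090a9a) (nat_lit 0) (p (nat_lit 0x89890a888a1a) (nat_lit 0) (p (nat_lit 0x109088a08079a) (nat_lit 0) (p (nat_lit 0x88880987871a) (nat_lit 0) (p (nat_lit 0x8000080000000080907088a) (nat_lit 0) (p (nat_lit 0x8000080000000078886860a) (nat_lit 0) (p (nat_lit 0x10688060782) (nat_lit 0) (p (nat_lit 0x8607858702) (nat_lit 0) (p (nat_lit 0x10587050482) (nat_lit 0) (p (nat_lit 0x8506848402) (nat_lit 0) (p (nat_lit 0x160004) (nat_lit 0) (p (nat_lit 0x50612) (nat_lit 0) (p (nat_lit 0x40592) (nat_lit 0) (p (nat_lit 0x40492) (nat_lit 0) (p (nat_lit 0x30412) (nat_lit 0) (p (nat_lit 0x30212) (nat_lit 0) (p (nat_lit 0x20192) (nat_lit 0) (p (nat_lit 0x20092) (nat_lit 0) (p (nat_lit 0x10012) (nat_lit 0) pn))))))))))))))))))))))))))))))))))) :=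
  Cl.node (nat_lit 0x109) (nat_lit 2) (by decide +kernel) (ClAll.succ (ClAll.succ ClAll.zero s105) s106)

def n1 : Cl (O (nat_lit 6)) (R (nat_lit 104465))
    (p (nat_lit 0x8c8c0d8b8d1a) (nat_lit 0) (p (nat_lit 0x10c0b8d0b0a9a) (nat_lit 0) (p (nat_lit 0x8b8b0c8a8a1a) (nat_lit 0) (p (nat_lit 0x2a825aa825800000b0c0a0b8a) (nat_lit 0) (p (nat_lit 0x2a825aa825800000a8b89890a) (nat_lit 0) (p (nat_lit 0xb0004) (nat_lit 1) (p (nat_lit 0x200014) (nat_lit 0) (p (nat_lit 0x20000c) (nat_lit 0) (p (nat_lit 0x89) (nat_lit 1) (p (nat_lit 0xc1) (nat_lit 1) (p (nat_lit 0x101) (nat_lit 1) (p (nat_lit 0x119) (nat_lit 0) (p (nat_lit 0xd1) (nat_lit 0) (p (nat_lit 0x81) (nat_lit 0) (p (nat_lit 0x41) (nat_lit 1) (p (nat_lit 0x10a098b090a9a) (nat_lit 0) (p (nat_lit 0x89890a888a1a) (nat_lit 0) (p (nat_lit 0x109088a08079a) (nat_lit 0) (p (nat_lit 0x88880987871a) (nat_lit 0) (p (nat_lit 0x8000080000000080907088a)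 (nat_lit 0) (p (nat_lit 0x8000080000000078886860a) (nat_lit 0) (p (nat_lit 0x10688060782) (nat_lit 0) (p (nat_lit 0x8607858702) (nat_lit 0) (p (nat_lit 0x10587050482) (nat_lit 0) (p (nat_lit 0x8506848402) (nat_lit 0) (p (nat_lit 0x160004) (nat_lit 0) (p (nat_lit 0x50612) (nat_lit 0) (p (nat_lit 0x40592) (nat_lit 0) (p (nat_lit 0x40492) (nat_lit 0) (p (nat_lit 0x30412) (nat_lit 0) (p (nat_lit 0x30212) (nat_lit 0) (p (nat_lit 0x20192) (nat_lit 0) (p (nat_lit 0x20092) (nat_lit 0) (p (nat_lit 0x10012) (nat_lit 0) pn)))))))))))))))))))))))))))))))))) :=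
  Cl.node (nat_lit 0x10d0c8e0c0d9a) (nat_lit 1) (by decide +kernel) (ClAll.succ ClAll.zero n0)

def n2 : Cl (O (nat_lit 6)) (R (nat_lit 104465))
    (p (nat_lit 0x10c0b8d0b0a9a) (nat_lit 0) (p (nat_lit 0x8b8b0c8a8a1a) (nat_lit 0) (p (nat_lit 0x2a825aa825800000b0c0a0b8a) (nat_lit 0) (p (nat_lit 0x2a825aa825800000a8b89890a) (nat_lit 0) (p (nat_lit 0xb0004) (nat_lit 1) (p (nat_lit 0x200014) (nat_lit 0) (p (nat_lit 0x20000c) (nat_lit 0) (p (nat_lit 0x89) (nat_lit 1) (p (nat_lit 0xc1) (nat_lit 1) (p (nat_lit 0x101) (nat_lit 1) (p (nat_lit 0x119) (nat_lit 0) (p (nat_lit 0xd1) (nat_lit 0) (p (nat_lit 0x81) (nat_lit 0) (p (nat_lit 0x41) (nat_lit 1) (p (nat_lit 0x10a098b090a9a) (nat_lit 0) (p (nat_lit 0x89890a888a1a) (nat_lit 0) (p (nat_lit 0x109088a08079a) (nat_lit 0) (p (nat_lit 0x88880987871a) (nat_lit 0) (p (nat_lit 0x8000080000000080907088a) (nat_lit 0) (p (nat_lit 0x8000080000000078886860a)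 (nat_lit 0) (p (nat_lit 0x10688060782) (nat_lit 0) (p (nat_lit 0x8607858702) (nat_lit 0) (p (nat_lit 0x10587050482) (nat_lit 0) (p (nat_lit 0x8506848402) (nat_lit 0) (p (nat_lit 0x160004) (nat_lit 0) (p (nat_lit 0x50612) (nat_lit 0) (p (nat_lit 0x40592) (nat_lit 0) (p (nat_lit 0x40492) (nat_lit 0) (p (nat_lit 0x30412) (nat_lit 0) (p (nat_lit 0x30212) (nat_lit 0) (p (nat_lit 0x20192) (nat_lit 0) (p (nat_lit 0x20092) (nat_lit 0) (p (nat_lit 0x10012) (nat_lit 0) pn))))))))))))))))))))))))))))))))) :=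
  Cl.node (nat_lit 0x8c8c0d8b8d1a) (nat_lit 1) (by decide +kernel) (ClAll.succ ClAll.zero n1)

def n3 : Cl (O (nat_lit 6)) (R (nat_lit 104465))
    (p (nat_lit 0x8b8b0c8a8a1a) (nat_lit 0) (p (nat_lit 0x2a825aa825800000b0c0a0b8a) (nat_lit 0) (p (nat_lit 0x2a825aa825800000a8b89890a) (nat_lit 0) (p (nat_lit 0xb0004) (nat_lit 1) (p (nat_lit 0x200014) (nat_lit 0) (p (nat_lit 0x20000c) (nat_lit 0) (p (nat_lit 0x89) (nat_lit 1) (p (nat_lit 0xc1) (nat_lit 1) (p (nat_lit 0x101) (nat_lit 1) (p (nat_lit 0x119) (nat_lit 0) (p (nat_lit 0xd1) (nat_lit 0) (p (nat_lit 0x81) (nat_lit 0) (p (nat_lit 0x41) (nat_lit 1) (p (nat_lit 0x10a098b090a9a) (nat_lit 0) (p (nat_lit 0x89890a888a1a) (nat_lit 0) (p (nat_lit 0x109088a08079a) (nat_lit 0) (p (nat_lit 0x88880987871a) (nat_lit 0) (p (nat_lit 0x8000080000000080907088a) (nat_lit 0) (p (nat_lit 0x8000080000000078886860a) (nat_lit 0) (p (nat_lit 0x10688060782)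 (nat_lit 0) (p (nat_lit 0x8607858702) (nat_lit 0) (p (nat_lit 0x10587050482) (nat_lit 0) (p (nat_lit 0x8506848402) (nat_lit 0) (p (nat_lit 0x160004) (nat_lit 0) (p (nat_lit 0x50612) (nat_lit 0) (p (nat_lit 0x40592) (nat_lit 0) (p (nat_lit 0x40492) (nat_lit 0) (p (nat_lit 0x30412) (nat_lit 0) (p (nat_lit 0x30212) (nat_lit 0) (p (nat_lit 0x20192) (nat_lit 0) (p (nat_lit 0x20092) (nat_lit 0) (p (nat_lit 0x10012) (nat_lit 0) pn)))))))))))))))))))))))))))))))) :=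
  Cl.node (nat_lit 0x10c0b8d0b0a9a) (nat_lit 1) (by decide +kernel) (ClAll.succ ClAll.zero n2)

def n4 : Cl (O (nat_lit 6)) (R (nat_lit 104465))
    (p (nat_lit 0x2a825aa825800000b0c0a0b8a) (nat_lit 0) (p (nat_lit 0x2a825aa825800000a8b89890a) (nat_lit 0) (p (nat_lit 0xb0004) (nat_lit 1) (p (nat_lit 0x200014) (nat_lit 0) (p (nat_lit 0x20000c) (nat_lit 0) (p (nat_lit 0x89) (nat_lit 1) (p (nat_lit 0xc1) (nat_lit 1) (p (nat_lit 0x101) (nat_lit 1) (p (nat_lit 0x119) (nat_lit 0) (p (nat_lit 0xd1) (nat_lit 0) (p (nat_lit 0x81) (nat_lit 0) (p (nat_lit 0x41) (nat_lit 1) (p (nat_lit 0x10a098b090a9a) (nat_lit 0) (p (nat_lit 0x89890a888a1a) (nat_lit 0) (p (nat_lit 0x109088a08079a) (nat_lit 0) (p (nat_lit 0x88880987871a) (nat_lit 0) (p (nat_lit 0x8000080000000080907088a) (nat_lit 0) (p (nat_lit 0x8000080000000078886860a) (nat_lit 0) (p (nat_lit 0x10688060782) (nat_lit 0) (p (nat_lit 0x8607858702)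 (nat_lit 0) (p (nat_lit 0x10587050482) (nat_lit 0) (p (nat_lit 0x8506848402) (nat_lit 0) (p (nat_lit 0x160004) (nat_lit 0) (p (nat_lit 0x50612) (nat_lit 0) (p (nat_lit 0x40592) (nat_lit 0) (p (nat_lit 0x40492) (nat_lit 0) (p (nat_lit 0x30412) (nat_lit 0) (p (nat_lit 0x30212) (nat_lit 0) (p (nat_lit 0x20192) (nat_lit 0) (p (nat_lit 0x20092) (nat_lit 0) (p (nat_lit 0x10012) (nat_lit 0) pn))))))))))))))))))))))))))))))) :=
  Cl.node (nat_lit 0x8b8b0c8a8a1a) (nat_lit 1) (by decide +kernel) (ClAll.succ ClAll.zero n3)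

def n5 : Cl (O (nat_lit 6)) (R (nat_lit 104465))
    (p (nat_lit 0xb0004) (nat_lit 0) (p (nat_lit 0x119) (nat_lit 0) (p (nat_lit 0x200014) (nat_lit 0) (p (nat_lit 0x20000c) (nat_lit 0) (p (nat_lit 0xc1) (nat_lit 0) (p (nat_lit 0x81) (nat_lit 1) (p (nat_lit 0x101) (nat_lit 1) (p (nat_lit 0x111) (nat_lit 0) (p (nat_lit 0xd1) (nat_lit 1) (p (nat_lit 0x89) (nat_lit 0) (p (nat_lit 0x41) (nat_lit 0) (p (nat_lit 0x10a098b090a9a) (nat_lit 0) (p (nat_lit 0x89890a888a1a) (nat_lit 0) (p (nat_lit 0x109088a08079a) (nat_lit 0) (p (nat_lit 0x88880987871a) (nat_lit 0) (p (nat_lit 0x8000080000000080907088a) (nat_lit 0) (p (nat_lit 0x8000080000000078886860a) (nat_lit 0) (p (nat_lit 0x10688060782) (nat_lit 0) (p (nat_lit 0x8607858702) (nat_lit 0) (p (nat_lit 0x10587050482) (nat_lit 0) (p (nat_lit 0x8506848402) (nat_lit 0) (p (nat_lit 0x160004) (nat_lit 0) (p (nat_lit 0x50612) (nat_lit 0) (p (nat_lit 0x40592)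 (nat_lit 0) (p (nat_lit 0x40492) (nat_lit 0) (p (nat_lit 0x30412) (nat_lit 0) (p (nat_lit 0x30212) (nat_lit 0) (p (nat_lit 0x20192) (nat_lit 0) (p (nat_lit 0x20092) (nat_lit 0) (p (nat_lit 0x10012) (nat_lit 0) pn)))))))))))))))))))))))))))))) :=
  Cl.node (nat_lit 0x109) (nat_lit 2) (by decide +kernel) (ClAll.succ (ClAll.succ ClAll.zero s35) s36)

def n6 : Cl (O (nat_lit 6)) (R (nat_lit 104465))
    (p (nat_lit 0x41) (nat_lit 0) (p (nat_lit 0xb0004) (nat_lit 0) (p (nat_lit 0x200014) (nat_lit 0) (p (nat_lit 0x20000c) (nat_lit 0) (p (nat_lit 0xd1) (nat_lit 0) (p (nat_lit 0x109) (nat_lit 1) (p (nat_lit 0x101) (nat_lit 0) (p (nat_lit 0x119) (nat_lit 0) (p (nat_lit 0xc9) (nat_lit 0) (p (nat_lit 0x89) (nat_lit 1) (p (nat_lit 0x41) (nat_lit 0) (p (nat_lit 0x10a098b090a9a) (nat_lit 0) (p (nat_lit 0x89890a888a1a) (nat_lit 0) (p (nat_lit 0x109088a08079a) (nat_lit 0) (p (nat_lit 0x88880987871a)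 (nat_lit 0) (p (nat_lit 0x8000080000000080907088a) (nat_lit 0) (p (nat_lit 0x8000080000000078886860a) (nat_lit 0) (p (nat_lit 0x10688060782) (nat_lit 0) (p (nat_lit 0x8607858702) (nat_lit 0) (p (nat_lit 0x10587050482) (nat_lit 0) (p (nat_lit 0x8506848402) (nat_lit 0) (p (nat_lit 0x160004) (nat_lit 0) (p (nat_lit 0x50612) (nat_lit 0) (p (nat_lit 0x40592) (nat_lit 0) (p (nat_lit 0x40492) (nat_lit 0) (p (nat_lit 0x30412) (nat_lit 0) (p (nat_lit 0x30212) (nat_lit 0) (p (nat_lit 0x20192) (nat_lit 0) (p (nat_lit 0x20092) (nat_lit 0) (p (nat_lit 0x10012) (nat_lit 0) pn)))))))))))))))))))))))))))))) :=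
  Cl.node (nat_lit 0xc9) (nat_lit 2) (by decide +kernel) (ClAll.succ (ClAll.succ ClAll.zero s46) s47)

def n7 : Cl (O (nat_lit 6)) (R (nat_lit 104465))
    (p (nat_lit 0x41) (nat_lit 0) (p (nat_lit 0xb0004) (nat_lit 0) (p (nat_lit 0x200014) (nat_lit 0) (p (nat_lit 0x20000c) (nat_lit 0) (p (nat_lit 0xd1) (nat_lit 1) (p (nat_lit 0x109) (nat_lit 1) (p (nat_lit 0x101) (nat_lit 0) (p (nat_lit 0x119) (nat_lit 0) (p (nat_lit 0xc9) (nat_lit 0) (p (nat_lit 0x89) (nat_lit 1) (p (nat_lit 0x41) (nat_lit 0) (p (nat_lit 0x10a098b090a9a) (nat_lit 0) (p (nat_lit 0x89890a888a1a) (nat_lit 0) (p (nat_lit 0x109088a08079a) (nat_lit 0) (p (nat_lit 0x88880987871a) (nat_lit 0) (p (nat_lit 0x8000080000000080907088a) (nat_lit 0) (p (nat_lit 0x8000080000000078886860a) (nat_lit 0) (p (nat_lit 0x10688060782) (nat_lit 0) (p (nat_lit 0x8607858702) (nat_lit 0) (p (nat_lit 0x10587050482) (nat_lit 0) (p (nat_lit 0x8506848402)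 (nat_lit 0) (p (nat_lit 0x160004) (nat_lit 0) (p (nat_lit 0x50612) (nat_lit 0) (p (nat_lit 0x40592) (nat_lit 0) (p (nat_lit 0x40492) (nat_lit 0) (p (nat_lit 0x30412) (nat_lit 0) (p (nat_lit 0x30212) (nat_lit 0) (p (nat_lit 0x20192) (nat_lit 0) (p (nat_lit 0x20092) (nat_lit 0) (p (nat_lit 0x10012) (nat_lit 0) pn)))))))))))))))))))))))))))))) :=
  Cl.node (nat_lit 0x111) (nat_lit 2) (by decide +kernel) (ClAll.succ (ClAll.succ ClAll.zero s52) s53)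

def n8 : Cl (O (nat_lit 6)) (R (nat_lit 104465))
    (p (nat_lit 0x109) (nat_lit 1) (p (nat_lit 0xb0004) (nat_lit 0) (p (nat_lit 0x200014) (nat_lit 0) (p (nat_lit 0x20000c) (nat_lit 0) (p (nat_lit 0xd1) (nat_lit 1) (p (nat_lit 0xc1) (nat_lit 0) (p (nat_lit 0x101) (nat_lit 1) (p (nat_lit 0x119) (nat_lit 0) (p (nat_lit 0xc9) (nat_lit 0) (p (nat_lit 0x89) (nat_lit 1) (p (nat_lit 0x41) (nat_lit 0) (p (nat_lit 0x10a098b090a9a) (nat_lit 0) (p (nat_lit 0x89890a888a1a) (nat_lit 0) (p (nat_lit 0x109088a08079a) (nat_lit 0) (p (nat_lit 0x88880987871a) (nat_lit 0) (p (nat_lit 0x8000080000000080907088a) (nat_lit 0) (p (nat_lit 0x8000080000000078886860a) (nat_lit 0) (p (nat_lit 0x10688060782) (nat_lit 0) (p (nat_lit 0x8607858702) (nat_lit 0) (p (nat_lit 0x10587050482) (nat_lit 0) (p (nat_lit 0x8506848402) (nat_lit 0) (p (nat_lit 0x160004) (nat_lit 0) (p (nat_lit 0x50612) (nat_lit 0) (p (nat_lit 0x40592)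 (nat_lit 0) (p (nat_lit 0x40492) (nat_lit 0) (p (nat_lit 0x30412) (nat_lit 0) (p (nat_lit 0x30212) (nat_lit 0) (p (nat_lit 0x20192) (nat_lit 0) (p (nat_lit 0x20092) (nat_lit 0) (p (nat_lit 0x10012) (nat_lit 0) pn)))))))))))))))))))))))))))))) :=
  Cl.node (nat_lit 0x81) (nat_lit 2) (by decide +kernel) (ClAll.succ (ClAll.succ ClAll.zero s63) s64)

def n9 : Cl (O (nat_lit 6)) (R (nat_lit 104465))
    (p (nat_lit 0x2a825aa825800000a8b89890a) (nat_lit 0) (p (nat_lit 0xb0004) (nat_lit 1) (p (nat_lit 0x200014) (nat_lit 0) (p (nat_lit 0x20000c) (nat_lit 0) (p (nat_lit 0x89) (nat_lit 1) (p (nat_lit 0xc1) (nat_lit 1) (p (nat_lit 0x101) (nat_lit 1) (p (nat_lit 0x119) (nat_lit 0) (p (nat_lit 0xd1) (nat_lit 0) (p (nat_lit 0x81) (nat_lit 0) (p (nat_lit 0x41) (nat_lit 1) (p (nat_lit 0x10a098b090a9a) (nat_lit 0) (p (nat_lit 0x89890a888a1a) (nat_lit 0) (p (nat_lit 0x109088a08079a) (nat_lit 0) (p (nat_lit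 0x88880987871a) (nat_lit 0) (p (nat_lit 0x8000080000000080907088a) (nat_lit 0) (p (nat_lit 0x8000080000000078886860a) (nat_lit 0) (p (nat_lit 0x10688060782) (nat_lit 0) (p (nat_lit 0x8607858702) (nat_lit 0) (p (nat_lit 0x10587050482) (nat_lit 0) (p (nat_lit 0x8506848402) (nat_lit 0) (p (nat_lit 0x160004) (nat_lit 0) (p (nat_lit 0x50612) (nat_lit 0) (p (nat_lit 0x40592) (nat_lit 0) (p (nat_lit 0x40492) (nat_lit 0) (p (nat_lit 0x30412) (nat_lit 0) (p (nat_lit 0x30212) (nat_lit 0) (p (nat_lit 0x20192) (nat_lit 0) (p (nat_lit 0x20092) (nat_lit 0) (p (nat_lit 0x10012) (nat_lit 0) pn)))))))))))))))))))))))))))))) :=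
  Cl.node (nat_lit 0x2a825aa825800000b0c0a0b8a) (nat_lit 1) (by decide +kernel) (ClAll.succ ClAll.zero n4)

def n10 : Cl (O (nat_lit 6)) (R (nat_lit 104465))
    (p (nat_lit 0x111) (nat_lit 0) (p (nat_lit 0x200014) (nat_lit 0) (p (nat_lit 0x20000c) (nat_lit 0) (p (nat_lit 0xc9) (nat_lit 1) (p (nat_lit 0x81) (nat_lit 0) (p (nat_lit 0x101) (nat_lit 1) (p (nat_lit 0x119) (nat_lit 0) (p (nat_lit 0xd1) (nat_lit 0) (p (nat_lit 0x89) (nat_lit 0) (p (nat_lit 0x41) (nat_lit 0) (p (nat_lit 0x10a098b090a9a) (nat_lit 0) (p (nat_lit 0x89890a888a1a) (nat_lit 0) (p (nat_lit 0x109088a08079a) (nat_lit 0) (p (nat_lit 0x88880987871a) (nat_lit 0) (p (nat_lit 0x8000080000000080907088a) (nat_lit 0) (p (nat_lit 0x8000080000000078886860a) (nat_lit 0) (p (nat_lit 0x10688060782) (nat_lit 0) (p (nat_lit 0x8607858702) (nat_lit 0) (p (nat_lit 0x10587050482) (nat_lit 0) (p (nat_lit 0x8506848402) (nat_lit 0) (p (nat_lit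 0x160004) (nat_lit 0) (p (nat_lit 0x50612) (nat_lit 0) (p (nat_lit 0x40592) (nat_lit 0) (p (nat_lit 0x40492) (nat_lit 0) (p (nat_lit 0x30412) (nat_lit 0) (p (nat_lit 0x30212) (nat_lit 0) (p (nat_lit 0x20192) (nat_lit 0) (p (nat_lit 0x20092) (nat_lit 0) (p (nat_lit 0x10012) (nat_lit 0) pn))))))))))))))))))))))))))))) :=
  Cl.node (nat_lit 0xb0004) (nat_lit 2) (by decide +kernel) (ClAll.succ (ClAll.succ ClAll.zero s6) s7)

def n11 : Cl (O (nat_lit 6)) (R (nat_lit 104465))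
    (p (nat_lit 0x200014) (nat_lit 0) (p (nat_lit 0x20000c) (nat_lit 0) (p (nat_lit 0xc9) (nat_lit 1) (p (nat_lit 0xc1) (nat_lit 0) (p (nat_lit 0x81) (nat_lit 1) (p (nat_lit 0x101) (nat_lit 1) (p (nat_lit 0x119) (nat_lit 0) (p (nat_lit 0xd1) (nat_lit 0) (p (nat_lit 0x89) (nat_lit 0) (p (nat_lit 0x41) (nat_lit 0) (p (nat_lit 0x10a098b090a9a) (nat_lit 0) (p (nat_lit 0x89890a888a1a) (nat_lit 0) (p (nat_lit 0x109088a08079a) (nat_lit 0) (p (nat_lit 0x88880987871a) (nat_lit 0) (p (nat_lit 0x8000080000000080907088a) (nat_lit 0) (p (nat_lit 0x8000080000000078886860a) (nat_lit 0) (p (nat_lit 0x10688060782) (nat_lit 0) (p (nat_lit 0x8607858702) (nat_lit 0) (p (nat_lit 0x10587050482) (nat_lit 0) (p (nat_lit 0x8506848402) (nat_lit 0) (p (nat_lit 0x160004) (nat_lit 0) (p (nat_lit 0x50612) (nat_lit 0) (p (nat_lit 0x40592) (nat_lit 0) (p (nat_lit 0x40492) (nat_lit 0) (p (nat_lit 0x30412) (nat_lit 0)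 (p (nat_lit 0x30212) (nat_lit 0) (p (nat_lit 0x20192) (nat_lit 0) (p (nat_lit 0x20092) (nat_lit 0) (p (nat_lit 0x10012) (nat_lit 0) pn))))))))))))))))))))))))))))) :=
  Cl.node (nat_lit 0xb0004) (nat_lit 2) (by decide +kernel) (ClAll.succ (ClAll.succ ClAll.zero s12) s13)

def n12 : Cl (O (nat_lit 6)) (R (nat_lit 104465))
    (p (nat_lit 0x200014) (nat_lit 0) (p (nat_lit 0x20000c) (nat_lit 0) (p (nat_lit 0x109) (nat_lit 1) (p (nat_lit 0x101) (nat_lit 0) (p (nat_lit 0x81) (nat_lit 1) (p (nat_lit 0xc1) (nat_lit 1) (p (nat_lit 0x119) (nat_lit 1) (p (nat_lit 0xd1) (nat_lit 0) (p (nat_lit 0x89) (nat_lit 0) (p (nat_lit 0x41) (nat_lit 0) (p (nat_lit 0x10a098b090a9a) (nat_lit 0) (p (nat_lit 0x89890a888a1a) (nat_lit 0) (p (nat_lit 0x109088a08079a) (nat_lit 0) (p (nat_lit 0x88880987871a) (nat_lit 0) (p (nat_lit 0x8000080000000080907088a) (nat_lit 0) (p (nat_lit 0x8000080000000078886860a) (nat_lit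 0) (p (nat_lit 0x10688060782) (nat_lit 0) (p (nat_lit 0x8607858702) (nat_lit 0) (p (nat_lit 0x10587050482) (nat_lit 0) (p (nat_lit 0x8506848402) (nat_lit 0) (p (nat_lit 0x160004) (nat_lit 0) (p (nat_lit 0x50612) (nat_lit 0) (p (nat_lit 0x40592) (nat_lit 0) (p (nat_lit 0x40492) (nat_lit 0) (p (nat_lit 0x30412) (nat_lit 0) (p (nat_lit 0x30212) (nat_lit 0) (p (nat_lit 0x20192) (nat_lit 0) (p (nat_lit 0x20092) (nat_lit 0) (p (nat_lit 0x10012) (nat_lit 0) pn))))))))))))))))))))))))))))) :=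
  Cl.node (nat_lit 0xb0004) (nat_lit 2) (by decide +kernel) (ClAll.succ (ClAll.succ ClAll.zero s22) s23)

def n13 : Cl (O (nat_lit 6)) (R (nat_lit 104465))
    (p (nat_lit 0x119) (nat_lit 0) (p (nat_lit 0x200014) (nat_lit 0) (p (nat_lit 0x20000c) (nat_lit 0) (p (nat_lit 0xc1) (nat_lit 0) (p (nat_lit 0x81) (nat_lit 1) (p (nat_lit 0x101) (nat_lit 1) (p (nat_lit 0x111) (nat_lit 0) (p (nat_lit 0xd1) (nat_lit 1) (p (nat_lit 0x89) (nat_lit 0) (p (nat_lit 0x41) (nat_lit 0) (p (nat_lit 0x10a098b090a9a) (nat_lit 0) (p (nat_lit 0x89890a888a1a) (nat_lit 0) (p (nat_lit 0x109088a08079a) (nat_lit 0) (p (nat_lit 0x88880987871a) (nat_lit 0) (p (nat_lit 0x8000080000000080907088a) (nat_lit 0) (p (nat_lit 0x8000080000000078886860a) (nat_lit 0) (p (nat_lit 0x10688060782) (nat_lit 0) (p (nat_lit 0x8607858702) (nat_lit 0) (p (nat_lit 0x10587050482) (nat_lit 0) (p (nat_lit 0x8506848402) (nat_lit 0) (p (nat_lit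 0x160004) (nat_lit 0) (p (nat_lit 0x50612) (nat_lit 0) (p (nat_lit 0x40592) (nat_lit 0) (p (nat_lit 0x40492) (nat_lit 0) (p (nat_lit 0x30412) (nat_lit 0) (p (nat_lit 0x30212) (nat_lit 0) (p (nat_lit 0x20192) (nat_lit 0) (p (nat_lit 0x20092) (nat_lit 0) (p (nat_lit 0x10012) (nat_lit 0) pn))))))))))))))))))))))))))))) :=
  Cl.node (nat_lit 0xb0004) (nat_lit 2) (by decide +kernel) (ClAll.succ (ClAll.succ ClAll.zero n5) s37)

def n14 : Cl (O (nat_lit 6)) (R (nat_lit 104465))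
    (p (nat_lit 0xb0004) (nat_lit 0) (p (nat_lit 0x200014) (nat_lit 0) (p (nat_lit 0x20000c) (nat_lit 0) (p (nat_lit 0xd1) (nat_lit 0) (p (nat_lit 0x109) (nat_lit 1) (p (nat_lit 0x101) (nat_lit 0) (p (nat_lit 0x119) (nat_lit 0) (p (nat_lit 0xc9) (nat_lit 0) (p (nat_lit 0x89) (nat_lit 1) (p (nat_lit 0x41) (nat_lit 0) (p (nat_lit 0x10a098b090a9a) (nat_lit 0) (p (nat_lit 0x89890a888a1a) (nat_lit 0) (p (nat_lit 0x109088a08079a) (nat_lit 0) (p (nat_lit 0x88880987871a) (nat_lit 0) (p (nat_lit 0x8000080000000080907088a) (nat_lit 0) (p (nat_lit 0x8000080000000078886860a) (nat_lit 0) (p (nat_lit 0x10688060782) (nat_lit 0) (p (nat_lit 0x8607858702) (nat_lit 0) (p (nat_lit 0x10587050482) (nat_lit 0) (p (nat_lit 0x8506848402) (nat_lit 0) (p (nat_lit 0x160004) (nat_lit 0) (p (nat_lit 0x50612) (nat_lit 0) (p (nat_lit 0x40592) (nat_lit 0) (p (nat_lit 0x40492) (nat_lit 0) (p (nat_lit 0x30412) (nat_lit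 0) (p (nat_lit 0x30212) (nat_lit 0) (p (nat_lit 0x20192) (nat_lit 0) (p (nat_lit 0x20092) (nat_lit 0) (p (nat_lit 0x10012) (nat_lit 0) pn))))))))))))))))))))))))))))) :=
  Cl.node (nat_lit 0x41) (nat_lit 2) (by decide +kernel) (ClAll.succ (ClAll.succ ClAll.zero n6) s48)

def n15 : Cl (O (nat_lit 6)) (R (nat_lit 104465))
    (p (nat_lit 0xb0004) (nat_lit 0) (p (nat_lit 0x200014) (nat_lit 0) (p (nat_lit 0x20000c) (nat_lit 0) (p (nat_lit 0xd1) (nat_lit 1) (p (nat_lit 0x109) (nat_lit 1) (p (nat_lit 0x101) (nat_lit 0) (p (nat_lit 0x119) (nat_lit 0) (p (nat_lit 0xc9) (nat_lit 0) (p (nat_lit 0x89) (nat_lit 1) (p (nat_lit 0x41) (nat_lit 0) (p (nat_lit 0x10a098b090a9a) (nat_lit 0) (p (nat_lit 0x89890a888a1a) (nat_lit 0) (p (nat_lit 0x109088a08079a) (nat_lit 0) (p (nat_lit 0x88880987871a) (nat_lit 0) (p (nat_lit 0x8000080000000080907088a) (nat_lit 0) (p (nat_lit 0x8000080000000078886860a) (nat_lit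 0) (p (nat_lit 0x10688060782) (nat_lit 0) (p (nat_lit 0x8607858702) (nat_lit 0) (p (nat_lit 0x10587050482) (nat_lit 0) (p (nat_lit 0x8506848402) (nat_lit 0) (p (nat_lit 0x160004) (nat_lit 0) (p (nat_lit 0x50612) (nat_lit 0) (p (nat_lit 0x40592) (nat_lit 0) (p (nat_lit 0x40492) (nat_lit 0) (p (nat_lit 0x30412) (nat_lit 0) (p (nat_lit 0x30212) (nat_lit 0) (p (nat_lit 0x20192) (nat_lit 0) (p (nat_lit 0x20092) (nat_lit 0) (p (nat_lit 0x10012) (nat_lit 0) pn))))))))))))))))))))))))))))) :=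
  Cl.node (nat_lit 0x41) (nat_lit 2) (by decide +kernel) (ClAll.succ (ClAll.succ ClAll.zero n7) s54)

def n16 : Cl (O (nat_lit 6)) (R (nat_lit 104465))
    (p (nat_lit 0xb0004) (nat_lit 0) (p (nat_lit 0x200014) (nat_lit 0) (p (nat_lit 0x20000c) (nat_lit 0) (p (nat_lit 0xd1) (nat_lit 1) (p (nat_lit 0xc1) (nat_lit 0) (p (nat_lit 0x101) (nat_lit 1) (p (nat_lit 0x119) (nat_lit 0) (p (nat_lit 0xc9) (nat_lit 0) (p (nat_lit 0x89) (nat_lit 1) (p (nat_lit 0x41) (nat_lit 0) (p (nat_lit 0x10a098b090a9a) (nat_lit 0) (p (nat_lit 0x89890a888a1a) (nat_lit 0) (p (nat_lit 0x109088a08079a) (nat_lit 0) (p (nat_lit 0x88880987871a) (nat_lit 0) (p (nat_lit 0x8000080000000080907088a) (nat_lit 0) (p (nat_lit 0x8000080000000078886860a) (nat_lit 0) (p (nat_lit 0x10688060782) (nat_lit 0) (p (nat_lit 0x8607858702) (nat_lit 0) (p (nat_lit 0x10587050482) (nat_lit 0) (p (nat_lit 0x8506848402) (nat_lit 0) (p (nat_lit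 0x160004) (nat_lit 0) (p (nat_lit 0x50612) (nat_lit 0) (p (nat_lit 0x40592) (nat_lit 0) (p (nat_lit 0x40492) (nat_lit 0) (p (nat_lit 0x30412) (nat_lit 0) (p (nat_lit 0x30212) (nat_lit 0) (p (nat_lit 0x20192) (nat_lit 0) (p (nat_lit 0x20092) (nat_lit 0) (p (nat_lit 0x10012) (nat_lit 0) pn))))))))))))))))))))))))))))) :=
  Cl.node (nat_lit 0x109) (nat_lit 2) (by decide +kernel) (ClAll.succ (ClAll.succ ClAll.zero s62) n8)

def n17 : Cl (O (nat_lit 6)) (R (nat_lit 104465))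
    (p (nat_lit 0x200014) (nat_lit 0) (p (nat_lit 0x20000c) (nat_lit 0) (p (nat_lit 0xc9) (nat_lit 1) (p (nat_lit 0x89) (nat_lit 1) (p (nat_lit 0xc1) (nat_lit 0) (p (nat_lit 0x101) (nat_lit 1) (p (nat_lit 0x119) (nat_lit 0) (p (nat_lit 0xd1) (nat_lit 0) (p (nat_lit 0x81) (nat_lit 0) (p (nat_lit 0x41) (nat_lit 1) (p (nat_lit 0x10a098b090a9a) (nat_lit 0) (p (nat_lit 0x89890a888a1a) (nat_lit 0) (p (nat_lit 0x109088a08079a) (nat_lit 0) (p (nat_lit 0x88880987871a) (nat_lit 0) (p (nat_lit 0x8000080000000080907088a) (nat_lit 0) (p (nat_lit 0x8000080000000078886860a) (nat_lit 0) (p (nat_lit 0x10688060782) (nat_lit 0) (p (nat_lit 0x8607858702) (nat_lit 0) (p (nat_lit 0x10587050482) (nat_lit 0) (p (nat_lit 0x8506848402) (nat_lit 0) (p (nat_lit 0x160004) (nat_lit 0) (p (nat_lit 0x50612) (nat_lit 0) (p (nat_lit 0x40592) (nat_lit 0) (p (nat_lit 0x40492) (nat_lit 0) (p (nat_lit 0x30412) (nat_lit 0)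 (p (nat_lit 0x30212) (nat_lit 0) (p (nat_lit 0x20192) (nat_lit 0) (p (nat_lit 0x20092) (nat_lit 0) (p (nat_lit 0x10012) (nat_lit 0) pn))))))))))))))))))))))))))))) :=
  Cl.node (nat_lit 0xb0004) (nat_lit 2) (by decide +kernel) (ClAll.succ (ClAll.succ ClAll.zero s98) s99)

def n18 : Cl (O (nat_lit 6)) (R (nat_lit 104465))
    (p (nat_lit 0xb0004) (nat_lit 0) (p (nat_lit 0x200014) (nat_lit 0) (p (nat_lit 0x20000c) (nat_lit 0) (p (nat_lit 0x89) (nat_lit 1) (p (nat_lit 0xc1) (nat_lit 1) (p (nat_lit 0x101) (nat_lit 1) (p (nat_lit 0x119) (nat_lit 0) (p (nat_lit 0xd1) (nat_lit 0) (p (nat_lit 0x81) (nat_lit 0) (p (nat_lit 0x41) (nat_lit 1) (p (nat_lit 0x10a098b090a9a) (nat_lit 0) (p (nat_lit 0x89890a888a1a) (nat_lit 0) (p (nat_lit 0x109088a08079a) (nat_lit 0) (p (nat_lit 0x88880987871a) (nat_lit 0) (p (nat_lit 0x8000080000000080907088a) (nat_lit 0) (p (nat_lit 0x8000080000000078886860a) (nat_lit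 0) (p (nat_lit 0x10688060782) (nat_lit 0) (p (nat_lit 0x8607858702) (nat_lit 0) (p (nat_lit 0x10587050482) (nat_lit 0) (p (nat_lit 0x8506848402) (nat_lit 0) (p (nat_lit 0x160004) (nat_lit 0) (p (nat_lit 0x50612) (nat_lit 0) (p (nat_lit 0x40592) (nat_lit 0) (p (nat_lit 0x40492) (nat_lit 0) (p (nat_lit 0x30412) (nat_lit 0) (p (nat_lit 0x30212) (nat_lit 0) (p (nat_lit 0x20192) (nat_lit 0) (p (nat_lit 0x20092) (nat_lit 0) (p (nat_lit 0x10012) (nat_lit 0) pn))))))))))))))))))))))))))))) :=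
  Cl.node (nat_lit 0x109) (nat_lit 2) (by decide +kernel) (ClAll.succ (ClAll.succ ClAll.zero s103) s104)

def n19 : Cl (O (nat_lit 6)) (R (nat_lit 104465))
    (p (nat_lit 0xb0004) (nat_lit 1) (p (nat_lit 0x200014) (nat_lit 0) (p (nat_lit 0x20000c) (nat_lit 0) (p (nat_lit 0x89) (nat_lit 1) (p (nat_lit 0xc1) (nat_lit 1) (p (nat_lit 0x101) (nat_lit 1) (p (nat_lit 0x119) (nat_lit 0) (p (nat_lit 0xd1) (nat_lit 0) (p (nat_lit 0x81) (nat_lit 0) (p (nat_lit 0x41) (nat_lit 1) (p (nat_lit 0x10a098b090a9a) (nat_lit 0) (p (nat_lit 0x89890a888a1a) (nat_lit 0) (p (nat_lit 0x109088a08079a) (nat_lit 0) (p (nat_lit 0x88880987871a) (nat_lit 0) (p (nat_lit 0x8000080000000080907088a) (nat_lit 0) (p (nat_lit 0x8000080000000078886860a) (nat_lit 0) (p (nat_lit 0x10688060782) (nat_lit 0) (p (nat_lit 0x8607858702) (nat_lit 0) (p (nat_lit 0x10587050482) (nat_lit 0) (p (nat_lit 0x8506848402) (nat_lit 0) (p (nat_lit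 0x160004) (nat_lit 0) (p (nat_lit 0x50612) (nat_lit 0) (p (nat_lit 0x40592) (nat_lit 0) (p (nat_lit 0x40492) (nat_lit 0) (p (nat_lit 0x30412) (nat_lit 0) (p (nat_lit 0x30212) (nat_lit 0) (p (nat_lit 0x20192) (nat_lit 0) (p (nat_lit 0x20092) (nat_lit 0) (p (nat_lit 0x10012) (nat_lit 0) pn))))))))))))))))))))))))))))) :=
  Cl.node (nat_lit 0x2a825aa825800000a8b89890a) (nat_lit 1) (by decide +kernel) (ClAll.succ ClAll.zero n9)

def n20 : Cl (O (nat_lit 6)) (R (nat_lit 104465))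
    (p (nat_lit 0x200014) (nat_lit 0) (p (nat_lit 0x20000c) (nat_lit 0) (p (nat_lit 0x109) (nat_lit 1) (p (nat_lit 0x89) (nat_lit 1) (p (nat_lit 0x101) (nat_lit 0) (p (nat_lit 0xc1) (nat_lit 1) (p (nat_lit 0x119) (nat_lit 1) (p (nat_lit 0xd1) (nat_lit 0) (p (nat_lit 0x81) (nat_lit 0) (p (nat_lit 0x41) (nat_lit 1) (p (nat_lit 0x10a098b090a9a) (nat_lit 0) (p (nat_lit 0x89890a888a1a) (nat_lit 0) (p (nat_lit 0x109088a08079a) (nat_lit 0) (p (nat_lit 0x88880987871a) (nat_lit 0) (p (nat_lit 0x8000080000000080907088a) (nat_lit 0) (p (nat_lit 0x8000080000000078886860a) (nat_lit 0) (p (nat_lit 0x10688060782) (nat_lit 0) (p (nat_lit 0x8607858702) (nat_lit 0) (p (nat_lit 0x10587050482) (nat_lit 0) (p (nat_lit 0x8506848402) (nat_lit 0) (p (nat_lit 0x160004) (nat_lit 0) (p (nat_lit 0x50612) (nat_lit 0) (p (nat_lit 0x40592) (nat_lit 0) (p (nat_lit 0x40492) (nat_lit 0) (p (nat_lit 0x30412) (nat_lit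 0) (p (nat_lit 0x30212) (nat_lit 0) (p (nat_lit 0x20192) (nat_lit 0) (p (nat_lit 0x20092) (nat_lit 0) (p (nat_lit 0x10012) (nat_lit 0) pn))))))))))))))))))))))))))))) :=
  Cl.node (nat_lit 0xb0004) (nat_lit 2) (by decide +kernel) (ClAll.succ (ClAll.succ ClAll.zero s115) s116)

def n21 : Cl (O (nat_lit 6)) (R (nat_lit 104465))
    (p (nat_lit 0x200014) (nat_lit 0) (p (nat_lit 0x20000c) (nat_lit 0) (p (nat_lit 0xc9) (nat_lit 0) (p (nat_lit 0x89) (nat_lit 1) (p (nat_lit 0x109) (nat_lit 1) (p (nat_lit 0x101) (nat_lit 0) (p (nat_lit 0x111) (nat_lit 0) (p (nat_lit 0xd1) (nat_lit 1) (p (nat_lit 0x81) (nat_lit 0) (p (nat_lit 0x41) (nat_lit 1) (p (nat_lit 0x10a098b090a9a) (nat_lit 0) (p (nat_lit 0x89890a888a1a) (nat_lit 0) (p (nat_lit 0x109088a08079a) (nat_lit 0) (p (nat_lit 0x88880987871a) (nat_lit 0) (p (nat_lit 0x8000080000000080907088a) (nat_lit 0) (p (nat_lit 0x8000080000000078886860a) (nat_lit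 0) (p (nat_lit 0x10688060782) (nat_lit 0) (p (nat_lit 0x8607858702) (nat_lit 0) (p (nat_lit 0x10587050482) (nat_lit 0) (p (nat_lit 0x8506848402) (nat_lit 0) (p (nat_lit 0x160004) (nat_lit 0) (p (nat_lit 0x50612) (nat_lit 0) (p (nat_lit 0x40592) (nat_lit 0) (p (nat_lit 0x40492) (nat_lit 0) (p (nat_lit 0x30412) (nat_lit 0) (p (nat_lit 0x30212) (nat_lit 0) (p (nat_lit 0x20192) (nat_lit 0) (p (nat_lit 0x20092) (nat_lit 0) (p (nat_lit 0x10012) (nat_lit 0) pn))))))))))))))))))))))))))))) :=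
  Cl.node (nat_lit 0x119) (nat_lit 2) (by decide +kernel) (ClAll.succ (ClAll.succ ClAll.zero s126) s127)

def n22 : Cl (O (nat_lit 6)) (R (nat_lit 104465))
    (p (nat_lit 0x200014) (nat_lit 0) (p (nat_lit 0x20000c) (nat_lit 0) (p (nat_lit 0xc9) (nat_lit 1) (p (nat_lit 0x81) (nat_lit 0) (p (nat_lit 0x101) (nat_lit 1) (p (nat_lit 0x119) (nat_lit 0) (p (nat_lit 0xd1) (nat_lit 0) (p (nat_lit 0x89) (nat_lit 0) (p (nat_lit 0x41) (nat_lit 0) (p (nat_lit 0x10a098b090a9a) (nat_lit 0) (p (nat_lit 0x89890a888a1a) (nat_lit 0) (p (nat_lit 0x109088a08079a) (nat_lit 0) (p (nat_lit 0x88880987871a) (nat_lit 0) (p (nat_lit 0x8000080000000080907088a) (nat_lit 0) (p (nat_lit 0x8000080000000078886860a) (nat_lit 0) (p (nat_lit 0x10688060782) (nat_lit 0) (p (nat_lit 0x8607858702) (nat_lit 0) (p (nat_lit 0x10587050482) (nat_lit 0) (p (nat_lit 0x8506848402) (nat_lit 0) (p (nat_lit 0x160004) (nat_lit 0) (p (nat_lit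 0x50612) (nat_lit 0) (p (nat_lit 0x40592) (nat_lit 0) (p (nat_lit 0x40492) (nat_lit 0) (p (nat_lit 0x30412) (nat_lit 0) (p (nat_lit 0x30212) (nat_lit 0) (p (nat_lit 0x20192) (nat_lit 0) (p (nat_lit 0x20092) (nat_lit 0) (p (nat_lit 0x10012) (nat_lit 0) pn)))))))))))))))))))))))))))) :=
  Cl.node (nat_lit 0x111) (nat_lit 2) (by decide +kernel) (ClAll.succ (ClAll.succ ClAll.zero n10) s8)

def n23 : Cl (O (nat_lit 6)) (R (nat_lit 104465))
    (p (nat_lit 0x20000c) (nat_lit 0) (p (nat_lit 0xc9) (nat_lit 1) (p (nat_lit 0xc1) (nat_lit 0) (p (nat_lit 0x81) (nat_lit 1) (p (nat_lit 0x101) (nat_lit 1) (p (nat_lit 0x119) (nat_lit 0) (p (nat_lit 0xd1) (nat_lit 0) (p (nat_lit 0x89) (nat_lit 0) (p (nat_lit 0x41) (nat_lit 0) (p (nat_lit 0x10a098b090a9a) (nat_lit 0) (p (nat_lit 0x89890a888a1a) (nat_lit 0) (p (nat_lit 0x109088a08079a) (nat_lit 0) (p (nat_lit 0x88880987871a) (nat_lit 0) (p (nat_lit 0x8000080000000080907088a)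 (nat_lit 0) (p (nat_lit 0x8000080000000078886860a) (nat_lit 0) (p (nat_lit 0x10688060782) (nat_lit 0) (p (nat_lit 0x8607858702) (nat_lit 0) (p (nat_lit 0x10587050482) (nat_lit 0) (p (nat_lit 0x8506848402) (nat_lit 0) (p (nat_lit 0x160004) (nat_lit 0) (p (nat_lit 0x50612) (nat_lit 0) (p (nat_lit 0x40592) (nat_lit 0) (p (nat_lit 0x40492) (nat_lit 0) (p (nat_lit 0x30412) (nat_lit 0) (p (nat_lit 0x30212) (nat_lit 0) (p (nat_lit 0x20192) (nat_lit 0) (p (nat_lit 0x20092) (nat_lit 0) (p (nat_lit 0x10012) (nat_lit 0) pn)))))))))))))))))))))))))))) :=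
  Cl.node (nat_lit 0x200014) (nat_lit 2) (by decide +kernel) (ClAll.succ (ClAll.succ ClAll.zero n11) s14)

def n24 : Cl (O (nat_lit 6)) (R (nat_lit 104465))
    (p (nat_lit 0x20000c) (nat_lit 0) (p (nat_lit 0x109) (nat_lit 0) (p (nat_lit 0x101) (nat_lit 0) (p (nat_lit 0x81) (nat_lit 1) (p (nat_lit 0xc1) (nat_lit 1) (p (nat_lit 0x119) (nat_lit 1) (p (nat_lit 0xd1) (nat_lit 0) (p (nat_lit 0x89) (nat_lit 0) (p (nat_lit 0x41) (nat_lit 0) (p (nat_lit 0x10a098b090a9a) (nat_lit 0) (p (nat_lit 0x89890a888a1a) (nat_lit 0) (p (nat_lit 0x109088a08079a) (nat_lit 0) (p (nat_lit 0x88880987871a) (nat_lit 0) (p (nat_lit 0x8000080000000080907088a) (nat_lit 0) (p (nat_lit 0x8000080000000078886860a) (nat_lit 0) (p (nat_lit 0x10688060782) (nat_lit 0) (p (nat_lit 0x8607858702) (nat_lit 0) (p (nat_lit 0x10587050482) (nat_lit 0) (p (nat_lit 0x8506848402) (nat_lit 0) (p (nat_lit 0x160004) (nat_lit 0) (p (nat_lit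 0x50612) (nat_lit 0) (p (nat_lit 0x40592) (nat_lit 0) (p (nat_lit 0x40492) (nat_lit 0) (p (nat_lit 0x30412) (nat_lit 0) (p (nat_lit 0x30212) (nat_lit 0) (p (nat_lit 0x20192) (nat_lit 0) (p (nat_lit 0x20092) (nat_lit 0) (p (nat_lit 0x10012) (nat_lit 0) pn)))))))))))))))))))))))))))) :=
  Cl.node (nat_lit 0x200014) (nat_lit 2) (by decide +kernel) (ClAll.succ (ClAll.succ ClAll.zero s19) s20)

def n25 : Cl (O (nat_lit 6)) (R (nat_lit 104465))
    (p (nat_lit 0x20000c) (nat_lit 0) (p (nat_lit 0x109) (nat_lit 1) (p (nat_lit 0x101) (nat_lit 0) (p (nat_lit 0x81) (nat_lit 1) (p (nat_lit 0xc1) (nat_lit 1) (p (nat_lit 0x119) (nat_lit 1) (p (nat_lit 0xd1) (nat_lit 0) (p (nat_lit 0x89) (nat_lit 0) (p (nat_lit 0x41) (nat_lit 0) (p (nat_lit 0x10a098b090a9a) (nat_lit 0) (p (nat_lit 0x89890a888a1a) (nat_lit 0) (p (nat_lit 0x109088a08079a) (nat_lit 0) (p (nat_lit 0x88880987871a) (nat_lit 0) (p (nat_lit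 0x8000080000000080907088a) (nat_lit 0) (p (nat_lit 0x8000080000000078886860a) (nat_lit 0) (p (nat_lit 0x10688060782) (nat_lit 0) (p (nat_lit 0x8607858702) (nat_lit 0) (p (nat_lit 0x10587050482) (nat_lit 0) (p (nat_lit 0x8506848402) (nat_lit 0) (p (nat_lit 0x160004) (nat_lit 0) (p (nat_lit 0x50612) (nat_lit 0) (p (nat_lit 0x40592) (nat_lit 0) (p (nat_lit 0x40492) (nat_lit 0) (p (nat_lit 0x30412) (nat_lit 0) (p (nat_lit 0x30212) (nat_lit 0) (p (nat_lit 0x20192) (nat_lit 0) (p (nat_lit 0x20092) (nat_lit 0) (p (nat_lit 0x10012) (nat_lit 0) pn)))))))))))))))))))))))))))) :=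
  Cl.node (nat_lit 0x200014) (nat_lit 2) (by decide +kernel) (ClAll.succ (ClAll.succ ClAll.zero n12) s24)

def n26 : Cl (O (nat_lit 6)) (R (nat_lit 104465))
    (p (nat_lit 0x200014) (nat_lit 0) (p (nat_lit 0x20000c) (nat_lit 0) (p (nat_lit 0xc1) (nat_lit 0) (p (nat_lit 0x81) (nat_lit 1) (p (nat_lit 0x101) (nat_lit 1) (p (nat_lit 0x111) (nat_lit 0) (p (nat_lit 0xd1) (nat_lit 1) (p (nat_lit 0x89) (nat_lit 0) (p (nat_lit 0x41) (nat_lit 0) (p (nat_lit 0x10a098b090a9a) (nat_lit 0) (p (nat_lit 0x89890a888a1a) (nat_lit 0) (p (nat_lit 0x109088a08079a) (nat_lit 0) (p (nat_lit 0x88880987871a) (nat_lit 0) (p (nat_lit 0x8000080000000080907088a) (nat_lit 0) (p (nat_lit 0x8000080000000078886860a) (nat_lit 0) (p (nat_lit 0x10688060782) (nat_lit 0) (p (nat_lit 0x8607858702) (nat_lit 0) (p (nat_lit 0x10587050482) (nat_lit 0) (p (nat_lit 0x8506848402) (nat_lit 0) (p (nat_lit 0x160004) (nat_lit 0) (p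 (nat_lit 0x50612) (nat_lit 0) (p (nat_lit 0x40592) (nat_lit 0) (p (nat_lit 0x40492) (nat_lit 0) (p (nat_lit 0x30412) (nat_lit 0) (p (nat_lit 0x30212) (nat_lit 0) (p (nat_lit 0x20192) (nat_lit 0) (p (nat_lit 0x20092) (nat_lit 0) (p (nat_lit 0x10012) (nat_lit 0) pn)))))))))))))))))))))))))))) :=
  Cl.node (nat_lit 0x119) (nat_lit 2) (by decide +kernel) (ClAll.succ (ClAll.succ ClAll.zero n13) s38)

def n27 : Cl (O (nat_lit 6)) (R (nat_lit 104465))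
    (p (nat_lit 0x200014) (nat_lit 0) (p (nat_lit 0x20000c) (nat_lit 0) (p (nat_lit 0xd1) (nat_lit 0) (p (nat_lit 0x109) (nat_lit 1) (p (nat_lit 0x101) (nat_lit 0) (p (nat_lit 0x119) (nat_lit 0) (p (nat_lit 0xc9) (nat_lit 0) (p (nat_lit 0x89) (nat_lit 1) (p (nat_lit 0x41) (nat_lit 0) (p (nat_lit 0x10a098b090a9a) (nat_lit 0) (p (nat_lit 0x89890a888a1a) (nat_lit 0) (p (nat_lit 0x109088a08079a) (nat_lit 0) (p (nat_lit 0x88880987871a) (nat_lit 0) (p (nat_lit 0x8000080000000080907088a) (nat_lit 0) (p (nat_lit 0x8000080000000078886860a) (nat_lit 0) (p (nat_lit 0x10688060782) (nat_lit 0) (p (nat_lit 0x8607858702) (nat_lit 0) (p (nat_lit 0x10587050482) (nat_lit 0) (p (nat_lit 0x8506848402) (nat_lit 0) (p (nat_lit 0x160004) (nat_lit 0) (p (nat_lit 0x50612) (nat_lit 0) (p (nat_lit 0x40592) (nat_lit 0) (p (nat_lit 0x40492) (nat_lit 0) (p (nat_lit 0x30412) (nat_lit 0) (p (nat_lit 0x30212) (nat_lit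 0) (p (nat_lit 0x20192) (nat_lit 0) (p (nat_lit 0x20092) (nat_lit 0) (p (nat_lit 0x10012) (nat_lit 0) pn)))))))))))))))))))))))))))) :=
  Cl.node (nat_lit 0xb0004) (nat_lit 2) (by decide +kernel) (ClAll.succ (ClAll.succ ClAll.zero n14) s49)

def n28 : Cl (O (nat_lit 6)) (R (nat_lit 104465))
    (p (nat_lit 0x200014) (nat_lit 0) (p (nat_lit 0x20000c) (nat_lit 0) (p (nat_lit 0xd1) (nat_lit 1) (p (nat_lit 0x109) (nat_lit 1) (p (nat_lit 0x101) (nat_lit 0) (p (nat_lit 0x119) (nat_lit 0) (p (nat_lit 0xc9) (nat_lit 0) (p (nat_lit 0x89) (nat_lit 1) (p (nat_lit 0x41) (nat_lit 0) (p (nat_lit 0x10a098b090a9a) (nat_lit 0) (p (nat_lit 0x89890a888a1a) (nat_lit 0) (p (nat_lit 0x109088a08079a) (nat_lit 0) (p (nat_lit 0x88880987871a) (nat_lit 0) (p (nat_lit 0x8000080000000080907088a) (nat_lit 0) (p (nat_lit 0x8000080000000078886860a) (nat_lit 0) (p (nat_lit 0x10688060782) (nat_lit 0) (p (nat_lit 0x8607858702)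 (nat_lit 0) (p (nat_lit 0x10587050482) (nat_lit 0) (p (nat_lit 0x8506848402) (nat_lit 0) (p (nat_lit 0x160004) (nat_lit 0) (p (nat_lit 0x50612) (nat_lit 0) (p (nat_lit 0x40592) (nat_lit 0) (p (nat_lit 0x40492) (nat_lit 0) (p (nat_lit 0x30412) (nat_lit 0) (p (nat_lit 0x30212) (nat_lit 0) (p (nat_lit 0x20192) (nat_lit 0) (p (nat_lit 0x20092) (nat_lit 0) (p (nat_lit 0x10012) (nat_lit 0) pn)))))))))))))))))))))))))))) :=
  Cl.node (nat_lit 0xb0004) (nat_lit 2) (by decide +kernel) (ClAll.succ (ClAll.succ ClAll.zero n15) s55)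

def n29 : Cl (O (nat_lit 6)) (R (nat_lit 104465))
    (p (nat_lit 0x200014) (nat_lit 0) (p (nat_lit 0x20000c) (nat_lit 0) (p (nat_lit 0xd1) (nat_lit 0) (p (nat_lit 0xc1) (nat_lit 0) (p (nat_lit 0x101) (nat_lit 1) (p (nat_lit 0x119) (nat_lit 0) (p (nat_lit 0xc9) (nat_lit 0) (p (nat_lit 0x89) (nat_lit 1) (p (nat_lit 0x41) (nat_lit 0) (p (nat_lit 0x10a098b090a9a) (nat_lit 0) (p (nat_lit 0x89890a888a1a) (nat_lit 0) (p (nat_lit 0x109088a08079a) (nat_lit 0) (p (nat_lit 0x88880987871a) (nat_lit 0) (p (nat_lit 0x8000080000000080907088a) (nat_lit 0) (p (nat_lit 0x8000080000000078886860a) (nat_lit 0) (p (nat_lit 0x10688060782) (nat_lit 0) (p (nat_lit 0x8607858702) (nat_lit 0) (p (nat_lit 0x10587050482) (nat_lit 0) (p (nat_lit 0x8506848402) (nat_lit 0) (p (nat_lit 0x160004) (nat_lit 0) (p (nat_lit 0x50612) (nat_lit 0) (p (nat_lit 0x40592) (nat_lit 0) (p (nat_lit 0x40492) (nat_lit 0) (p (nat_lit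 0x30412) (nat_lit 0) (p (nat_lit 0x30212) (nat_lit 0) (p (nat_lit 0x20192) (nat_lit 0) (p (nat_lit 0x20092) (nat_lit 0) (p (nat_lit 0x10012) (nat_lit 0) pn)))))))))))))))))))))))))))) :=
  Cl.node (nat_lit 0xb0004) (nat_lit 2) (by decide +kernel) (ClAll.succ (ClAll.succ ClAll.zero s58) s59)

def n30 : Cl (O (nat_lit 6)) (R (nat_lit 104465))
    (p (nat_lit 0x200014) (nat_lit 0) (p (nat_lit 0x20000c) (nat_lit 0) (p (nat_lit 0xd1) (nat_lit 1) (p (nat_lit 0xc1) (nat_lit 0) (p (nat_lit 0x101) (nat_lit 1) (p (nat_lit 0x119) (nat_lit 0) (p (nat_lit 0xc9) (nat_lit 0) (p (nat_lit 0x89) (nat_lit 1) (p (nat_lit 0x41) (nat_lit 0) (p (nat_lit 0x10a098b090a9a) (nat_lit 0) (p (nat_lit 0x89890a888a1a) (nat_lit 0) (p (nat_lit 0x109088a08079a) (nat_lit 0) (p (nat_lit 0x88880987871a) (nat_lit 0) (p (nat_lit 0x8000080000000080907088a) (nat_lit 0) (p (nat_lit 0x8000080000000078886860a) (nat_lit 0) (p (nat_lit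 0x10688060782) (nat_lit 0) (p (nat_lit 0x8607858702) (nat_lit 0) (p (nat_lit 0x10587050482) (nat_lit 0) (p (nat_lit 0x8506848402) (nat_lit 0) (p (nat_lit 0x160004) (nat_lit 0) (p (nat_lit 0x50612) (nat_lit 0) (p (nat_lit 0x40592) (nat_lit 0) (p (nat_lit 0x40492) (nat_lit 0) (p (nat_lit 0x30412) (nat_lit 0) (p (nat_lit 0x30212) (nat_lit 0) (p (nat_lit 0x20192) (nat_lit 0) (p (nat_lit 0x20092) (nat_lit 0) (p (nat_lit 0x10012) (nat_lit 0) pn)))))))))))))))))))))))))))) :=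
  Cl.node (nat_lit 0xb0004) (nat_lit 2) (by decide +kernel) (ClAll.succ (ClAll.succ ClAll.zero n16) s65)

def n31 : Cl (O (nat_lit 6)) (R (nat_lit 104465))
    (p (nat_lit 0x200014) (nat_lit 0) (p (nat_lit 0x20000c) (nat_lit 0) (p (nat_lit 0x111) (nat_lit 0) (p (nat_lit 0x101) (nat_lit 0) (p (nat_lit 0xc1) (nat_lit 1) (p (nat_lit 0x119) (nat_lit 1) (p (nat_lit 0xc9) (nat_lit 0) (p (nat_lit 0x89) (nat_lit 1) (p (nat_lit 0x41) (nat_lit 0) (p (nat_lit 0x10a098b090a9a) (nat_lit 0) (p (nat_lit 0x89890a888a1a) (nat_lit 0) (p (nat_lit 0x109088a08079a) (nat_lit 0) (p (nat_lit 0x88880987871a) (nat_lit 0) (p (nat_lit 0x8000080000000080907088a) (nat_lit 0) (p (nat_lit 0x8000080000000078886860a) (nat_lit 0) (p (nat_lit 0x10688060782) (nat_lit 0) (p (nat_lit 0x8607858702) (nat_lit 0) (p (nat_lit 0x10587050482) (nat_lit 0) (p (nat_lit 0x8506848402) (nat_lit 0) (p (nat_lit 0x160004) (nat_lit 0) (p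 (nat_lit 0x50612) (nat_lit 0) (p (nat_lit 0x40592) (nat_lit 0) (p (nat_lit 0x40492) (nat_lit 0) (p (nat_lit 0x30412) (nat_lit 0) (p (nat_lit 0x30212) (nat_lit 0) (p (nat_lit 0x20192) (nat_lit 0) (p (nat_lit 0x20092) (nat_lit 0) (p (nat_lit 0x10012) (nat_lit 0) pn)))))))))))))))))))))))))))) :=
  Cl.node (nat_lit 0xb0004) (nat_lit 2) (by decide +kernel) (ClAll.succ (ClAll.succ ClAll.zero s74) s75)

def n32 : Cl (O (nat_lit 6)) (R (nat_lit 104465))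
    (p (nat_lit 0x200014) (nat_lit 0) (p (nat_lit 0x20000c) (nat_lit 0) (p (nat_lit 0x111) (nat_lit 1) (p (nat_lit 0x101) (nat_lit 0) (p (nat_lit 0xc1) (nat_lit 1) (p (nat_lit 0x119) (nat_lit 1) (p (nat_lit 0xc9) (nat_lit 0) (p (nat_lit 0x89) (nat_lit 1) (p (nat_lit 0x41) (nat_lit 0) (p (nat_lit 0x10a098b090a9a) (nat_lit 0) (p (nat_lit 0x89890a888a1a) (nat_lit 0) (p (nat_lit 0x109088a08079a) (nat_lit 0) (p (nat_lit 0x88880987871a) (nat_lit 0) (p (nat_lit 0x8000080000000080907088a) (nat_lit 0) (p (nat_lit 0x8000080000000078886860a) (nat_lit 0) (p (nat_lit 0x10688060782) (nat_lit 0) (p (nat_lit 0x8607858702) (nat_lit 0) (p (nat_lit 0x10587050482) (nat_lit 0) (p (nat_lit 0x8506848402) (nat_lit 0) (p (nat_lit 0x160004) (nat_lit 0) (p (nat_lit 0x50612) (nat_lit 0) (p (nat_lit 0x40592) (nat_lit 0) (p (nat_lit 0x40492) (nat_lit 0) (p (nat_lit 0x30412) (nat_lit 0) (p (nat_lit 0x30212) (nat_lit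 0) (p (nat_lit 0x20192) (nat_lit 0) (p (nat_lit 0x20092) (nat_lit 0) (p (nat_lit 0x10012) (nat_lit 0) pn)))))))))))))))))))))))))))) :=
  Cl.node (nat_lit 0xb0004) (nat_lit 2) (by decide +kernel) (ClAll.succ (ClAll.succ ClAll.zero s78) s79)

def n33 : Cl (O (nat_lit 6)) (R (nat_lit 104465))
    (p (nat_lit 0x200014) (nat_lit 0) (p (nat_lit 0x20000c) (nat_lit 0) (p (nat_lit 0x89) (nat_lit 0) (p (nat_lit 0x109) (nat_lit 1) (p (nat_lit 0x101) (nat_lit 0) (p (nat_lit 0x119) (nat_lit 0) (p (nat_lit 0xd1) (nat_lit 0) (p (nat_lit 0x81) (nat_lit 0) (p (nat_lit 0x41) (nat_lit 1) (p (nat_lit 0x10a098b090a9a) (nat_lit 0) (p (nat_lit 0x89890a888a1a) (nat_lit 0) (p (nat_lit 0x109088a08079a) (nat_lit 0) (p (nat_lit 0x88880987871a) (nat_lit 0) (p (nat_lit 0x8000080000000080907088a) (nat_lit 0) (p (nat_lit 0x8000080000000078886860a) (nat_lit 0) (p (nat_lit 0x10688060782) (nat_lit 0) (p (nat_lit 0x8607858702)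 (nat_lit 0) (p (nat_lit 0x10587050482) (nat_lit 0) (p (nat_lit 0x8506848402) (nat_lit 0) (p (nat_lit 0x160004) (nat_lit 0) (p (nat_lit 0x50612) (nat_lit 0) (p (nat_lit 0x40592) (nat_lit 0) (p (nat_lit 0x40492) (nat_lit 0) (p (nat_lit 0x30412) (nat_lit 0) (p (nat_lit 0x30212) (nat_lit 0) (p (nat_lit 0x20192) (nat_lit 0) (p (nat_lit 0x20092) (nat_lit 0) (p (nat_lit 0x10012) (nat_lit 0) pn)))))))))))))))))))))))))))) :=
  Cl.node (nat_lit 0x111) (nat_lit 2) (by decide +kernel) (ClAll.succ (ClAll.succ ClAll.zero s88) s89)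

def n34 : Cl (O (nat_lit 6)) (R (nat_lit 104465))
    (p (nat_lit 0x20000c) (nat_lit 0) (p (nat_lit 0xc9) (nat_lit 0) (p (nat_lit 0x89) (nat_lit 1) (p (nat_lit 0xc1) (nat_lit 0) (p (nat_lit 0x101) (nat_lit 1) (p (nat_lit 0x119) (nat_lit 0) (p (nat_lit 0xd1) (nat_lit 0) (p (nat_lit 0x81) (nat_lit 0) (p (nat_lit 0x41) (nat_lit 1) (p (nat_lit 0x10a098b090a9a) (nat_lit 0) (p (nat_lit 0x89890a888a1a) (nat_lit 0) (p (nat_lit 0x109088a08079a) (nat_lit 0) (p (nat_lit 0x88880987871a) (nat_lit 0) (p (nat_lit 0x8000080000000080907088a) (nat_lit 0) (p (nat_lit 0x8000080000000078886860a) (nat_lit 0) (p (nat_lit 0x10688060782) (nat_lit 0) (p (nat_lit 0x8607858702) (nat_lit 0) (p (nat_lit 0x10587050482) (nat_lit 0) (p (nat_lit 0x8506848402) (nat_lit 0) (p (nat_lit 0x160004) (nat_lit 0) (p (nat_lit 0x50612) (nat_lit 0) (p (nat_lit 0x40592) (nat_lit 0) (p (nat_lit 0x40492) (nat_lit 0) (p (nat_lit 0x30412)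 (nat_lit 0) (p (nat_lit 0x30212) (nat_lit 0) (p (nat_lit 0x20192) (nat_lit 0) (p (nat_lit 0x20092) (nat_lit 0) (p (nat_lit 0x10012) (nat_lit 0) pn)))))))))))))))))))))))))))) :=
  Cl.node (nat_lit 0x200014) (nat_lit 2) (by decide +kernel) (ClAll.succ (ClAll.succ ClAll.zero s95) s96)

def n35 : Cl (O (nat_lit 6)) (R (nat_lit 104465))
    (p (nat_lit 0x20000c) (nat_lit 0) (p (nat_lit 0xc9) (nat_lit 1) (p (nat_lit 0x89) (nat_lit 1) (p (nat_lit 0xc1) (nat_lit 0) (p (nat_lit 0x101) (nat_lit 1) (p (nat_lit 0x119) (nat_lit 0) (p (nat_lit 0xd1) (nat_lit 0) (p (nat_lit 0x81) (nat_lit 0) (p (nat_lit 0x41) (nat_lit 1) (p (nat_lit 0x10a098b090a9a) (nat_lit 0) (p (nat_lit 0x89890a888a1a) (nat_lit 0) (p (nat_lit 0x109088a08079a) (nat_lit 0) (p (nat_lit 0x88880987871a) (nat_lit 0) (p (nat_lit 0x8000080000000080907088a) (nat_lit 0) (p (nat_lit 0x8000080000000078886860a) (nat_lit 0) (p (nat_lit 0x10688060782)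 (nat_lit 0) (p (nat_lit 0x8607858702) (nat_lit 0) (p (nat_lit 0x10587050482) (nat_lit 0) (p (nat_lit 0x8506848402) (nat_lit 0) (p (nat_lit 0x160004) (nat_lit 0) (p (nat_lit 0x50612) (nat_lit 0) (p (nat_lit 0x40592) (nat_lit 0) (p (nat_lit 0x40492) (nat_lit 0) (p (nat_lit 0x30412) (nat_lit 0) (p (nat_lit 0x30212) (nat_lit 0) (p (nat_lit 0x20192) (nat_lit 0) (p (nat_lit 0x20092) (nat_lit 0) (p (nat_lit 0x10012) (nat_lit 0) pn)))))))))))))))))))))))))))) :=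
  Cl.node (nat_lit 0x200014) (nat_lit 2) (by decide +kernel) (ClAll.succ (ClAll.succ ClAll.zero n17) s100)

def n36 : Cl (O (nat_lit 6)) (R (nat_lit 104465))
    (p (nat_lit 0x200014) (nat_lit 0) (p (nat_lit 0x20000c) (nat_lit 0) (p (nat_lit 0x89) (nat_lit 1) (p (nat_lit 0xc1) (nat_lit 1) (p (nat_lit 0x101) (nat_lit 1) (p (nat_lit 0x119) (nat_lit 0) (p (nat_lit 0xd1) (nat_lit 0) (p (nat_lit 0x81) (nat_lit 0) (p (nat_lit 0x41) (nat_lit 1) (p (nat_lit 0x10a098b090a9a) (nat_lit 0) (p (nat_lit 0x89890a888a1a) (nat_lit 0) (p (nat_lit 0x109088a08079a) (nat_lit 0) (p (nat_lit 0x88880987871a) (nat_lit 0) (p (nat_lit 0x8000080000000080907088a) (nat_lit 0) (p (nat_lit 0x8000080000000078886860a) (nat_lit 0) (p (nat_lit 0x10688060782) (nat_lit 0) (p (nat_lit 0x8607858702) (nat_lit 0) (p (nat_lit 0x10587050482) (nat_lit 0) (p (nat_lit 0x8506848402) (nat_lit 0) (p (nat_lit 0x160004) (nat_lit 0) (p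 (nat_lit 0x50612) (nat_lit 0) (p (nat_lit 0x40592) (nat_lit 0) (p (nat_lit 0x40492) (nat_lit 0) (p (nat_lit 0x30412) (nat_lit 0) (p (nat_lit 0x30212) (nat_lit 0) (p (nat_lit 0x20192) (nat_lit 0) (p (nat_lit 0x20092) (nat_lit 0) (p (nat_lit 0x10012) (nat_lit 0) pn)))))))))))))))))))))))))))) :=
  Cl.node (nat_lit 0xb0004) (nat_lit 2) (by decide +kernel) (ClAll.succ (ClAll.succ ClAll.zero n18) n19)

def n37 : Cl (O (nat_lit 6)) (R (nat_lit 104465))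
    (p (nat_lit 0x20000c) (nat_lit 0) (p (nat_lit 0x109) (nat_lit 1) (p (nat_lit 0x89) (nat_lit 1) (p (nat_lit 0x101) (nat_lit 0) (p (nat_lit 0xc1) (nat_lit 1) (p (nat_lit 0x119) (nat_lit 1) (p (nat_lit 0xd1) (nat_lit 0) (p (nat_lit 0x81) (nat_lit 0) (p (nat_lit 0x41) (nat_lit 1) (p (nat_lit 0x10a098b090a9a) (nat_lit 0) (p (nat_lit 0x89890a888a1a) (nat_lit 0) (p (nat_lit 0x109088a08079a) (nat_lit 0) (p (nat_lit 0x88880987871a) (nat_lit 0) (p (nat_lit 0x8000080000000080907088a) (nat_lit 0) (p (nat_lit 0x8000080000000078886860a) (nat_lit 0) (p (nat_lit 0x10688060782) (nat_lit 0) (p (nat_lit 0x8607858702) (nat_lit 0) (p (nat_lit 0x10587050482) (nat_lit 0) (p (nat_lit 0x8506848402) (nat_lit 0) (p (nat_lit 0x160004) (nat_lit 0) (p (nat_lit 0x50612) (nat_lit 0) (p (nat_lit 0x40592) (nat_lit 0) (p (nat_lit 0x40492) (nat_lit 0) (p (nat_lit 0x30412) (nat_lit 0) (p (nat_lit 0x30212) (nat_lit 0)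 (p (nat_lit 0x20192) (nat_lit 0) (p (nat_lit 0x20092) (nat_lit 0) (p (nat_lit 0x10012) (nat_lit 0) pn)))))))))))))))))))))))))))) :=
  Cl.node (nat_lit 0x200014) (nat_lit 2) (by decide +kernel) (ClAll.succ (ClAll.succ ClAll.zero n20) s117)

def n38 : Cl (O (nat_lit 6)) (R (nat_lit 104465))
    (p (nat_lit 0x200014) (nat_lit 0) (p (nat_lit 0x20000c) (nat_lit 0) (p (nat_lit 0x89) (nat_lit 1) (p (nat_lit 0x101) (nat_lit 1) (p (nat_lit 0xc1) (nat_lit 1) (p (nat_lit 0x119) (nat_lit 1) (p (nat_lit 0xd1) (nat_lit 0) (p (nat_lit 0x81) (nat_lit 0) (p (nat_lit 0x41) (nat_lit 1) (p (nat_lit 0x10a098b090a9a) (nat_lit 0) (p (nat_lit 0x89890a888a1a) (nat_lit 0) (p (nat_lit 0x109088a08079a) (nat_lit 0) (p (nat_lit 0x88880987871a) (nat_lit 0) (p (nat_lit 0x8000080000000080907088a) (nat_lit 0) (p (nat_lit 0x8000080000000078886860a) (nat_lit 0) (p (nat_lit 0x10688060782) (nat_lit 0) (p (nat_lit 0x8607858702)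 (nat_lit 0) (p (nat_lit 0x10587050482) (nat_lit 0) (p (nat_lit 0x8506848402) (nat_lit 0) (p (nat_lit 0x160004) (nat_lit 0) (p (nat_lit 0x50612) (nat_lit 0) (p (nat_lit 0x40592) (nat_lit 0) (p (nat_lit 0x40492) (nat_lit 0) (p (nat_lit 0x30412) (nat_lit 0) (p (nat_lit 0x30212) (nat_lit 0) (p (nat_lit 0x20192) (nat_lit 0) (p (nat_lit 0x20092) (nat_lit 0) (p (nat_lit 0x10012) (nat_lit 0) pn)))))))))))))))))))))))))))) :=
  Cl.node (nat_lit 0xb0004) (nat_lit 2) (by decide +kernel) (ClAll.succ (ClAll.succ ClAll.zero s120) s121)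

def n39 : Cl (O (nat_lit 6)) (R (nat_lit 104465))
    (p (nat_lit 0x20000c) (nat_lit 0) (p (nat_lit 0xc9) (nat_lit 0) (p (nat_lit 0x89) (nat_lit 1) (p (nat_lit 0x109) (nat_lit 1) (p (nat_lit 0x101) (nat_lit 0) (p (nat_lit 0x111) (nat_lit 0) (p (nat_lit 0xd1) (nat_lit 1) (p (nat_lit 0x81) (nat_lit 0) (p (nat_lit 0x41) (nat_lit 1) (p (nat_lit 0x10a098b090a9a) (nat_lit 0) (p (nat_lit 0x89890a888a1a) (nat_lit 0) (p (nat_lit 0x109088a08079a) (nat_lit 0) (p (nat_lit 0x88880987871a) (nat_lit 0) (p (nat_lit 0x8000080000000080907088a) (nat_lit 0) (p (nat_lit 0x8000080000000078886860a) (nat_lit 0) (p (nat_lit 0x10688060782) (nat_lit 0) (p (nat_lit 0x8607858702) (nat_lit 0) (p (nat_lit 0x10587050482) (nat_lit 0) (p (nat_lit 0x8506848402) (nat_lit 0) (p (nat_lit 0x160004) (nat_lit 0) (p (nat_lit 0x50612) (nat_lit 0) (p (nat_lit 0x40592) (nat_lit 0) (p (nat_lit 0x40492) (nat_lit 0) (p (nat_lit 0x30412)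 (nat_lit 0) (p (nat_lit 0x30212) (nat_lit 0) (p (nat_lit 0x20192) (nat_lit 0) (p (nat_lit 0x20092) (nat_lit 0) (p (nat_lit 0x10012) (nat_lit 0) pn)))))))))))))))))))))))))))) :=
  Cl.node (nat_lit 0x200014) (nat_lit 2) (by decide +kernel) (ClAll.succ (ClAll.succ ClAll.zero n21) s128)

def n40 : Cl (O (nat_lit 6)) (R (nat_lit 104465))
    (p (nat_lit 0x200014) (nat_lit 0) (p (nat_lit 0x20000c) (nat_lit 0) (p (nat_lit 0xc9) (nat_lit 0) (p (nat_lit 0x89) (nat_lit 1) (p (nat_lit 0x101) (nat_lit 1) (p (nat_lit 0x111) (nat_lit 0) (p (nat_lit 0xd1) (nat_lit 1) (p (nat_lit 0x81) (nat_lit 0) (p (nat_lit 0x41) (nat_lit 1) (p (nat_lit 0x10a098b090a9a) (nat_lit 0) (p (nat_lit 0x89890a888a1a) (nat_lit 0) (p (nat_lit 0x109088a08079a) (nat_lit 0) (p (nat_lit 0x88880987871a) (nat_lit 0) (p (nat_lit 0x8000080000000080907088a) (nat_lit 0) (p (nat_lit 0x8000080000000078886860a) (nat_lit 0) (p (nat_lit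 0x10688060782) (nat_lit 0) (p (nat_lit 0x8607858702) (nat_lit 0) (p (nat_lit 0x10587050482) (nat_lit 0) (p (nat_lit 0x8506848402) (nat_lit 0) (p (nat_lit 0x160004) (nat_lit 0) (p (nat_lit 0x50612) (nat_lit 0) (p (nat_lit 0x40592) (nat_lit 0) (p (nat_lit 0x40492) (nat_lit 0) (p (nat_lit 0x30412) (nat_lit 0) (p (nat_lit 0x30212) (nat_lit 0) (p (nat_lit 0x20192) (nat_lit 0) (p (nat_lit 0x20092) (nat_lit 0) (p (nat_lit 0x10012) (nat_lit 0) pn)))))))))))))))))))))))))))) :=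
  Cl.node (nat_lit 0xb0004) (nat_lit 2) (by decide +kernel) (ClAll.succ (ClAll.succ ClAll.zero s135) s136)

def n41 : Cl (O (nat_lit 6)) (R (nat_lit 104465))
    (p (nat_lit 0x200014) (nat_lit 0) (p (nat_lit 0x20000c) (nat_lit 0) (p (nat_lit 0xd1) (nat_lit 1) (p (nat_lit 0xc9) (nat_lit 0) (p (nat_lit 0x101) (nat_lit 1) (p (nat_lit 0x119) (nat_lit 0) (p (nat_lit 0xc1) (nat_lit 0) (p (nat_lit 0x81) (nat_lit 1) (p (nat_lit 0x41) (nat_lit 1) (p (nat_lit 0x10a098b090a9a) (nat_lit 0) (p (nat_lit 0x89890a888a1a) (nat_lit 0) (p (nat_lit 0x109088a08079a) (nat_lit 0) (p (nat_lit 0x88880987871a) (nat_lit 0) (p (nat_lit 0x8000080000000080907088a) (nat_lit 0) (p (nat_lit 0x8000080000000078886860a) (nat_lit 0) (p (nat_lit 0x10688060782) (nat_lit 0) (p (nat_lit 0x8607858702) (nat_lit 0) (p (nat_lit 0x10587050482) (nat_lit 0) (p (nat_lit 0x8506848402) (nat_lit 0) (p (nat_lit 0x160004) (nat_lit 0) (p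 (nat_lit 0x50612) (nat_lit 0) (p (nat_lit 0x40592) (nat_lit 0) (p (nat_lit 0x40492) (nat_lit 0) (p (nat_lit 0x30412) (nat_lit 0) (p (nat_lit 0x30212) (nat_lit 0) (p (nat_lit 0x20192) (nat_lit 0) (p (nat_lit 0x20092) (nat_lit 0) (p (nat_lit 0x10012) (nat_lit 0) pn)))))))))))))))))))))))))))) :=
  Cl.node (nat_lit 0xb0004) (nat_lit 2) (by decide +kernel) (ClAll.succ (ClAll.succ ClAll.zero s149) s150)

def n42 : Cl (O (nat_lit 6)) (R (nat_lit 104465))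
    (p (nat_lit 0x200014) (nat_lit 0) (p (nat_lit 0x20000c) (nat_lit 0) (p (nat_lit 0x111) (nat_lit 1) (p (nat_lit 0x109) (nat_lit 0) (p (nat_lit 0xc9) (nat_lit 1) (p (nat_lit 0x119) (nat_lit 1) (p (nat_lit 0xc1) (nat_lit 0) (p (nat_lit 0x81) (nat_lit 1) (p (nat_lit 0x41) (nat_lit 1) (p (nat_lit 0x10a098b090a9a) (nat_lit 0) (p (nat_lit 0x89890a888a1a) (nat_lit 0) (p (nat_lit 0x109088a08079a) (nat_lit 0) (p (nat_lit 0x88880987871a) (nat_lit 0) (p (nat_lit 0x8000080000000080907088a) (nat_lit 0) (p (nat_lit 0x8000080000000078886860a) (nat_lit 0) (p (nat_lit 0x10688060782) (nat_lit 0) (p (nat_lit 0x8607858702) (nat_lit 0) (p (nat_lit 0x10587050482) (nat_lit 0) (p (nat_lit 0x8506848402) (nat_lit 0) (p (nat_lit 0x160004) (nat_lit 0) (p (nat_lit 0x50612) (nat_lit 0) (p (nat_lit 0x40592) (nat_lit 0) (p (nat_lit 0x40492) (nat_lit 0) (p (nat_lit 0x30412) (nat_lit 0) (p (nat_lit 0x30212) (nat_lit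 0) (p (nat_lit 0x20192) (nat_lit 0) (p (nat_lit 0x20092) (nat_lit 0) (p (nat_lit 0x10012) (nat_lit 0) pn)))))))))))))))))))))))))))) :=
  Cl.node (nat_lit 0xb0004) (nat_lit 2) (by decide +kernel) (ClAll.succ (ClAll.succ ClAll.zero s156) s157)

def n43 : Cl (O (nat_lit 6)) (R (nat_lit 104465))
    (p (nat_lit 0x20000c) (nat_lit 0) (p (nat_lit 0xc9) (nat_lit 1) (p (nat_lit 0x109) (nat_lit 1) (p (nat_lit 0x101) (nat_lit 0) (p (nat_lit 0x119) (nat_lit 0) (p (nat_lit 0xd1) (nat_lit 0) (p (nat_lit 0x89) (nat_lit 0) (p (nat_lit 0x41) (nat_lit 0) (p (nat_lit 0x10a098b090a9a) (nat_lit 0) (p (nat_lit 0x89890a888a1a) (nat_lit 0) (p (nat_lit 0x109088a08079a) (nat_lit 0) (p (nat_lit 0x88880987871a) (nat_lit 0) (p (nat_lit 0x8000080000000080907088a) (nat_lit 0) (p (nat_lit 0x8000080000000078886860a) (nat_lit 0) (p (nat_lit 0x10688060782) (nat_lit 0) (p (nat_lit 0x8607858702) (nat_lit 0) (p (nat_lit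 0x10587050482) (nat_lit 0) (p (nat_lit 0x8506848402) (nat_lit 0) (p (nat_lit 0x160004) (nat_lit 0) (p (nat_lit 0x50612) (nat_lit 0) (p (nat_lit 0x40592) (nat_lit 0) (p (nat_lit 0x40492) (nat_lit 0) (p (nat_lit 0x30412) (nat_lit 0) (p (nat_lit 0x30212) (nat_lit 0) (p (nat_lit 0x20192) (nat_lit 0) (p (nat_lit 0x20092) (nat_lit 0) (p (nat_lit 0x10012) (nat_lit 0) pn))))))))))))))))))))))))))) :=
  Cl.node (nat_lit 0x200014) (nat_lit 2) (by decide +kernel) (ClAll.succ (ClAll.succ ClAll.zero s2) s3)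

def n44 : Cl (O (nat_lit 6)) (R (nat_lit 104465))
    (p (nat_lit 0x20000c) (nat_lit 0) (p (nat_lit 0xc9) (nat_lit 1) (p (nat_lit 0x81) (nat_lit 0) (p (nat_lit 0x101) (nat_lit 1) (p (nat_lit 0x119) (nat_lit 0) (p (nat_lit 0xd1) (nat_lit 0) (p (nat_lit 0x89) (nat_lit 0) (p (nat_lit 0x41) (nat_lit 0) (p (nat_lit 0x10a098b090a9a) (nat_lit 0) (p (nat_lit 0x89890a888a1a) (nat_lit 0) (p (nat_lit 0x109088a08079a) (nat_lit 0) (p (nat_lit 0x88880987871a) (nat_lit 0) (p (nat_lit 0x8000080000000080907088a) (nat_lit 0) (p (nat_lit 0x8000080000000078886860a) (nat_lit 0) (p (nat_lit 0x10688060782) (nat_lit 0) (p (nat_lit 0x8607858702) (nat_lit 0) (p (nat_lit 0x10587050482) (nat_lit 0) (p (nat_lit 0x8506848402) (nat_lit 0) (p (nat_lit 0x160004) (nat_lit 0) (p (nat_lit 0x50612) (nat_lit 0) (p (nat_lit 0x40592) (nat_lit 0) (p (nat_lit 0x40492) (nat_lit 0) (p (nat_lit 0x30412) (nat_lit 0) (p (nat_lit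 0x30212) (nat_lit 0) (p (nat_lit 0x20192) (nat_lit 0) (p (nat_lit 0x20092) (nat_lit 0) (p (nat_lit 0x10012) (nat_lit 0) pn))))))))))))))))))))))))))) :=
  Cl.node (nat_lit 0x200014) (nat_lit 2) (by decide +kernel) (ClAll.succ (ClAll.succ ClAll.zero n22) s9)

def n45 : Cl (O (nat_lit 6)) (R (nat_lit 104465))
    (p (nat_lit 0xc9) (nat_lit 1) (p (nat_lit 0xc1) (nat_lit 0) (p (nat_lit 0x81) (nat_lit 1) (p (nat_lit 0x101) (nat_lit 1) (p (nat_lit 0x119) (nat_lit 0) (p (nat_lit 0xd1) (nat_lit 0) (p (nat_lit 0x89) (nat_lit 0) (p (nat_lit 0x41) (nat_lit 0) (p (nat_lit 0x10a098b090a9a) (nat_lit 0) (p (nat_lit 0x89890a888a1a) (nat_lit 0) (p (nat_lit 0x109088a08079a) (nat_lit 0) (p (nat_lit 0x88880987871a) (nat_lit 0) (p (nat_lit 0x8000080000000080907088a) (nat_lit 0) (p (nat_lit 0x8000080000000078886860a) (nat_lit 0) (p (nat_lit 0x10688060782) (nat_lit 0) (p (nat_lit 0x8607858702) (nat_lit 0)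 (p (nat_lit 0x10587050482) (nat_lit 0) (p (nat_lit 0x8506848402) (nat_lit 0) (p (nat_lit 0x160004) (nat_lit 0) (p (nat_lit 0x50612) (nat_lit 0) (p (nat_lit 0x40592) (nat_lit 0) (p (nat_lit 0x40492) (nat_lit 0) (p (nat_lit 0x30412) (nat_lit 0) (p (nat_lit 0x30212) (nat_lit 0) (p (nat_lit 0x20192) (nat_lit 0) (p (nat_lit 0x20092) (nat_lit 0) (p (nat_lit 0x10012) (nat_lit 0) pn))))))))))))))))))))))))))) :=
  Cl.node (nat_lit 0x20000c) (nat_lit 2) (by decide +kernel) (ClAll.succ (ClAll.succ ClAll.zero n23) s15)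

def n46 : Cl (O (nat_lit 6)) (R (nat_lit 104465))
    (p (nat_lit 0x109) (nat_lit 0) (p (nat_lit 0x101) (nat_lit 0) (p (nat_lit 0x81) (nat_lit 1) (p (nat_lit 0xc1) (nat_lit 1) (p (nat_lit 0x119) (nat_lit 1) (p (nat_lit 0xd1) (nat_lit 0) (p (nat_lit 0x89) (nat_lit 0) (p (nat_lit 0x41) (nat_lit 0) (p (nat_lit 0x10a098b090a9a) (nat_lit 0) (p (nat_lit 0x89890a888a1a) (nat_lit 0) (p (nat_lit 0x109088a08079a) (nat_lit 0) (p (nat_lit 0x88880987871a) (nat_lit 0) (p (nat_lit 0x8000080000000080907088a) (nat_lit 0) (p (nat_lit 0x8000080000000078886860a) (nat_lit 0) (p (nat_lit 0x10688060782) (nat_lit 0) (p (nat_lit 0x8607858702) (nat_lit 0) (p (nat_lit 0x10587050482) (nat_lit 0) (p (nat_lit 0x8506848402) (nat_lit 0) (p (nat_lit 0x160004) (nat_lit 0) (p (nat_lit 0x50612) (nat_lit 0) (p (nat_lit 0x40592) (nat_lit 0) (p (nat_lit 0x40492) (nat_lit 0) (p (nat_lit 0x30412) (nat_lit 0) (p (nat_lit 0x30212)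 (nat_lit 0) (p (nat_lit 0x20192) (nat_lit 0) (p (nat_lit 0x20092) (nat_lit 0) (p (nat_lit 0x10012) (nat_lit 0) pn))))))))))))))))))))))))))) :=
  Cl.node (nat_lit 0x20000c) (nat_lit 2) (by decide +kernel) (ClAll.succ (ClAll.succ ClAll.zero n24) s21)

def n47 : Cl (O (nat_lit 6)) (R (nat_lit 104465))
    (p (nat_lit 0x109) (nat_lit 1) (p (nat_lit 0x101) (nat_lit 0) (p (nat_lit 0x81) (nat_lit 1) (p (nat_lit 0xc1) (nat_lit 1) (p (nat_lit 0x119) (nat_lit 1) (p (nat_lit 0xd1) (nat_lit 0) (p (nat_lit 0x89) (nat_lit 0) (p (nat_lit 0x41) (nat_lit 0) (p (nat_lit 0x10a098b090a9a) (nat_lit 0) (p (nat_lit 0x89890a888a1a) (nat_lit 0) (p (nat_lit 0x109088a08079a) (nat_lit 0) (p (nat_lit 0x88880987871a) (nat_lit 0) (p (nat_lit 0x8000080000000080907088a) (nat_lit 0) (p (nat_lit 0x8000080000000078886860a) (nat_lit 0) (p (nat_lit 0x10688060782) (nat_lit 0) (p (nat_lit 0x8607858702) (nat_lit 0) (p (nat_lit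 0x10587050482) (nat_lit 0) (p (nat_lit 0x8506848402) (nat_lit 0) (p (nat_lit 0x160004) (nat_lit 0) (p (nat_lit 0x50612) (nat_lit 0) (p (nat_lit 0x40592) (nat_lit 0) (p (nat_lit 0x40492) (nat_lit 0) (p (nat_lit 0x30412) (nat_lit 0) (p (nat_lit 0x30212) (nat_lit 0) (p (nat_lit 0x20192) (nat_lit 0) (p (nat_lit 0x20092) (nat_lit 0) (p (nat_lit 0x10012) (nat_lit 0) pn))))))))))))))))))))))))))) :=
  Cl.node (nat_lit 0x20000c) (nat_lit 2) (by decide +kernel) (ClAll.succ (ClAll.succ ClAll.zero n25) s25)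

def n48 : Cl (O (nat_lit 6)) (R (nat_lit 104465))
    (p (nat_lit 0x200014) (nat_lit 0) (p (nat_lit 0x20000c) (nat_lit 0) (p (nat_lit 0x109) (nat_lit 1) (p (nat_lit 0x101) (nat_lit 0) (p (nat_lit 0x111) (nat_lit 0) (p (nat_lit 0xd1) (nat_lit 1) (p (nat_lit 0x89) (nat_lit 0) (p (nat_lit 0x41) (nat_lit 0) (p (nat_lit 0x10a098b090a9a) (nat_lit 0) (p (nat_lit 0x89890a888a1a) (nat_lit 0) (p (nat_lit 0x109088a08079a) (nat_lit 0) (p (nat_lit 0x88880987871a) (nat_lit 0) (p (nat_lit 0x8000080000000080907088a) (nat_lit 0) (p (nat_lit 0x8000080000000078886860a) (nat_lit 0) (p (nat_lit 0x10688060782) (nat_lit 0) (p (nat_lit 0x8607858702) (nat_lit 0) (p (nat_lit 0x10587050482) (nat_lit 0) (p (nat_lit 0x8506848402) (nat_lit 0) (p (nat_lit 0x160004) (nat_lit 0) (p (nat_lit 0x50612) (nat_lit 0) (p (nat_lit 0x40592) (nat_lit 0) (p (nat_lit 0x40492) (nat_lit 0) (p (nat_lit 0x30412) (nat_lit 0) (p (nat_lit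 0x30212) (nat_lit 0) (p (nat_lit 0x20192) (nat_lit 0) (p (nat_lit 0x20092) (nat_lit 0) (p (nat_lit 0x10012) (nat_lit 0) pn))))))))))))))))))))))))))) :=
  Cl.node (nat_lit 0xc1) (nat_lit 2) (by decide +kernel) (ClAll.succ (ClAll.succ ClAll.zero s28) s29)

def n49 : Cl (O (nat_lit 6)) (R (nat_lit 104465))
    (p (nat_lit 0x20000c) (nat_lit 0) (p (nat_lit 0xc1) (nat_lit 0) (p (nat_lit 0x81) (nat_lit 1) (p (nat_lit 0x101) (nat_lit 1) (p (nat_lit 0x111) (nat_lit 0) (p (nat_lit 0xd1) (nat_lit 1) (p (nat_lit 0x89) (nat_lit 0) (p (nat_lit 0x41) (nat_lit 0) (p (nat_lit 0x10a098b090a9a) (nat_lit 0) (p (nat_lit 0x89890a888a1a) (nat_lit 0) (p (nat_lit 0x109088a08079a) (nat_lit 0) (p (nat_lit 0x88880987871a) (nat_lit 0) (p (nat_lit 0x8000080000000080907088a) (nat_lit 0) (p (nat_lit 0x8000080000000078886860a) (nat_lit 0) (p (nat_lit 0x10688060782) (nat_lit 0) (p (nat_lit 0x8607858702) (nat_lit 0)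 (p (nat_lit 0x10587050482) (nat_lit 0) (p (nat_lit 0x8506848402) (nat_lit 0) (p (nat_lit 0x160004) (nat_lit 0) (p (nat_lit 0x50612) (nat_lit 0) (p (nat_lit 0x40592) (nat_lit 0) (p (nat_lit 0x40492) (nat_lit 0) (p (nat_lit 0x30412) (nat_lit 0) (p (nat_lit 0x30212) (nat_lit 0) (p (nat_lit 0x20192) (nat_lit 0) (p (nat_lit 0x20092) (nat_lit 0) (p (nat_lit 0x10012) (nat_lit 0) pn))))))))))))))))))))))))))) :=
  Cl.node (nat_lit 0x200014) (nat_lit 2) (by decide +kernel) (ClAll.succ (ClAll.succ ClAll.zero n26) s39)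

def n50 : Cl (O (nat_lit 6)) (R (nat_lit 104465))
    (p (nat_lit 0x20000c) (nat_lit 0) (p (nat_lit 0xd1) (nat_lit 0) (p (nat_lit 0x109) (nat_lit 1) (p (nat_lit 0x101) (nat_lit 0) (p (nat_lit 0x119) (nat_lit 0) (p (nat_lit 0xc9) (nat_lit 0) (p (nat_lit 0x89) (nat_lit 1) (p (nat_lit 0x41) (nat_lit 0) (p (nat_lit 0x10a098b090a9a) (nat_lit 0) (p (nat_lit 0x89890a888a1a) (nat_lit 0) (p (nat_lit 0x109088a08079a) (nat_lit 0) (p (nat_lit 0x88880987871a) (nat_lit 0) (p (nat_lit 0x8000080000000080907088a) (nat_lit 0) (p (nat_lit 0x8000080000000078886860a) (nat_lit 0) (p (nat_lit 0x10688060782) (nat_lit 0) (p (nat_lit 0x8607858702) (nat_lit 0) (p (nat_lit 0x10587050482) (nat_lit 0) (p (nat_lit 0x8506848402) (nat_lit 0) (p (nat_lit 0x160004) (nat_lit 0) (p (nat_lit 0x50612) (nat_lit 0) (p (nat_lit 0x40592) (nat_lit 0) (p (nat_lit 0x40492) (nat_lit 0) (p (nat_lit 0x30412) (nat_lit 0) (p (nat_lit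 0x30212) (nat_lit 0) (p (nat_lit 0x20192) (nat_lit 0) (p (nat_lit 0x20092) (nat_lit 0) (p (nat_lit 0x10012) (nat_lit 0) pn))))))))))))))))))))))))))) :=
  Cl.node (nat_lit 0x200014) (nat_lit 2) (by decide +kernel) (ClAll.succ (ClAll.succ ClAll.zero n27) s50)

def n51 : Cl (O (nat_lit 6)) (R (nat_lit 104465))
    (p (nat_lit 0x20000c) (nat_lit 0) (p (nat_lit 0xd1) (nat_lit 1) (p (nat_lit 0x109) (nat_lit 1) (p (nat_lit 0x101) (nat_lit 0) (p (nat_lit 0x119) (nat_lit 0) (p (nat_lit 0xc9) (nat_lit 0) (p (nat_lit 0x89) (nat_lit 1) (p (nat_lit 0x41) (nat_lit 0) (p (nat_lit 0x10a098b090a9a) (nat_lit 0) (p (nat_lit 0x89890a888a1a) (nat_lit 0) (p (nat_lit 0x109088a08079a) (nat_lit 0) (p (nat_lit 0x88880987871a) (nat_lit 0) (p (nat_lit 0x8000080000000080907088a) (nat_lit 0) (p (nat_lit 0x8000080000000078886860a) (nat_lit 0) (p (nat_lit 0x10688060782) (nat_lit 0) (p (nat_lit 0x8607858702) (nat_lit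 0) (p (nat_lit 0x10587050482) (nat_lit 0) (p (nat_lit 0x8506848402) (nat_lit 0) (p (nat_lit 0x160004) (nat_lit 0) (p (nat_lit 0x50612) (nat_lit 0) (p (nat_lit 0x40592) (nat_lit 0) (p (nat_lit 0x40492) (nat_lit 0) (p (nat_lit 0x30412) (nat_lit 0) (p (nat_lit 0x30212) (nat_lit 0) (p (nat_lit 0x20192) (nat_lit 0) (p (nat_lit 0x20092) (nat_lit 0) (p (nat_lit 0x10012) (nat_lit 0) pn))))))))))))))))))))))))))) :=
  Cl.node (nat_lit 0x200014) (nat_lit 2) (by decide +kernel) (ClAll.succ (ClAll.succ ClAll.zero n28) s56)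

def n52 : Cl (O (nat_lit 6)) (R (nat_lit 104465))
    (p (nat_lit 0x20000c) (nat_lit 0) (p (nat_lit 0xd1) (nat_lit 0) (p (nat_lit 0xc1) (nat_lit 0) (p (nat_lit 0x101) (nat_lit 1) (p (nat_lit 0x119) (nat_lit 0) (p (nat_lit 0xc9) (nat_lit 0) (p (nat_lit 0x89) (nat_lit 1) (p (nat_lit 0x41) (nat_lit 0) (p (nat_lit 0x10a098b090a9a) (nat_lit 0) (p (nat_lit 0x89890a888a1a) (nat_lit 0) (p (nat_lit 0x109088a08079a) (nat_lit 0) (p (nat_lit 0x88880987871a) (nat_lit 0) (p (nat_lit 0x8000080000000080907088a) (nat_lit 0) (p (nat_lit 0x8000080000000078886860a) (nat_lit 0) (p (nat_lit 0x10688060782) (nat_lit 0) (p (nat_lit 0x8607858702) (nat_lit 0) (p (nat_lit 0x10587050482) (nat_lit 0) (p (nat_lit 0x8506848402) (nat_lit 0) (p (nat_lit 0x160004) (nat_lit 0) (p (nat_lit 0x50612) (nat_lit 0) (p (nat_lit 0x40592) (nat_lit 0) (p (nat_lit 0x40492) (nat_lit 0) (p (nat_lit 0x30412) (nat_lit 0) (p (nat_lit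 0x30212) (nat_lit 0) (p (nat_lit 0x20192) (nat_lit 0) (p (nat_lit 0x20092) (nat_lit 0) (p (nat_lit 0x10012) (nat_lit 0) pn))))))))))))))))))))))))))) :=
  Cl.node (nat_lit 0x200014) (nat_lit 2) (by decide +kernel) (ClAll.succ (ClAll.succ ClAll.zero n29) s60)

def n53 : Cl (O (nat_lit 6)) (R (nat_lit 104465))
    (p (nat_lit 0x20000c) (nat_lit 0) (p (nat_lit 0xd1) (nat_lit 1) (p (nat_lit 0xc1) (nat_lit 0) (p (nat_lit 0x101) (nat_lit 1) (p (nat_lit 0x119) (nat_lit 0) (p (nat_lit 0xc9) (nat_lit 0) (p (nat_lit 0x89) (nat_lit 1) (p (nat_lit 0x41) (nat_lit 0) (p (nat_lit 0x10a098b090a9a) (nat_lit 0) (p (nat_lit 0x89890a888a1a) (nat_lit 0) (p (nat_lit 0x109088a08079a) (nat_lit 0) (p (nat_lit 0x88880987871a) (nat_lit 0) (p (nat_lit 0x8000080000000080907088a) (nat_lit 0) (p (nat_lit 0x8000080000000078886860a) (nat_lit 0) (p (nat_lit 0x10688060782) (nat_lit 0) (p (nat_lit 0x8607858702) (nat_lit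 0) (p (nat_lit 0x10587050482) (nat_lit 0) (p (nat_lit 0x8506848402) (nat_lit 0) (p (nat_lit 0x160004) (nat_lit 0) (p (nat_lit 0x50612) (nat_lit 0) (p (nat_lit 0x40592) (nat_lit 0) (p (nat_lit 0x40492) (nat_lit 0) (p (nat_lit 0x30412) (nat_lit 0) (p (nat_lit 0x30212) (nat_lit 0) (p (nat_lit 0x20192) (nat_lit 0) (p (nat_lit 0x20092) (nat_lit 0) (p (nat_lit 0x10012) (nat_lit 0) pn))))))))))))))))))))))))))) :=
  Cl.node (nat_lit 0x200014) (nat_lit 2) (by decide +kernel) (ClAll.succ (ClAll.succ ClAll.zero n30) s66)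

def n54 : Cl (O (nat_lit 6)) (R (nat_lit 104465))
    (p (nat_lit 0x20000c) (nat_lit 0) (p (nat_lit 0x111) (nat_lit 1) (p (nat_lit 0xd1) (nat_lit 1) (p (nat_lit 0xc1) (nat_lit 0) (p (nat_lit 0x119) (nat_lit 1) (p (nat_lit 0xc9) (nat_lit 0) (p (nat_lit 0x89) (nat_lit 1) (p (nat_lit 0x41) (nat_lit 0) (p (nat_lit 0x10a098b090a9a) (nat_lit 0) (p (nat_lit 0x89890a888a1a) (nat_lit 0) (p (nat_lit 0x109088a08079a) (nat_lit 0) (p (nat_lit 0x88880987871a) (nat_lit 0) (p (nat_lit 0x8000080000000080907088a) (nat_lit 0) (p (nat_lit 0x8000080000000078886860a) (nat_lit 0) (p (nat_lit 0x10688060782) (nat_lit 0) (p (nat_lit 0x8607858702) (nat_lit 0) (p (nat_lit 0x10587050482) (nat_lit 0) (p (nat_lit 0x8506848402) (nat_lit 0) (p (nat_lit 0x160004) (nat_lit 0) (p (nat_lit 0x50612) (nat_lit 0) (p (nat_lit 0x40592) (nat_lit 0) (p (nat_lit 0x40492) (nat_lit 0) (p (nat_lit 0x30412) (nat_lit 0) (p (nat_lit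 0x30212) (nat_lit 0) (p (nat_lit 0x20192) (nat_lit 0) (p (nat_lit 0x20092) (nat_lit 0) (p (nat_lit 0x10012) (nat_lit 0) pn))))))))))))))))))))))))))) :=
  Cl.node (nat_lit 0x200014) (nat_lit 2) (by decide +kernel) (ClAll.succ (ClAll.succ ClAll.zero s71) s72)

def n55 : Cl (O (nat_lit 6)) (R (nat_lit 104465))
    (p (nat_lit 0x20000c) (nat_lit 0) (p (nat_lit 0x111) (nat_lit 0) (p (nat_lit 0x101) (nat_lit 0) (p (nat_lit 0xc1) (nat_lit 1) (p (nat_lit 0x119) (nat_lit 1) (p (nat_lit 0xc9) (nat_lit 0) (p (nat_lit 0x89) (nat_lit 1) (p (nat_lit 0x41) (nat_lit 0) (p (nat_lit 0x10a098b090a9a) (nat_lit 0) (p (nat_lit 0x89890a888a1a) (nat_lit 0) (p (nat_lit 0x109088a08079a) (nat_lit 0) (p (nat_lit 0x88880987871a) (nat_lit 0) (p (nat_lit 0x8000080000000080907088a) (nat_lit 0) (p (nat_lit 0x8000080000000078886860a) (nat_lit 0) (p (nat_lit 0x10688060782) (nat_lit 0) (p (nat_lit 0x8607858702) (nat_lit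 0) (p (nat_lit 0x10587050482) (nat_lit 0) (p (nat_lit 0x8506848402) (nat_lit 0) (p (nat_lit 0x160004) (nat_lit 0) (p (nat_lit 0x50612) (nat_lit 0) (p (nat_lit 0x40592) (nat_lit 0) (p (nat_lit 0x40492) (nat_lit 0) (p (nat_lit 0x30412) (nat_lit 0) (p (nat_lit 0x30212) (nat_lit 0) (p (nat_lit 0x20192) (nat_lit 0) (p (nat_lit 0x20092) (nat_lit 0) (p (nat_lit 0x10012) (nat_lit 0) pn))))))))))))))))))))))))))) :=
  Cl.node (nat_lit 0x200014) (nat_lit 2) (by decide +kernel) (ClAll.succ (ClAll.succ ClAll.zero n31) s76)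

def n56 : Cl (O (nat_lit 6)) (R (nat_lit 104465))
    (p (nat_lit 0x20000c) (nat_lit 0) (p (nat_lit 0x111) (nat_lit 1) (p (nat_lit 0x101) (nat_lit 0) (p (nat_lit 0xc1) (nat_lit 1) (p (nat_lit 0x119) (nat_lit 1) (p (nat_lit 0xc9) (nat_lit 0) (p (nat_lit 0x89) (nat_lit 1) (p (nat_lit 0x41) (nat_lit 0) (p (nat_lit 0x10a098b090a9a) (nat_lit 0) (p (nat_lit 0x89890a888a1a) (nat_lit 0) (p (nat_lit 0x109088a08079a) (nat_lit 0) (p (nat_lit 0x88880987871a) (nat_lit 0) (p (nat_lit 0x8000080000000080907088a) (nat_lit 0) (p (nat_lit 0x8000080000000078886860a) (nat_lit 0) (p (nat_lit 0x10688060782) (nat_lit 0) (p (nat_lit 0x8607858702) (nat_lit 0) (p (nat_lit 0x10587050482) (nat_lit 0) (p (nat_lit 0x8506848402) (nat_lit 0) (p (nat_lit 0x160004) (nat_lit 0) (p (nat_lit 0x50612) (nat_lit 0) (p (nat_lit 0x40592) (nat_lit 0) (p (nat_lit 0x40492) (nat_lit 0) (p (nat_lit 0x30412) (nat_lit 0) (p (nat_lit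 0x30212) (nat_lit 0) (p (nat_lit 0x20192) (nat_lit 0) (p (nat_lit 0x20092) (nat_lit 0) (p (nat_lit 0x10012) (nat_lit 0) pn))))))))))))))))))))))))))) :=
  Cl.node (nat_lit 0x200014) (nat_lit 2) (by decide +kernel) (ClAll.succ (ClAll.succ ClAll.zero n32) s80)

def n57 : Cl (O (nat_lit 6)) (R (nat_lit 104465))
    (p (nat_lit 0x20000c) (nat_lit 0) (p (nat_lit 0x89) (nat_lit 0) (p (nat_lit 0x109) (nat_lit 1) (p (nat_lit 0x101) (nat_lit 0) (p (nat_lit 0x119) (nat_lit 0) (p (nat_lit 0xd1) (nat_lit 0) (p (nat_lit 0x81) (nat_lit 0) (p (nat_lit 0x41) (nat_lit 1) (p (nat_lit 0x10a098b090a9a) (nat_lit 0) (p (nat_lit 0x89890a888a1a) (nat_lit 0) (p (nat_lit 0x109088a08079a) (nat_lit 0) (p (nat_lit 0x88880987871a) (nat_lit 0) (p (nat_lit 0x8000080000000080907088a) (nat_lit 0) (p (nat_lit 0x8000080000000078886860a) (nat_lit 0) (p (nat_lit 0x10688060782) (nat_lit 0) (p (nat_lit 0x8607858702) (nat_lit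 0) (p (nat_lit 0x10587050482) (nat_lit 0) (p (nat_lit 0x8506848402) (nat_lit 0) (p (nat_lit 0x160004) (nat_lit 0) (p (nat_lit 0x50612) (nat_lit 0) (p (nat_lit 0x40592) (nat_lit 0) (p (nat_lit 0x40492) (nat_lit 0) (p (nat_lit 0x30412) (nat_lit 0) (p (nat_lit 0x30212) (nat_lit 0) (p (nat_lit 0x20192) (nat_lit 0) (p (nat_lit 0x20092) (nat_lit 0) (p (nat_lit 0x10012) (nat_lit 0) pn))))))))))))))))))))))))))) :=
  Cl.node (nat_lit 0x200014) (nat_lit 2) (by decide +kernel) (ClAll.succ (ClAll.succ ClAll.zero n33) s90)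

def n58 : Cl (O (nat_lit 6)) (R (nat_lit 104465))
    (p (nat_lit 0xc9) (nat_lit 0) (p (nat_lit 0x89) (nat_lit 1) (p (nat_lit 0xc1) (nat_lit 0) (p (nat_lit 0x101) (nat_lit 1) (p (nat_lit 0x119) (nat_lit 0) (p (nat_lit 0xd1) (nat_lit 0) (p (nat_lit 0x81) (nat_lit 0) (p (nat_lit 0x41) (nat_lit 1) (p (nat_lit 0x10a098b090a9a) (nat_lit 0) (p (nat_lit 0x89890a888a1a) (nat_lit 0) (p (nat_lit 0x109088a08079a) (nat_lit 0) (p (nat_lit 0x88880987871a) (nat_lit 0) (p (nat_lit 0x8000080000000080907088a) (nat_lit 0) (p (nat_lit 0x8000080000000078886860a) (nat_lit 0) (p (nat_lit 0x10688060782) (nat_lit 0) (p (nat_lit 0x8607858702) (nat_lit 0) (p (nat_lit 0x10587050482) (nat_lit 0) (p (nat_lit 0x8506848402) (nat_lit 0) (p (nat_lit 0x160004) (nat_lit 0) (p (nat_lit 0x50612) (nat_lit 0) (p (nat_lit 0x40592) (nat_lit 0) (p (nat_lit 0x40492) (nat_lit 0) (p (nat_lit 0x30412) (nat_lit 0) (p (nat_lit 0x30212)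 (nat_lit 0) (p (nat_lit 0x20192) (nat_lit 0) (p (nat_lit 0x20092) (nat_lit 0) (p (nat_lit 0x10012) (nat_lit 0) pn))))))))))))))))))))))))))) :=
  Cl.node (nat_lit 0x20000c) (nat_lit 2) (by decide +kernel) (ClAll.succ (ClAll.succ ClAll.zero n34) s97)

def n59 : Cl (O (nat_lit 6)) (R (nat_lit 104465))
    (p (nat_lit 0xc9) (nat_lit 1) (p (nat_lit 0x89) (nat_lit 1) (p (nat_lit 0xc1) (nat_lit 0) (p (nat_lit 0x101) (nat_lit 1) (p (nat_lit 0x119) (nat_lit 0) (p (nat_lit 0xd1) (nat_lit 0) (p (nat_lit 0x81) (nat_lit 0) (p (nat_lit 0x41) (nat_lit 1) (p (nat_lit 0x10a098b090a9a) (nat_lit 0) (p (nat_lit 0x89890a888a1a) (nat_lit 0) (p (nat_lit 0x109088a08079a) (nat_lit 0) (p (nat_lit 0x88880987871a) (nat_lit 0) (p (nat_lit 0x8000080000000080907088a) (nat_lit 0) (p (nat_lit 0x8000080000000078886860a) (nat_lit 0) (p (nat_lit 0x10688060782) (nat_lit 0) (p (nat_lit 0x8607858702) (nat_lit 0) (p (nat_lit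 0x10587050482) (nat_lit 0) (p (nat_lit 0x8506848402) (nat_lit 0) (p (nat_lit 0x160004) (nat_lit 0) (p (nat_lit 0x50612) (nat_lit 0) (p (nat_lit 0x40592) (nat_lit 0) (p (nat_lit 0x40492) (nat_lit 0) (p (nat_lit 0x30412) (nat_lit 0) (p (nat_lit 0x30212) (nat_lit 0) (p (nat_lit 0x20192) (nat_lit 0) (p (nat_lit 0x20092) (nat_lit 0) (p (nat_lit 0x10012) (nat_lit 0) pn))))))))))))))))))))))))))) :=
  Cl.node (nat_lit 0x20000c) (nat_lit 2) (by decide +kernel) (ClAll.succ (ClAll.succ ClAll.zero n35) s101)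

def n60 : Cl (O (nat_lit 6)) (R (nat_lit 104465))
    (p (nat_lit 0x20000c) (nat_lit 0) (p (nat_lit 0x89) (nat_lit 1) (p (nat_lit 0xc1) (nat_lit 1) (p (nat_lit 0x101) (nat_lit 1) (p (nat_lit 0x119) (nat_lit 0) (p (nat_lit 0xd1) (nat_lit 0) (p (nat_lit 0x81) (nat_lit 0) (p (nat_lit 0x41) (nat_lit 1) (p (nat_lit 0x10a098b090a9a) (nat_lit 0) (p (nat_lit 0x89890a888a1a) (nat_lit 0) (p (nat_lit 0x109088a08079a) (nat_lit 0) (p (nat_lit 0x88880987871a) (nat_lit 0) (p (nat_lit 0x8000080000000080907088a) (nat_lit 0) (p (nat_lit 0x8000080000000078886860a) (nat_lit 0) (p (nat_lit 0x10688060782) (nat_lit 0) (p (nat_lit 0x8607858702) (nat_lit 0) (p (nat_lit 0x10587050482) (nat_lit 0) (p (nat_lit 0x8506848402) (nat_lit 0) (p (nat_lit 0x160004) (nat_lit 0) (p (nat_lit 0x50612) (nat_lit 0) (p (nat_lit 0x40592) (nat_lit 0) (p (nat_lit 0x40492) (nat_lit 0) (p (nat_lit 0x30412) (nat_lit 0) (p (nat_lit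 0x30212) (nat_lit 0) (p (nat_lit 0x20192) (nat_lit 0) (p (nat_lit 0x20092) (nat_lit 0) (p (nat_lit 0x10012) (nat_lit 0) pn))))))))))))))))))))))))))) :=
  Cl.node (nat_lit 0x200014) (nat_lit 2) (by decide +kernel) (ClAll.succ (ClAll.succ ClAll.zero n36) s107)

def n61 : Cl (O (nat_lit 6)) (R (nat_lit 104465))
    (p (nat_lit 0x109) (nat_lit 1) (p (nat_lit 0x89) (nat_lit 1) (p (nat_lit 0x101) (nat_lit 0) (p (nat_lit 0xc1) (nat_lit 1) (p (nat_lit 0x119) (nat_lit 1) (p (nat_lit 0xd1) (nat_lit 0) (p (nat_lit 0x81) (nat_lit 0) (p (nat_lit 0x41) (nat_lit 1) (p (nat_lit 0x10a098b090a9a) (nat_lit 0) (p (nat_lit 0x89890a888a1a) (nat_lit 0) (p (nat_lit 0x109088a08079a) (nat_lit 0) (p (nat_lit 0x88880987871a) (nat_lit 0) (p (nat_lit 0x8000080000000080907088a) (nat_lit 0) (p (nat_lit 0x8000080000000078886860a) (nat_lit 0) (p (nat_lit 0x10688060782) (nat_lit 0) (p (nat_lit 0x8607858702) (nat_lit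 0) (p (nat_lit 0x10587050482) (nat_lit 0) (p (nat_lit 0x8506848402) (nat_lit 0) (p (nat_lit 0x160004) (nat_lit 0) (p (nat_lit 0x50612) (nat_lit 0) (p (nat_lit 0x40592) (nat_lit 0) (p (nat_lit 0x40492) (nat_lit 0) (p (nat_lit 0x30412) (nat_lit 0) (p (nat_lit 0x30212) (nat_lit 0) (p (nat_lit 0x20192) (nat_lit 0) (p (nat_lit 0x20092) (nat_lit 0) (p (nat_lit 0x10012) (nat_lit 0) pn))))))))))))))))))))))))))) :=
  Cl.node (nat_lit 0x20000c) (nat_lit 2) (by decide +kernel) (ClAll.succ (ClAll.succ ClAll.zero n37) s118)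

def n62 : Cl (O (nat_lit 6)) (R (nat_lit 104465))
    (p (nat_lit 0x20000c) (nat_lit 0) (p (nat_lit 0x89) (nat_lit 1) (p (nat_lit 0x101) (nat_lit 1) (p (nat_lit 0xc1) (nat_lit 1) (p (nat_lit 0x119) (nat_lit 1) (p (nat_lit 0xd1) (nat_lit 0) (p (nat_lit 0x81) (nat_lit 0) (p (nat_lit 0x41) (nat_lit 1) (p (nat_lit 0x10a098b090a9a) (nat_lit 0) (p (nat_lit 0x89890a888a1a) (nat_lit 0) (p (nat_lit 0x109088a08079a) (nat_lit 0) (p (nat_lit 0x88880987871a) (nat_lit 0) (p (nat_lit 0x8000080000000080907088a) (nat_lit 0) (p (nat_lit 0x8000080000000078886860a) (nat_lit 0) (p (nat_lit 0x10688060782) (nat_lit 0) (p (nat_lit 0x8607858702) (nat_lit 0) (p (nat_lit 0x10587050482) (nat_lit 0) (p (nat_lit 0x8506848402) (nat_lit 0) (p (nat_lit 0x160004) (nat_lit 0) (p (nat_lit 0x50612) (nat_lit 0) (p (nat_lit 0x40592) (nat_lit 0) (p (nat_lit 0x40492) (nat_lit 0) (p (nat_lit 0x30412) (nat_lit 0) (p (nat_lit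 0x30212) (nat_lit 0) (p (nat_lit 0x20192) (nat_lit 0) (p (nat_lit 0x20092) (nat_lit 0) (p (nat_lit 0x10012) (nat_lit 0) pn))))))))))))))))))))))))))) :=
  Cl.node (nat_lit 0x200014) (nat_lit 2) (by decide +kernel) (ClAll.succ (ClAll.succ ClAll.zero n38) s122)

def n63 : Cl (O (nat_lit 6)) (R (nat_lit 104465))
    (p (nat_lit 0xc9) (nat_lit 0) (p (nat_lit 0x89) (nat_lit 1) (p (nat_lit 0x109) (nat_lit 1) (p (nat_lit 0x101) (nat_lit 0) (p (nat_lit 0x111) (nat_lit 0) (p (nat_lit 0xd1) (nat_lit 1) (p (nat_lit 0x81) (nat_lit 0) (p (nat_lit 0x41) (nat_lit 1) (p (nat_lit 0x10a098b090a9a) (nat_lit 0) (p (nat_lit 0x89890a888a1a) (nat_lit 0) (p (nat_lit 0x109088a08079a) (nat_lit 0) (p (nat_lit 0x88880987871a) (nat_lit 0) (p (nat_lit 0x8000080000000080907088a) (nat_lit 0) (p (nat_lit 0x8000080000000078886860a) (nat_lit 0) (p (nat_lit 0x10688060782) (nat_lit 0) (p (nat_lit 0x8607858702) (nat_lit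 0) (p (nat_lit 0x10587050482) (nat_lit 0) (p (nat_lit 0x8506848402) (nat_lit 0) (p (nat_lit 0x160004) (nat_lit 0) (p (nat_lit 0x50612) (nat_lit 0) (p (nat_lit 0x40592) (nat_lit 0) (p (nat_lit 0x40492) (nat_lit 0) (p (nat_lit 0x30412) (nat_lit 0) (p (nat_lit 0x30212) (nat_lit 0) (p (nat_lit 0x20192) (nat_lit 0) (p (nat_lit 0x20092) (nat_lit 0) (p (nat_lit 0x10012) (nat_lit 0) pn))))))))))))))))))))))))))) :=
  Cl.node (nat_lit 0x20000c) (nat_lit 2) (by decide +kernel) (ClAll.succ (ClAll.succ ClAll.zero n39) s129)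

def n64 : Cl (O (nat_lit 6)) (R (nat_lit 104465))
    (p (nat_lit 0x200014) (nat_lit 0) (p (nat_lit 0x20000c) (nat_lit 0) (p (nat_lit 0x89) (nat_lit 0) (p (nat_lit 0x101) (nat_lit 1) (p (nat_lit 0x111) (nat_lit 0) (p (nat_lit 0xd1) (nat_lit 1) (p (nat_lit 0x81) (nat_lit 0) (p (nat_lit 0x41) (nat_lit 1) (p (nat_lit 0x10a098b090a9a) (nat_lit 0) (p (nat_lit 0x89890a888a1a) (nat_lit 0) (p (nat_lit 0x109088a08079a) (nat_lit 0) (p (nat_lit 0x88880987871a) (nat_lit 0) (p (nat_lit 0x8000080000000080907088a) (nat_lit 0) (p (nat_lit 0x8000080000000078886860a) (nat_lit 0) (p (nat_lit 0x10688060782) (nat_lit 0) (p (nat_lit 0x8607858702) (nat_lit 0) (p (nat_lit 0x10587050482) (nat_lit 0) (p (nat_lit 0x8506848402) (nat_lit 0) (p (nat_lit 0x160004) (nat_lit 0) (p (nat_lit 0x50612) (nat_lit 0) (p (nat_lit 0x40592) (nat_lit 0) (p (nat_lit 0x40492) (nat_lit 0) (p (nat_lit 0x30412) (nat_lit 0) (p (nat_lit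 0x30212) (nat_lit 0) (p (nat_lit 0x20192) (nat_lit 0) (p (nat_lit 0x20092) (nat_lit 0) (p (nat_lit 0x10012) (nat_lit 0) pn))))))))))))))))))))))))))) :=
  Cl.node (nat_lit 0xb0004) (nat_lit 2) (by decide +kernel) (ClAll.succ (ClAll.succ ClAll.zero s131) s132)

def n65 : Cl (O (nat_lit 6)) (R (nat_lit 104465))
    (p (nat_lit 0x20000c) (nat_lit 0) (p (nat_lit 0xc9) (nat_lit 0) (p (nat_lit 0x89) (nat_lit 1) (p (nat_lit 0x101) (nat_lit 1) (p (nat_lit 0x111) (nat_lit 0) (p (nat_lit 0xd1) (nat_lit 1) (p (nat_lit 0x81) (nat_lit 0) (p (nat_lit 0x41) (nat_lit 1) (p (nat_lit 0x10a098b090a9a) (nat_lit 0) (p (nat_lit 0x89890a888a1a) (nat_lit 0) (p (nat_lit 0x109088a08079a) (nat_lit 0) (p (nat_lit 0x88880987871a) (nat_lit 0) (p (nat_lit 0x8000080000000080907088a) (nat_lit 0) (p (nat_lit 0x8000080000000078886860a) (nat_lit 0) (p (nat_lit 0x10688060782) (nat_lit 0) (p (nat_lit 0x8607858702) (nat_lit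 0) (p (nat_lit 0x10587050482) (nat_lit 0) (p (nat_lit 0x8506848402) (nat_lit 0) (p (nat_lit 0x160004) (nat_lit 0) (p (nat_lit 0x50612) (nat_lit 0) (p (nat_lit 0x40592) (nat_lit 0) (p (nat_lit 0x40492) (nat_lit 0) (p (nat_lit 0x30412) (nat_lit 0) (p (nat_lit 0x30212) (nat_lit 0) (p (nat_lit 0x20192) (nat_lit 0) (p (nat_lit 0x20092) (nat_lit 0) (p (nat_lit 0x10012) (nat_lit 0) pn))))))))))))))))))))))))))) :=
  Cl.node (nat_lit 0x200014) (nat_lit 2) (by decide +kernel) (ClAll.succ (ClAll.succ ClAll.zero n40) s137)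

def n66 : Cl (O (nat_lit 6)) (R (nat_lit 104465))
    (p (nat_lit 0x20000c) (nat_lit 0) (p (nat_lit 0xd1) (nat_lit 0) (p (nat_lit 0xc9) (nat_lit 0) (p (nat_lit 0x101) (nat_lit 1) (p (nat_lit 0x119) (nat_lit 0) (p (nat_lit 0xc1) (nat_lit 0) (p (nat_lit 0x81) (nat_lit 1) (p (nat_lit 0x41) (nat_lit 1) (p (nat_lit 0x10a098b090a9a) (nat_lit 0) (p (nat_lit 0x89890a888a1a) (nat_lit 0) (p (nat_lit 0x109088a08079a) (nat_lit 0) (p (nat_lit 0x88880987871a) (nat_lit 0) (p (nat_lit 0x8000080000000080907088a) (nat_lit 0) (p (nat_lit 0x8000080000000078886860a) (nat_lit 0) (p (nat_lit 0x10688060782) (nat_lit 0) (p (nat_lit 0x8607858702) (nat_lit 0) (p (nat_lit 0x10587050482) (nat_lit 0) (p (nat_lit 0x8506848402) (nat_lit 0) (p (nat_lit 0x160004) (nat_lit 0) (p (nat_lit 0x50612) (nat_lit 0) (p (nat_lit 0x40592) (nat_lit 0) (p (nat_lit 0x40492) (nat_lit 0) (p (nat_lit 0x30412) (nat_lit 0) (p (nat_lit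 0x30212) (nat_lit 0) (p (nat_lit 0x20192) (nat_lit 0) (p (nat_lit 0x20092) (nat_lit 0) (p (nat_lit 0x10012) (nat_lit 0) pn))))))))))))))))))))))))))) :=
  Cl.node (nat_lit 0x200014) (nat_lit 2) (by decide +kernel) (ClAll.succ (ClAll.succ ClAll.zero s146) s147)

def n67 : Cl (O (nat_lit 6)) (R (nat_lit 104465))
    (p (nat_lit 0x20000c) (nat_lit 0) (p (nat_lit 0xd1) (nat_lit 1) (p (nat_lit 0xc9) (nat_lit 0) (p (nat_lit 0x101) (nat_lit 1) (p (nat_lit 0x119) (nat_lit 0) (p (nat_lit 0xc1) (nat_lit 0) (p (nat_lit 0x81) (nat_lit 1) (p (nat_lit 0x41) (nat_lit 1) (p (nat_lit 0x10a098b090a9a) (nat_lit 0) (p (nat_lit 0x89890a888a1a) (nat_lit 0) (p (nat_lit 0x109088a08079a) (nat_lit 0) (p (nat_lit 0x88880987871a) (nat_lit 0) (p (nat_lit 0x8000080000000080907088a) (nat_lit 0) (p (nat_lit 0x8000080000000078886860a) (nat_lit 0) (p (nat_lit 0x10688060782) (nat_lit 0) (p (nat_lit 0x8607858702) (nat_lit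 0) (p (nat_lit 0x10587050482) (nat_lit 0) (p (nat_lit 0x8506848402) (nat_lit 0) (p (nat_lit 0x160004) (nat_lit 0) (p (nat_lit 0x50612) (nat_lit 0) (p (nat_lit 0x40592) (nat_lit 0) (p (nat_lit 0x40492) (nat_lit 0) (p (nat_lit 0x30412) (nat_lit 0) (p (nat_lit 0x30212) (nat_lit 0) (p (nat_lit 0x20192) (nat_lit 0) (p (nat_lit 0x20092) (nat_lit 0) (p (nat_lit 0x10012) (nat_lit 0) pn))))))))))))))))))))))))))) :=
  Cl.node (nat_lit 0x200014) (nat_lit 2) (by decide +kernel) (ClAll.succ (ClAll.succ ClAll.zero n41) s151)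

def n68 : Cl (O (nat_lit 6)) (R (nat_lit 104465))
    (p (nat_lit 0x20000c) (nat_lit 0) (p (nat_lit 0x111) (nat_lit 1) (p (nat_lit 0x109) (nat_lit 0) (p (nat_lit 0xc9) (nat_lit 1) (p (nat_lit 0x119) (nat_lit 1) (p (nat_lit 0xc1) (nat_lit 0) (p (nat_lit 0x81) (nat_lit 1) (p (nat_lit 0x41) (nat_lit 1) (p (nat_lit 0x10a098b090a9a) (nat_lit 0) (p (nat_lit 0x89890a888a1a) (nat_lit 0) (p (nat_lit 0x109088a08079a) (nat_lit 0) (p (nat_lit 0x88880987871a) (nat_lit 0) (p (nat_lit 0x8000080000000080907088a) (nat_lit 0) (p (nat_lit 0x8000080000000078886860a) (nat_lit 0) (p (nat_lit 0x10688060782) (nat_lit 0) (p (nat_lit 0x8607858702) (nat_lit 0) (p (nat_lit 0x10587050482) (nat_lit 0) (p (nat_lit 0x8506848402) (nat_lit 0) (p (nat_lit 0x160004) (nat_lit 0) (p (nat_lit 0x50612) (nat_lit 0) (p (nat_lit 0x40592) (nat_lit 0) (p (nat_lit 0x40492) (nat_lit 0) (p (nat_lit 0x30412) (nat_lit 0) (p (nat_lit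 0x30212) (nat_lit 0) (p (nat_lit 0x20192) (nat_lit 0) (p (nat_lit 0x20092) (nat_lit 0) (p (nat_lit 0x10012) (nat_lit 0) pn))))))))))))))))))))))))))) :=
  Cl.node (nat_lit 0x200014) (nat_lit 2) (by decide +kernel) (ClAll.succ (ClAll.succ ClAll.zero n42) s158)

def n69 : Cl (O (nat_lit 6)) (R (nat_lit 104465))
    (p (nat_lit 0xc9) (nat_lit 1) (p (nat_lit 0x109) (nat_lit 1) (p (nat_lit 0x101) (nat_lit 0) (p (nat_lit 0x119) (nat_lit 0) (p (nat_lit 0xd1) (nat_lit 0) (p (nat_lit 0x89) (nat_lit 0) (p (nat_lit 0x41) (nat_lit 0) (p (nat_lit 0x10a098b090a9a) (nat_lit 0) (p (nat_lit 0x89890a888a1a) (nat_lit 0) (p (nat_lit 0x109088a08079a) (nat_lit 0) (p (nat_lit 0x88880987871a) (nat_lit 0) (p (nat_lit 0x8000080000000080907088a) (nat_lit 0) (p (nat_lit 0x8000080000000078886860a) (nat_lit 0) (p (nat_lit 0x10688060782) (nat_lit 0) (p (nat_lit 0x8607858702) (nat_lit 0) (p (nat_lit 0x10587050482)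 (nat_lit 0) (p (nat_lit 0x8506848402) (nat_lit 0) (p (nat_lit 0x160004) (nat_lit 0) (p (nat_lit 0x50612) (nat_lit 0) (p (nat_lit 0x40592) (nat_lit 0) (p (nat_lit 0x40492) (nat_lit 0) (p (nat_lit 0x30412) (nat_lit 0) (p (nat_lit 0x30212) (nat_lit 0) (p (nat_lit 0x20192) (nat_lit 0) (p (nat_lit 0x20092) (nat_lit 0) (p (nat_lit 0x10012) (nat_lit 0) pn)))))))))))))))))))))))))) :=
  Cl.node (nat_lit 0x20000c) (nat_lit 2) (by decide +kernel) (ClAll.succ (ClAll.succ ClAll.zero n43) s4)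

def n70 : Cl (O (nat_lit 6)) (R (nat_lit 104465))
    (p (nat_lit 0xc9) (nat_lit 1) (p (nat_lit 0x81) (nat_lit 0) (p (nat_lit 0x101) (nat_lit 1) (p (nat_lit 0x119) (nat_lit 0) (p (nat_lit 0xd1) (nat_lit 0) (p (nat_lit 0x89) (nat_lit 0) (p (nat_lit 0x41) (nat_lit 0) (p (nat_lit 0x10a098b090a9a) (nat_lit 0) (p (nat_lit 0x89890a888a1a) (nat_lit 0) (p (nat_lit 0x109088a08079a) (nat_lit 0) (p (nat_lit 0x88880987871a) (nat_lit 0) (p (nat_lit 0x8000080000000080907088a) (nat_lit 0) (p (nat_lit 0x8000080000000078886860a) (nat_lit 0) (p (nat_lit 0x10688060782) (nat_lit 0) (p (nat_lit 0x8607858702) (nat_lit 0) (p (nat_lit 0x10587050482) (nat_lit 0) (p (nat_lit 0x8506848402) (nat_lit 0) (p (nat_lit 0x160004) (nat_lit 0) (p (nat_lit 0x50612) (nat_lit 0) (p (nat_lit 0x40592) (nat_lit 0) (p (nat_lit 0x40492) (nat_lit 0) (p (nat_lit 0x30412) (nat_lit 0) (p (nat_lit 0x30212) (nat_lit 0) (p (nat_lit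 0x20192) (nat_lit 0) (p (nat_lit 0x20092) (nat_lit 0) (p (nat_lit 0x10012) (nat_lit 0) pn)))))))))))))))))))))))))) :=
  Cl.node (nat_lit 0x20000c) (nat_lit 2) (by decide +kernel) (ClAll.succ (ClAll.succ ClAll.zero n44) s10)

def n71 : Cl (O (nat_lit 6)) (R (nat_lit 104465))
    (p (nat_lit 0xc1) (nat_lit 0) (p (nat_lit 0x81) (nat_lit 1) (p (nat_lit 0x101) (nat_lit 1) (p (nat_lit 0x119) (nat_lit 0) (p (nat_lit 0xd1) (nat_lit 0) (p (nat_lit 0x89) (nat_lit 0) (p (nat_lit 0x41) (nat_lit 0) (p (nat_lit 0x10a098b090a9a) (nat_lit 0) (p (nat_lit 0x89890a888a1a) (nat_lit 0) (p (nat_lit 0x109088a08079a) (nat_lit 0) (p (nat_lit 0x88880987871a) (nat_lit 0) (p (nat_lit 0x8000080000000080907088a) (nat_lit 0) (p (nat_lit 0x8000080000000078886860a) (nat_lit 0) (p (nat_lit 0x10688060782) (nat_lit 0) (p (nat_lit 0x8607858702) (nat_lit 0) (p (nat_lit 0x10587050482) (nat_lit 0) (p (nat_lit 0x8506848402)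 (nat_lit 0) (p (nat_lit 0x160004) (nat_lit 0) (p (nat_lit 0x50612) (nat_lit 0) (p (nat_lit 0x40592) (nat_lit 0) (p (nat_lit 0x40492) (nat_lit 0) (p (nat_lit 0x30412) (nat_lit 0) (p (nat_lit 0x30212) (nat_lit 0) (p (nat_lit 0x20192) (nat_lit 0) (p (nat_lit 0x20092) (nat_lit 0) (p (nat_lit 0x10012) (nat_lit 0) pn)))))))))))))))))))))))))) :=
  Cl.node (nat_lit 0xc9) (nat_lit 2) (by decide +kernel) (ClAll.succ (ClAll.succ ClAll.zero s11) n45)

def n72 : Cl (O (nat_lit 6)) (R (nat_lit 104465))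
    (p (nat_lit 0x101) (nat_lit 0) (p (nat_lit 0x81) (nat_lit 1) (p (nat_lit 0xc1) (nat_lit 1) (p (nat_lit 0x119) (nat_lit 1) (p (nat_lit 0xd1) (nat_lit 0) (p (nat_lit 0x89) (nat_lit 0) (p (nat_lit 0x41) (nat_lit 0) (p (nat_lit 0x10a098b090a9a) (nat_lit 0) (p (nat_lit 0x89890a888a1a) (nat_lit 0) (p (nat_lit 0x109088a08079a) (nat_lit 0) (p (nat_lit 0x88880987871a) (nat_lit 0) (p (nat_lit 0x8000080000000080907088a) (nat_lit 0) (p (nat_lit 0x8000080000000078886860a) (nat_lit 0) (p (nat_lit 0x10688060782) (nat_lit 0) (p (nat_lit 0x8607858702) (nat_lit 0) (p (nat_lit 0x10587050482) (nat_lit 0) (p (nat_lit 0x8506848402) (nat_lit 0) (p (nat_lit 0x160004) (nat_lit 0) (p (nat_lit 0x50612) (nat_lit 0) (p (nat_lit 0x40592) (nat_lit 0) (p (nat_lit 0x40492) (nat_lit 0) (p (nat_lit 0x30412) (nat_lit 0) (p (nat_lit 0x30212) (nat_lit 0) (p (nat_lit 0x20192) (nat_lit 0) (p (nat_lit 0x20092) (nat_lit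 0) (p (nat_lit 0x10012) (nat_lit 0) pn)))))))))))))))))))))))))) :=
  Cl.node (nat_lit 0x109) (nat_lit 2) (by decide +kernel) (ClAll.succ (ClAll.succ ClAll.zero n46) n47)

def n73 : Cl (O (nat_lit 6)) (R (nat_lit 104465))
    (p (nat_lit 0x20000c) (nat_lit 0) (p (nat_lit 0x109) (nat_lit 1) (p (nat_lit 0x101) (nat_lit 0) (p (nat_lit 0x111) (nat_lit 0) (p (nat_lit 0xd1) (nat_lit 1) (p (nat_lit 0x89) (nat_lit 0) (p (nat_lit 0x41) (nat_lit 0) (p (nat_lit 0x10a098b090a9a) (nat_lit 0) (p (nat_lit 0x89890a888a1a) (nat_lit 0) (p (nat_lit 0x109088a08079a) (nat_lit 0) (p (nat_lit 0x88880987871a) (nat_lit 0) (p (nat_lit 0x8000080000000080907088a) (nat_lit 0) (p (nat_lit 0x8000080000000078886860a) (nat_lit 0) (p (nat_lit 0x10688060782) (nat_lit 0) (p (nat_lit 0x8607858702) (nat_lit 0) (p (nat_lit 0x10587050482) (nat_lit 0) (p (nat_lit 0x8506848402) (nat_lit 0) (p (nat_lit 0x160004) (nat_lit 0) (p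 (nat_lit 0x50612) (nat_lit 0) (p (nat_lit 0x40592) (nat_lit 0) (p (nat_lit 0x40492) (nat_lit 0) (p (nat_lit 0x30412) (nat_lit 0) (p (nat_lit 0x30212) (nat_lit 0) (p (nat_lit 0x20192) (nat_lit 0) (p (nat_lit 0x20092) (nat_lit 0) (p (nat_lit 0x10012) (nat_lit 0) pn)))))))))))))))))))))))))) :=
  Cl.node (nat_lit 0x200014) (nat_lit 2) (by decide +kernel) (ClAll.succ (ClAll.succ ClAll.zero n48) s30)

def n74 : Cl (O (nat_lit 6)) (R (nat_lit 104465))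
    (p (nat_lit 0x20000c) (nat_lit 0) (p (nat_lit 0x81) (nat_lit 0) (p (nat_lit 0x101) (nat_lit 1) (p (nat_lit 0x111) (nat_lit 0) (p (nat_lit 0xd1) (nat_lit 1) (p (nat_lit 0x89) (nat_lit 0) (p (nat_lit 0x41) (nat_lit 0) (p (nat_lit 0x10a098b090a9a) (nat_lit 0) (p (nat_lit 0x89890a888a1a) (nat_lit 0) (p (nat_lit 0x109088a08079a) (nat_lit 0) (p (nat_lit 0x88880987871a) (nat_lit 0) (p (nat_lit 0x8000080000000080907088a) (nat_lit 0) (p (nat_lit 0x8000080000000078886860a) (nat_lit 0) (p (nat_lit 0x10688060782) (nat_lit 0) (p (nat_lit 0x8607858702) (nat_lit 0) (p (nat_lit 0x10587050482) (nat_lit 0) (p (nat_lit 0x8506848402) (nat_lit 0) (p (nat_lit 0x160004) (nat_lit 0) (p (nat_lit 0x50612) (nat_lit 0) (p (nat_lit 0x40592) (nat_lit 0) (p (nat_lit 0x40492) (nat_lit 0) (p (nat_lit 0x30412) (nat_lit 0) (p (nat_lit 0x30212) (nat_lit 0) (p (nat_lit 0x20192) (nat_lit 0) (p (nat_lit 0x20092) (nat_lit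 0) (p (nat_lit 0x10012) (nat_lit 0) pn)))))))))))))))))))))))))) :=
  Cl.node (nat_lit 0x200014) (nat_lit 2) (by decide +kernel) (ClAll.succ (ClAll.succ ClAll.zero s32) s33)

def n75 : Cl (O (nat_lit 6)) (R (nat_lit 104465))
    (p (nat_lit 0xc1) (nat_lit 0) (p (nat_lit 0x81) (nat_lit 1) (p (nat_lit 0x101) (nat_lit 1) (p (nat_lit 0x111) (nat_lit 0) (p (nat_lit 0xd1) (nat_lit 1) (p (nat_lit 0x89) (nat_lit 0) (p (nat_lit 0x41) (nat_lit 0) (p (nat_lit 0x10a098b090a9a) (nat_lit 0) (p (nat_lit 0x89890a888a1a) (nat_lit 0) (p (nat_lit 0x109088a08079a) (nat_lit 0) (p (nat_lit 0x88880987871a) (nat_lit 0) (p (nat_lit 0x8000080000000080907088a) (nat_lit 0) (p (nat_lit 0x8000080000000078886860a) (nat_lit 0) (p (nat_lit 0x10688060782) (nat_lit 0) (p (nat_lit 0x8607858702) (nat_lit 0) (p (nat_lit 0x10587050482) (nat_lit 0) (p (nat_lit 0x8506848402) (nat_lit 0) (p (nat_lit 0x160004) (nat_lit 0) (p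 (nat_lit 0x50612) (nat_lit 0) (p (nat_lit 0x40592) (nat_lit 0) (p (nat_lit 0x40492) (nat_lit 0) (p (nat_lit 0x30412) (nat_lit 0) (p (nat_lit 0x30212) (nat_lit 0) (p (nat_lit 0x20192) (nat_lit 0) (p (nat_lit 0x20092) (nat_lit 0) (p (nat_lit 0x10012) (nat_lit 0) pn)))))))))))))))))))))))))) :=
  Cl.node (nat_lit 0x20000c) (nat_lit 2) (by decide +kernel) (ClAll.succ (ClAll.succ ClAll.zero n49) s40)

def n76 : Cl (O (nat_lit 6)) (R (nat_lit 104465))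
    (p (nat_lit 0x111) (nat_lit 1) (p (nat_lit 0x109) (nat_lit 0) (p (nat_lit 0x101) (nat_lit 0) (p (nat_lit 0x119) (nat_lit 0) (p (nat_lit 0xc9) (nat_lit 0) (p (nat_lit 0x89) (nat_lit 1) (p (nat_lit 0x41) (nat_lit 0) (p (nat_lit 0x10a098b090a9a) (nat_lit 0) (p (nat_lit 0x89890a888a1a) (nat_lit 0) (p (nat_lit 0x109088a08079a) (nat_lit 0) (p (nat_lit 0x88880987871a) (nat_lit 0) (p (nat_lit 0x8000080000000080907088a) (nat_lit 0) (p (nat_lit 0x8000080000000078886860a) (nat_lit 0) (p (nat_lit 0x10688060782) (nat_lit 0) (p (nat_lit 0x8607858702) (nat_lit 0) (p (nat_lit 0x10587050482) (nat_lit 0) (p (nat_lit 0x8506848402) (nat_lit 0) (p (nat_lit 0x160004) (nat_lit 0) (p (nat_lit 0x50612) (nat_lit 0) (p (nat_lit 0x40592) (nat_lit 0) (p (nat_lit 0x40492) (nat_lit 0) (p (nat_lit 0x30412) (nat_lit 0) (p (nat_lit 0x30212) (nat_lit 0) (p (nat_lit 0x20192) (nat_lit 0) (p (nat_lit 0x20092) (nat_lit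 0) (p (nat_lit 0x10012) (nat_lit 0) pn)))))))))))))))))))))))))) :=
  Cl.node (nat_lit 0xd1) (nat_lit 2) (by decide +kernel) (ClAll.succ (ClAll.succ ClAll.zero s44) s45)

def n77 : Cl (O (nat_lit 6)) (R (nat_lit 104465))
    (p (nat_lit 0xd1) (nat_lit 0) (p (nat_lit 0x109) (nat_lit 1) (p (nat_lit 0x101) (nat_lit 0) (p (nat_lit 0x119) (nat_lit 0) (p (nat_lit 0xc9) (nat_lit 0) (p (nat_lit 0x89) (nat_lit 1) (p (nat_lit 0x41) (nat_lit 0) (p (nat_lit 0x10a098b090a9a) (nat_lit 0) (p (nat_lit 0x89890a888a1a) (nat_lit 0) (p (nat_lit 0x109088a08079a) (nat_lit 0) (p (nat_lit 0x88880987871a) (nat_lit 0) (p (nat_lit 0x8000080000000080907088a) (nat_lit 0) (p (nat_lit 0x8000080000000078886860a) (nat_lit 0) (p (nat_lit 0x10688060782) (nat_lit 0) (p (nat_lit 0x8607858702) (nat_lit 0) (p (nat_lit 0x10587050482) (nat_lit 0) (p (nat_lit 0x8506848402) (nat_lit 0) (p (nat_lit 0x160004) (nat_lit 0) (p (nat_lit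 0x50612) (nat_lit 0) (p (nat_lit 0x40592) (nat_lit 0) (p (nat_lit 0x40492) (nat_lit 0) (p (nat_lit 0x30412) (nat_lit 0) (p (nat_lit 0x30212) (nat_lit 0) (p (nat_lit 0x20192) (nat_lit 0) (p (nat_lit 0x20092) (nat_lit 0) (p (nat_lit 0x10012) (nat_lit 0) pn)))))))))))))))))))))))))) :=
  Cl.node (nat_lit 0x20000c) (nat_lit 2) (by decide +kernel) (ClAll.succ (ClAll.succ ClAll.zero n50) s51)

def n78 : Cl (O (nat_lit 6)) (R (nat_lit 104465))
    (p (nat_lit 0xd1) (nat_lit 1) (p (nat_lit 0x109) (nat_lit 1) (p (nat_lit 0x101) (nat_lit 0) (p (nat_lit 0x119) (nat_lit 0) (p (nat_lit 0xc9) (nat_lit 0) (p (nat_lit 0x89) (nat_lit 1) (p (nat_lit 0x41) (nat_lit 0) (p (nat_lit 0x10a098b090a9a) (nat_lit 0) (p (nat_lit 0x89890a888a1a) (nat_lit 0) (p (nat_lit 0x109088a08079a) (nat_lit 0) (p (nat_lit 0x88880987871a) (nat_lit 0) (p (nat_lit 0x8000080000000080907088a) (nat_lit 0) (p (nat_lit 0x8000080000000078886860a)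 (nat_lit 0) (p (nat_lit 0x10688060782) (nat_lit 0) (p (nat_lit 0x8607858702) (nat_lit 0) (p (nat_lit 0x10587050482) (nat_lit 0) (p (nat_lit 0x8506848402) (nat_lit 0) (p (nat_lit 0x160004) (nat_lit 0) (p (nat_lit 0x50612) (nat_lit 0) (p (nat_lit 0x40592) (nat_lit 0) (p (nat_lit 0x40492) (nat_lit 0) (p (nat_lit 0x30412) (nat_lit 0) (p (nat_lit 0x30212) (nat_lit 0) (p (nat_lit 0x20192) (nat_lit 0) (p (nat_lit 0x20092) (nat_lit 0) (p (nat_lit 0x10012) (nat_lit 0) pn)))))))))))))))))))))))))) :=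
  Cl.node (nat_lit 0x20000c) (nat_lit 2) (by decide +kernel) (ClAll.succ (ClAll.succ ClAll.zero n51) s57)

def n79 : Cl (O (nat_lit 6)) (R (nat_lit 104465))
    (p (nat_lit 0xd1) (nat_lit 0) (p (nat_lit 0xc1) (nat_lit 0) (p (nat_lit 0x101) (nat_lit 1) (p (nat_lit 0x119) (nat_lit 0) (p (nat_lit 0xc9) (nat_lit 0) (p (nat_lit 0x89) (nat_lit 1) (p (nat_lit 0x41) (nat_lit 0) (p (nat_lit 0x10a098b090a9a) (nat_lit 0) (p (nat_lit 0x89890a888a1a) (nat_lit 0) (p (nat_lit 0x109088a08079a) (nat_lit 0) (p (nat_lit 0x88880987871a) (nat_lit 0) (p (nat_lit 0x8000080000000080907088a) (nat_lit 0) (p (nat_lit 0x8000080000000078886860a) (nat_lit 0) (p (nat_lit 0x10688060782) (nat_lit 0) (p (nat_lit 0x8607858702) (nat_lit 0) (p (nat_lit 0x10587050482) (nat_lit 0) (p (nat_lit 0x8506848402) (nat_lit 0) (p (nat_lit 0x160004) (nat_lit 0) (p (nat_lit 0x50612) (nat_lit 0) (p (nat_lit 0x40592) (nat_lit 0) (p (nat_lit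 0x40492) (nat_lit 0) (p (nat_lit 0x30412) (nat_lit 0) (p (nat_lit 0x30212) (nat_lit 0) (p (nat_lit 0x20192) (nat_lit 0) (p (nat_lit 0x20092) (nat_lit 0) (p (nat_lit 0x10012) (nat_lit 0) pn)))))))))))))))))))))))))) :=
  Cl.node (nat_lit 0x20000c) (nat_lit 2) (by decide +kernel) (ClAll.succ (ClAll.succ ClAll.zero n52) s61)

def n80 : Cl (O (nat_lit 6)) (R (nat_lit 104465))
    (p (nat_lit 0xd1) (nat_lit 1) (p (nat_lit 0xc1) (nat_lit 0) (p (nat_lit 0x101) (nat_lit 1) (p (nat_lit 0x119) (nat_lit 0) (p (nat_lit 0xc9) (nat_lit 0) (p (nat_lit 0x89) (nat_lit 1) (p (nat_lit 0x41) (nat_lit 0) (p (nat_lit 0x10a098b090a9a) (nat_lit 0) (p (nat_lit 0x89890a888a1a) (nat_lit 0) (p (nat_lit 0x109088a08079a) (nat_lit 0) (p (nat_lit 0x88880987871a) (nat_lit 0) (p (nat_lit 0x8000080000000080907088a) (nat_lit 0) (p (nat_lit 0x8000080000000078886860a) (nat_lit 0) (p (nat_lit 0x10688060782) (nat_lit 0) (p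 (nat_lit 0x8607858702) (nat_lit 0) (p (nat_lit 0x10587050482) (nat_lit 0) (p (nat_lit 0x8506848402) (nat_lit 0) (p (nat_lit 0x160004) (nat_lit 0) (p (nat_lit 0x50612) (nat_lit 0) (p (nat_lit 0x40592) (nat_lit 0) (p (nat_lit 0x40492) (nat_lit 0) (p (nat_lit 0x30412) (nat_lit 0) (p (nat_lit 0x30212) (nat_lit 0) (p (nat_lit 0x20192) (nat_lit 0) (p (nat_lit 0x20092) (nat_lit 0) (p (nat_lit 0x10012) (nat_lit 0) pn)))))))))))))))))))))))))) :=
  Cl.node (nat_lit 0x20000c) (nat_lit 2) (by decide +kernel) (ClAll.succ (ClAll.succ ClAll.zero n53) s67)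

def n81 : Cl (O (nat_lit 6)) (R (nat_lit 104465))
    (p (nat_lit 0x111) (nat_lit 1) (p (nat_lit 0xd1) (nat_lit 1) (p (nat_lit 0xc1) (nat_lit 0) (p (nat_lit 0x119) (nat_lit 1) (p (nat_lit 0xc9) (nat_lit 0) (p (nat_lit 0x89) (nat_lit 1) (p (nat_lit 0x41) (nat_lit 0) (p (nat_lit 0x10a098b090a9a) (nat_lit 0) (p (nat_lit 0x89890a888a1a) (nat_lit 0) (p (nat_lit 0x109088a08079a) (nat_lit 0) (p (nat_lit 0x88880987871a) (nat_lit 0) (p (nat_lit 0x8000080000000080907088a) (nat_lit 0) (p (nat_lit 0x8000080000000078886860a) (nat_lit 0) (p (nat_lit 0x10688060782) (nat_lit 0) (p (nat_lit 0x8607858702) (nat_lit 0) (p (nat_lit 0x10587050482) (nat_lit 0) (p (nat_lit 0x8506848402) (nat_lit 0) (p (nat_lit 0x160004) (nat_lit 0) (p (nat_lit 0x50612) (nat_lit 0) (p (nat_lit 0x40592) (nat_lit 0) (p (nat_lit 0x40492) (nat_lit 0) (p (nat_lit 0x30412) (nat_lit 0) (p (nat_lit 0x30212) (nat_lit 0) (p (nat_lit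 0x20192) (nat_lit 0) (p (nat_lit 0x20092) (nat_lit 0) (p (nat_lit 0x10012) (nat_lit 0) pn)))))))))))))))))))))))))) :=
  Cl.node (nat_lit 0x20000c) (nat_lit 2) (by decide +kernel) (ClAll.succ (ClAll.succ ClAll.zero n54) s73)

def n82 : Cl (O (nat_lit 6)) (R (nat_lit 104465))
    (p (nat_lit 0x111) (nat_lit 0) (p (nat_lit 0x101) (nat_lit 0) (p (nat_lit 0xc1) (nat_lit 1) (p (nat_lit 0x119) (nat_lit 1) (p (nat_lit 0xc9) (nat_lit 0) (p (nat_lit 0x89) (nat_lit 1) (p (nat_lit 0x41) (nat_lit 0) (p (nat_lit 0x10a098b090a9a) (nat_lit 0) (p (nat_lit 0x89890a888a1a) (nat_lit 0) (p (nat_lit 0x109088a08079a) (nat_lit 0) (p (nat_lit 0x88880987871a) (nat_lit 0) (p (nat_lit 0x8000080000000080907088a) (nat_lit 0) (p (nat_lit 0x8000080000000078886860a) (nat_lit 0) (p (nat_lit 0x10688060782) (nat_lit 0) (p (nat_lit 0x8607858702) (nat_lit 0) (p (nat_lit 0x10587050482) (nat_lit 0) (p (nat_lit 0x8506848402)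 (nat_lit 0) (p (nat_lit 0x160004) (nat_lit 0) (p (nat_lit 0x50612) (nat_lit 0) (p (nat_lit 0x40592) (nat_lit 0) (p (nat_lit 0x40492) (nat_lit 0) (p (nat_lit 0x30412) (nat_lit 0) (p (nat_lit 0x30212) (nat_lit 0) (p (nat_lit 0x20192) (nat_lit 0) (p (nat_lit 0x20092) (nat_lit 0) (p (nat_lit 0x10012) (nat_lit 0) pn)))))))))))))))))))))))))) :=
  Cl.node (nat_lit 0x20000c) (nat_lit 2) (by decide +kernel) (ClAll.succ (ClAll.succ ClAll.zero n55) s77)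

def n83 : Cl (O (nat_lit 6)) (R (nat_lit 104465))
    (p (nat_lit 0x111) (nat_lit 1) (p (nat_lit 0x101) (nat_lit 0) (p (nat_lit 0xc1) (nat_lit 1) (p (nat_lit 0x119) (nat_lit 1) (p (nat_lit 0xc9) (nat_lit 0) (p (nat_lit 0x89) (nat_lit 1) (p (nat_lit 0x41) (nat_lit 0) (p (nat_lit 0x10a098b090a9a) (nat_lit 0) (p (nat_lit 0x89890a888a1a) (nat_lit 0) (p (nat_lit 0x109088a08079a) (nat_lit 0) (p (nat_lit 0x88880987871a) (nat_lit 0) (p (nat_lit 0x8000080000000080907088a) (nat_lit 0) (p (nat_lit 0x8000080000000078886860a) (nat_lit 0) (p (nat_lit 0x10688060782) (nat_lit 0) (p (nat_lit 0x8607858702) (nat_lit 0) (p (nat_lit 0x10587050482) (nat_lit 0) (p (nat_lit 0x8506848402) (nat_lit 0) (p (nat_lit 0x160004) (nat_lit 0) (p (nat_lit 0x50612) (nat_lit 0) (p (nat_lit 0x40592) (nat_lit 0) (p (nat_lit 0x40492) (nat_lit 0) (p (nat_lit 0x30412) (nat_lit 0) (p (nat_lit 0x30212) (nat_lit 0) (p (nat_lit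 0x20192) (nat_lit 0) (p (nat_lit 0x20092) (nat_lit 0) (p (nat_lit 0x10012) (nat_lit 0) pn)))))))))))))))))))))))))) :=
  Cl.node (nat_lit 0x20000c) (nat_lit 2) (by decide +kernel) (ClAll.succ (ClAll.succ ClAll.zero n56) s81)

def n84 : Cl (O (nat_lit 6)) (R (nat_lit 104465))
    (p (nat_lit 0x89) (nat_lit 0) (p (nat_lit 0x109) (nat_lit 1) (p (nat_lit 0x101) (nat_lit 0) (p (nat_lit 0x119) (nat_lit 0) (p (nat_lit 0xd1) (nat_lit 0) (p (nat_lit 0x81) (nat_lit 0) (p (nat_lit 0x41) (nat_lit 1) (p (nat_lit 0x10a098b090a9a) (nat_lit 0) (p (nat_lit 0x89890a888a1a) (nat_lit 0) (p (nat_lit 0x109088a08079a) (nat_lit 0) (p (nat_lit 0x88880987871a) (nat_lit 0) (p (nat_lit 0x8000080000000080907088a) (nat_lit 0) (p (nat_lit 0x8000080000000078886860a) (nat_lit 0) (p (nat_lit 0x10688060782) (nat_lit 0) (p (nat_lit 0x8607858702) (nat_lit 0) (p (nat_lit 0x10587050482) (nat_lit 0) (p (nat_lit 0x8506848402)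 (nat_lit 0) (p (nat_lit 0x160004) (nat_lit 0) (p (nat_lit 0x50612) (nat_lit 0) (p (nat_lit 0x40592) (nat_lit 0) (p (nat_lit 0x40492) (nat_lit 0) (p (nat_lit 0x30412) (nat_lit 0) (p (nat_lit 0x30212) (nat_lit 0) (p (nat_lit 0x20192) (nat_lit 0) (p (nat_lit 0x20092) (nat_lit 0) (p (nat_lit 0x10012) (nat_lit 0) pn)))))))))))))))))))))))))) :=
  Cl.node (nat_lit 0x20000c) (nat_lit 2) (by decide +kernel) (ClAll.succ (ClAll.succ ClAll.zero n57) s91)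

def n85 : Cl (O (nat_lit 6)) (R (nat_lit 104465))
    (p (nat_lit 0x89) (nat_lit 1) (p (nat_lit 0x109) (nat_lit 1) (p (nat_lit 0x101) (nat_lit 0) (p (nat_lit 0x119) (nat_lit 0) (p (nat_lit 0xd1) (nat_lit 0) (p (nat_lit 0x81) (nat_lit 0) (p (nat_lit 0x41) (nat_lit 1) (p (nat_lit 0x10a098b090a9a) (nat_lit 0) (p (nat_lit 0x89890a888a1a) (nat_lit 0) (p (nat_lit 0x109088a08079a) (nat_lit 0) (p (nat_lit 0x88880987871a) (nat_lit 0) (p (nat_lit 0x8000080000000080907088a) (nat_lit 0) (p (nat_lit 0x8000080000000078886860a) (nat_lit 0) (p (nat_lit 0x10688060782) (nat_lit 0) (p (nat_lit 0x8607858702) (nat_lit 0) (p (nat_lit 0x10587050482) (nat_lit 0) (p (nat_lit 0x8506848402) (nat_lit 0) (p (nat_lit 0x160004) (nat_lit 0) (p (nat_lit 0x50612) (nat_lit 0) (p (nat_lit 0x40592) (nat_lit 0) (p (nat_lit 0x40492) (nat_lit 0) (p (nat_lit 0x30412) (nat_lit 0) (p (nat_lit 0x30212) (nat_lit 0) (p (nat_lit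 0x20192) (nat_lit 0) (p (nat_lit 0x20092) (nat_lit 0) (p (nat_lit 0x10012) (nat_lit 0) pn)))))))))))))))))))))))))) :=
  Cl.node (nat_lit 0xc9) (nat_lit 2) (by decide +kernel) (ClAll.succ (ClAll.succ ClAll.zero s92) s93)

def n86 : Cl (O (nat_lit 6)) (R (nat_lit 104465))
    (p (nat_lit 0x89) (nat_lit 1) (p (nat_lit 0xc1) (nat_lit 0) (p (nat_lit 0x101) (nat_lit 1) (p (nat_lit 0x119) (nat_lit 0) (p (nat_lit 0xd1) (nat_lit 0) (p (nat_lit 0x81) (nat_lit 0) (p (nat_lit 0x41) (nat_lit 1) (p (nat_lit 0x10a098b090a9a) (nat_lit 0) (p (nat_lit 0x89890a888a1a) (nat_lit 0) (p (nat_lit 0x109088a08079a) (nat_lit 0) (p (nat_lit 0x88880987871a) (nat_lit 0) (p (nat_lit 0x8000080000000080907088a) (nat_lit 0) (p (nat_lit 0x8000080000000078886860a) (nat_lit 0) (p (nat_lit 0x10688060782) (nat_lit 0) (p (nat_lit 0x8607858702) (nat_lit 0) (p (nat_lit 0x10587050482) (nat_lit 0) (p (nat_lit 0x8506848402) (nat_lit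 0) (p (nat_lit 0x160004) (nat_lit 0) (p (nat_lit 0x50612) (nat_lit 0) (p (nat_lit 0x40592) (nat_lit 0) (p (nat_lit 0x40492) (nat_lit 0) (p (nat_lit 0x30412) (nat_lit 0) (p (nat_lit 0x30212) (nat_lit 0) (p (nat_lit 0x20192) (nat_lit 0) (p (nat_lit 0x20092) (nat_lit 0) (p (nat_lit 0x10012) (nat_lit 0) pn)))))))))))))))))))))))))) :=
  Cl.node (nat_lit 0xc9) (nat_lit 2) (by decide +kernel) (ClAll.succ (ClAll.succ ClAll.zero n58) n59)

def n87 : Cl (O (nat_lit 6)) (R (nat_lit 104465))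
    (p (nat_lit 0x89) (nat_lit 1) (p (nat_lit 0xc1) (nat_lit 1) (p (nat_lit 0x101) (nat_lit 1) (p (nat_lit 0x119) (nat_lit 0) (p (nat_lit 0xd1) (nat_lit 0) (p (nat_lit 0x81) (nat_lit 0) (p (nat_lit 0x41) (nat_lit 1) (p (nat_lit 0x10a098b090a9a) (nat_lit 0) (p (nat_lit 0x89890a888a1a) (nat_lit 0) (p (nat_lit 0x109088a08079a) (nat_lit 0) (p (nat_lit 0x88880987871a) (nat_lit 0) (p (nat_lit 0x8000080000000080907088a) (nat_lit 0) (p (nat_lit 0x8000080000000078886860a) (nat_lit 0) (p (nat_lit 0x10688060782) (nat_lit 0) (p (nat_lit 0x8607858702) (nat_lit 0) (p (nat_lit 0x10587050482) (nat_lit 0) (p (nat_lit 0x8506848402) (nat_lit 0) (p (nat_lit 0x160004) (nat_lit 0) (p (nat_lit 0x50612) (nat_lit 0) (p (nat_lit 0x40592) (nat_lit 0) (p (nat_lit 0x40492) (nat_lit 0) (p (nat_lit 0x30412) (nat_lit 0) (p (nat_lit 0x30212) (nat_lit 0) (p (nat_lit 0x20192) (nat_lit 0) (p (nat_lit 0x20092) (nat_lit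 0) (p (nat_lit 0x10012) (nat_lit 0) pn)))))))))))))))))))))))))) :=
  Cl.node (nat_lit 0x20000c) (nat_lit 2) (by decide +kernel) (ClAll.succ (ClAll.succ ClAll.zero n60) s108)

def n88 : Cl (O (nat_lit 6)) (R (nat_lit 104465))
    (p (nat_lit 0x89) (nat_lit 1) (p (nat_lit 0xc9) (nat_lit 1) (p (nat_lit 0xc1) (nat_lit 0) (p (nat_lit 0x119) (nat_lit 1) (p (nat_lit 0xd1) (nat_lit 0) (p (nat_lit 0x81) (nat_lit 0) (p (nat_lit 0x41) (nat_lit 1) (p (nat_lit 0x10a098b090a9a) (nat_lit 0) (p (nat_lit 0x89890a888a1a) (nat_lit 0) (p (nat_lit 0x109088a08079a) (nat_lit 0) (p (nat_lit 0x88880987871a) (nat_lit 0) (p (nat_lit 0x8000080000000080907088a) (nat_lit 0) (p (nat_lit 0x8000080000000078886860a) (nat_lit 0) (p (nat_lit 0x10688060782) (nat_lit 0) (p (nat_lit 0x8607858702) (nat_lit 0) (p (nat_lit 0x10587050482) (nat_lit 0) (p (nat_lit 0x8506848402) (nat_lit 0) (p (nat_lit 0x160004) (nat_lit 0) (p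 (nat_lit 0x50612) (nat_lit 0) (p (nat_lit 0x40592) (nat_lit 0) (p (nat_lit 0x40492) (nat_lit 0) (p (nat_lit 0x30412) (nat_lit 0) (p (nat_lit 0x30212) (nat_lit 0) (p (nat_lit 0x20192) (nat_lit 0) (p (nat_lit 0x20092) (nat_lit 0) (p (nat_lit 0x10012) (nat_lit 0) pn)))))))))))))))))))))))))) :=
  Cl.node (nat_lit 0x109) (nat_lit 2) (by decide +kernel) (ClAll.succ (ClAll.succ ClAll.zero s111) s112)

def n89 : Cl (O (nat_lit 6)) (R (nat_lit 104465))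
    (p (nat_lit 0x89) (nat_lit 1) (p (nat_lit 0x101) (nat_lit 0) (p (nat_lit 0xc1) (nat_lit 1) (p (nat_lit 0x119) (nat_lit 1) (p (nat_lit 0xd1) (nat_lit 0) (p (nat_lit 0x81) (nat_lit 0) (p (nat_lit 0x41) (nat_lit 1) (p (nat_lit 0x10a098b090a9a) (nat_lit 0) (p (nat_lit 0x89890a888a1a) (nat_lit 0) (p (nat_lit 0x109088a08079a) (nat_lit 0) (p (nat_lit 0x88880987871a) (nat_lit 0) (p (nat_lit 0x8000080000000080907088a) (nat_lit 0) (p (nat_lit 0x8000080000000078886860a) (nat_lit 0) (p (nat_lit 0x10688060782) (nat_lit 0) (p (nat_lit 0x8607858702) (nat_lit 0) (p (nat_lit 0x10587050482) (nat_lit 0) (p (nat_lit 0x8506848402) (nat_lit 0) (p (nat_lit 0x160004) (nat_lit 0) (p (nat_lit 0x50612) (nat_lit 0) (p (nat_lit 0x40592) (nat_lit 0) (p (nat_lit 0x40492) (nat_lit 0) (p (nat_lit 0x30412) (nat_lit 0) (p (nat_lit 0x30212) (nat_lit 0) (p (nat_lit 0x20192) (nat_lit 0) (p (nat_lit 0x20092) (nat_lit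 0) (p (nat_lit 0x10012) (nat_lit 0) pn)))))))))))))))))))))))))) :=
  Cl.node (nat_lit 0x109) (nat_lit 2) (by decide +kernel) (ClAll.succ (ClAll.succ ClAll.zero s114) n61)

def n90 : Cl (O (nat_lit 6)) (R (nat_lit 104465))
    (p (nat_lit 0x89) (nat_lit 1) (p (nat_lit 0x101) (nat_lit 1) (p (nat_lit 0xc1) (nat_lit 1) (p (nat_lit 0x119) (nat_lit 1) (p (nat_lit 0xd1) (nat_lit 0) (p (nat_lit 0x81) (nat_lit 0) (p (nat_lit 0x41) (nat_lit 1) (p (nat_lit 0x10a098b090a9a) (nat_lit 0) (p (nat_lit 0x89890a888a1a) (nat_lit 0) (p (nat_lit 0x109088a08079a) (nat_lit 0) (p (nat_lit 0x88880987871a) (nat_lit 0) (p (nat_lit 0x8000080000000080907088a) (nat_lit 0) (p (nat_lit 0x8000080000000078886860a) (nat_lit 0) (p (nat_lit 0x10688060782) (nat_lit 0) (p (nat_lit 0x8607858702) (nat_lit 0) (p (nat_lit 0x10587050482) (nat_lit 0) (p (nat_lit 0x8506848402) (nat_lit 0) (p (nat_lit 0x160004) (nat_lit 0) (p (nat_lit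 0x50612) (nat_lit 0) (p (nat_lit 0x40592) (nat_lit 0) (p (nat_lit 0x40492) (nat_lit 0) (p (nat_lit 0x30412) (nat_lit 0) (p (nat_lit 0x30212) (nat_lit 0) (p (nat_lit 0x20192) (nat_lit 0) (p (nat_lit 0x20092) (nat_lit 0) (p (nat_lit 0x10012) (nat_lit 0) pn)))))))))))))))))))))))))) :=
  Cl.node (nat_lit 0x20000c) (nat_lit 2) (by decide +kernel) (ClAll.succ (ClAll.succ ClAll.zero n62) s123)

def n91 : Cl (O (nat_lit 6)) (R (nat_lit 104465))
    (p (nat_lit 0x89) (nat_lit 1) (p (nat_lit 0x109) (nat_lit 1) (p (nat_lit 0x101) (nat_lit 0) (p (nat_lit 0x111) (nat_lit 0) (p (nat_lit 0xd1) (nat_lit 1) (p (nat_lit 0x81) (nat_lit 0) (p (nat_lit 0x41) (nat_lit 1) (p (nat_lit 0x10a098b090a9a) (nat_lit 0) (p (nat_lit 0x89890a888a1a) (nat_lit 0) (p (nat_lit 0x109088a08079a) (nat_lit 0) (p (nat_lit 0x88880987871a) (nat_lit 0) (p (nat_lit 0x8000080000000080907088a) (nat_lit 0) (p (nat_lit 0x8000080000000078886860a)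 (nat_lit 0) (p (nat_lit 0x10688060782) (nat_lit 0) (p (nat_lit 0x8607858702) (nat_lit 0) (p (nat_lit 0x10587050482) (nat_lit 0) (p (nat_lit 0x8506848402) (nat_lit 0) (p (nat_lit 0x160004) (nat_lit 0) (p (nat_lit 0x50612) (nat_lit 0) (p (nat_lit 0x40592) (nat_lit 0) (p (nat_lit 0x40492) (nat_lit 0) (p (nat_lit 0x30412) (nat_lit 0) (p (nat_lit 0x30212) (nat_lit 0) (p (nat_lit 0x20192) (nat_lit 0) (p (nat_lit 0x20092) (nat_lit 0) (p (nat_lit 0x10012) (nat_lit 0) pn)))))))))))))))))))))))))) :=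
  Cl.node (nat_lit 0xc9) (nat_lit 2) (by decide +kernel) (ClAll.succ (ClAll.succ ClAll.zero n63) s130)

def n92 : Cl (O (nat_lit 6)) (R (nat_lit 104465))
    (p (nat_lit 0x20000c) (nat_lit 0) (p (nat_lit 0x89) (nat_lit 0) (p (nat_lit 0x101) (nat_lit 1) (p (nat_lit 0x111) (nat_lit 0) (p (nat_lit 0xd1) (nat_lit 1) (p (nat_lit 0x81) (nat_lit 0) (p (nat_lit 0x41) (nat_lit 1) (p (nat_lit 0x10a098b090a9a) (nat_lit 0) (p (nat_lit 0x89890a888a1a) (nat_lit 0) (p (nat_lit 0x109088a08079a) (nat_lit 0) (p (nat_lit 0x88880987871a) (nat_lit 0) (p (nat_lit 0x8000080000000080907088a) (nat_lit 0) (p (nat_lit 0x8000080000000078886860a) (nat_lit 0) (p (nat_lit 0x10688060782) (nat_lit 0) (p (nat_lit 0x8607858702) (nat_lit 0) (p (nat_lit 0x10587050482) (nat_lit 0) (p (nat_lit 0x8506848402) (nat_lit 0) (p (nat_lit 0x160004) (nat_lit 0) (p (nat_lit 0x50612) (nat_lit 0) (p (nat_lit 0x40592) (nat_lit 0) (p (nat_lit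 0x40492) (nat_lit 0) (p (nat_lit 0x30412) (nat_lit 0) (p (nat_lit 0x30212) (nat_lit 0) (p (nat_lit 0x20192) (nat_lit 0) (p (nat_lit 0x20092) (nat_lit 0) (p (nat_lit 0x10012) (nat_lit 0) pn)))))))))))))))))))))))))) :=
  Cl.node (nat_lit 0x200014) (nat_lit 2) (by decide +kernel) (ClAll.succ (ClAll.succ ClAll.zero n64) s133)

def n93 : Cl (O (nat_lit 6)) (R (nat_lit 104465))
    (p (nat_lit 0xc9) (nat_lit 0) (p (nat_lit 0x89) (nat_lit 1) (p (nat_lit 0x101) (nat_lit 1) (p (nat_lit 0x111) (nat_lit 0) (p (nat_lit 0xd1) (nat_lit 1) (p (nat_lit 0x81) (nat_lit 0) (p (nat_lit 0x41) (nat_lit 1) (p (nat_lit 0x10a098b090a9a) (nat_lit 0) (p (nat_lit 0x89890a888a1a) (nat_lit 0) (p (nat_lit 0x109088a08079a) (nat_lit 0) (p (nat_lit 0x88880987871a) (nat_lit 0) (p (nat_lit 0x8000080000000080907088a) (nat_lit 0) (p (nat_lit 0x8000080000000078886860a) (nat_lit 0) (p (nat_lit 0x10688060782) (nat_lit 0) (p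 (nat_lit 0x8607858702) (nat_lit 0) (p (nat_lit 0x10587050482) (nat_lit 0) (p (nat_lit 0x8506848402) (nat_lit 0) (p (nat_lit 0x160004) (nat_lit 0) (p (nat_lit 0x50612) (nat_lit 0) (p (nat_lit 0x40592) (nat_lit 0) (p (nat_lit 0x40492) (nat_lit 0) (p (nat_lit 0x30412) (nat_lit 0) (p (nat_lit 0x30212) (nat_lit 0) (p (nat_lit 0x20192) (nat_lit 0) (p (nat_lit 0x20092) (nat_lit 0) (p (nat_lit 0x10012) (nat_lit 0) pn)))))))))))))))))))))))))) :=
  Cl.node (nat_lit 0x20000c) (nat_lit 2) (by decide +kernel) (ClAll.succ (ClAll.succ ClAll.zero n65) s138)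

def n94 : Cl (O (nat_lit 6)) (R (nat_lit 104465))
    (p (nat_lit 0xd1) (nat_lit 0) (p (nat_lit 0xc9) (nat_lit 0) (p (nat_lit 0x101) (nat_lit 1) (p (nat_lit 0x119) (nat_lit 0) (p (nat_lit 0xc1) (nat_lit 0) (p (nat_lit 0x81) (nat_lit 1) (p (nat_lit 0x41) (nat_lit 1) (p (nat_lit 0x10a098b090a9a) (nat_lit 0) (p (nat_lit 0x89890a888a1a) (nat_lit 0) (p (nat_lit 0x109088a08079a) (nat_lit 0) (p (nat_lit 0x88880987871a) (nat_lit 0) (p (nat_lit 0x8000080000000080907088a) (nat_lit 0) (p (nat_lit 0x8000080000000078886860a) (nat_lit 0) (p (nat_lit 0x10688060782) (nat_lit 0) (p (nat_lit 0x8607858702) (nat_lit 0) (p (nat_lit 0x10587050482) (nat_lit 0) (p (nat_lit 0x8506848402) (nat_lit 0) (p (nat_lit 0x160004) (nat_lit 0) (p (nat_lit 0x50612) (nat_lit 0) (p (nat_lit 0x40592) (nat_lit 0) (p (nat_lit 0x40492) (nat_lit 0) (p (nat_lit 0x30412) (nat_lit 0) (p (nat_lit 0x30212) (nat_lit 0) (p (nat_lit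 0x20192) (nat_lit 0) (p (nat_lit 0x20092) (nat_lit 0) (p (nat_lit 0x10012) (nat_lit 0) pn)))))))))))))))))))))))))) :=
  Cl.node (nat_lit 0x20000c) (nat_lit 2) (by decide +kernel) (ClAll.succ (ClAll.succ ClAll.zero n66) s148)

def n95 : Cl (O (nat_lit 6)) (R (nat_lit 104465))
    (p (nat_lit 0xd1) (nat_lit 1) (p (nat_lit 0xc9) (nat_lit 0) (p (nat_lit 0x101) (nat_lit 1) (p (nat_lit 0x119) (nat_lit 0) (p (nat_lit 0xc1) (nat_lit 0) (p (nat_lit 0x81) (nat_lit 1) (p (nat_lit 0x41) (nat_lit 1) (p (nat_lit 0x10a098b090a9a) (nat_lit 0) (p (nat_lit 0x89890a888a1a) (nat_lit 0) (p (nat_lit 0x109088a08079a) (nat_lit 0) (p (nat_lit 0x88880987871a) (nat_lit 0) (p (nat_lit 0x8000080000000080907088a) (nat_lit 0) (p (nat_lit 0x8000080000000078886860a) (nat_lit 0) (p (nat_lit 0x10688060782) (nat_lit 0) (p (nat_lit 0x8607858702) (nat_lit 0) (p (nat_lit 0x10587050482) (nat_lit 0) (p (nat_lit 0x8506848402)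 (nat_lit 0) (p (nat_lit 0x160004) (nat_lit 0) (p (nat_lit 0x50612) (nat_lit 0) (p (nat_lit 0x40592) (nat_lit 0) (p (nat_lit 0x40492) (nat_lit 0) (p (nat_lit 0x30412) (nat_lit 0) (p (nat_lit 0x30212) (nat_lit 0) (p (nat_lit 0x20192) (nat_lit 0) (p (nat_lit 0x20092) (nat_lit 0) (p (nat_lit 0x10012) (nat_lit 0) pn)))))))))))))))))))))))))) :=
  Cl.node (nat_lit 0x20000c) (nat_lit 2) (by decide +kernel) (ClAll.succ (ClAll.succ ClAll.zero n67) s152)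

def n96 : Cl (O (nat_lit 6)) (R (nat_lit 104465))
    (p (nat_lit 0x111) (nat_lit 1) (p (nat_lit 0x109) (nat_lit 0) (p (nat_lit 0xc9) (nat_lit 1) (p (nat_lit 0x119) (nat_lit 1) (p (nat_lit 0xc1) (nat_lit 0) (p (nat_lit 0x81) (nat_lit 1) (p (nat_lit 0x41) (nat_lit 1) (p (nat_lit 0x10a098b090a9a) (nat_lit 0) (p (nat_lit 0x89890a888a1a) (nat_lit 0) (p (nat_lit 0x109088a08079a) (nat_lit 0) (p (nat_lit 0x88880987871a) (nat_lit 0) (p (nat_lit 0x8000080000000080907088a) (nat_lit 0) (p (nat_lit 0x8000080000000078886860a) (nat_lit 0) (p (nat_lit 0x10688060782) (nat_lit 0) (p (nat_lit 0x8607858702) (nat_lit 0) (p (nat_lit 0x10587050482) (nat_lit 0) (p (nat_lit 0x8506848402) (nat_lit 0) (p (nat_lit 0x160004) (nat_lit 0) (p (nat_lit 0x50612) (nat_lit 0) (p (nat_lit 0x40592) (nat_lit 0) (p (nat_lit 0x40492) (nat_lit 0) (p (nat_lit 0x30412) (nat_lit 0) (p (nat_lit 0x30212) (nat_lit 0) (p (nat_lit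 0x20192) (nat_lit 0) (p (nat_lit 0x20092) (nat_lit 0) (p (nat_lit 0x10012) (nat_lit 0) pn)))))))))))))))))))))))))) :=
  Cl.node (nat_lit 0x20000c) (nat_lit 2) (by decide +kernel) (ClAll.succ (ClAll.succ ClAll.zero n68) s159)

def n97 : Cl (O (nat_lit 6)) (R (nat_lit 104465))
    (p (nat_lit 0x109) (nat_lit 1) (p (nat_lit 0x101) (nat_lit 0) (p (nat_lit 0x119) (nat_lit 0) (p (nat_lit 0xd1) (nat_lit 0) (p (nat_lit 0x89) (nat_lit 0) (p (nat_lit 0x41) (nat_lit 0) (p (nat_lit 0x10a098b090a9a) (nat_lit 0) (p (nat_lit 0x89890a888a1a) (nat_lit 0) (p (nat_lit 0x109088a08079a) (nat_lit 0) (p (nat_lit 0x88880987871a) (nat_lit 0) (p (nat_lit 0x8000080000000080907088a) (nat_lit 0) (p (nat_lit 0x8000080000000078886860a) (nat_lit 0) (p (nat_lit 0x10688060782) (nat_lit 0) (p (nat_lit 0x8607858702) (nat_lit 0) (p (nat_lit 0x10587050482) (nat_lit 0) (p (nat_lit 0x8506848402) (nat_lit 0) (p (nat_lit 0x160004)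 (nat_lit 0) (p (nat_lit 0x50612) (nat_lit 0) (p (nat_lit 0x40592) (nat_lit 0) (p (nat_lit 0x40492) (nat_lit 0) (p (nat_lit 0x30412) (nat_lit 0) (p (nat_lit 0x30212) (nat_lit 0) (p (nat_lit 0x20192) (nat_lit 0) (p (nat_lit 0x20092) (nat_lit 0) (p (nat_lit 0x10012) (nat_lit 0) pn))))))))))))))))))))))))) :=
  Cl.node (nat_lit 0xc9) (nat_lit 2) (by decide +kernel) (ClAll.succ (ClAll.succ ClAll.zero s1) n69)

def n98 : Cl (O (nat_lit 6)) (R (nat_lit 104465))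
    (p (nat_lit 0x81) (nat_lit 0) (p (nat_lit 0x101) (nat_lit 1) (p (nat_lit 0x119) (nat_lit 0) (p (nat_lit 0xd1) (nat_lit 0) (p (nat_lit 0x89) (nat_lit 0) (p (nat_lit 0x41) (nat_lit 0) (p (nat_lit 0x10a098b090a9a) (nat_lit 0) (p (nat_lit 0x89890a888a1a) (nat_lit 0) (p (nat_lit 0x109088a08079a) (nat_lit 0) (p (nat_lit 0x88880987871a) (nat_lit 0) (p (nat_lit 0x8000080000000080907088a) (nat_lit 0) (p (nat_lit 0x8000080000000078886860a) (nat_lit 0) (p (nat_lit 0x10688060782) (nat_lit 0) (p (nat_lit 0x8607858702) (nat_lit 0) (p (nat_lit 0x10587050482) (nat_lit 0) (p (nat_lit 0x8506848402) (nat_lit 0) (p (nat_lit 0x160004) (nat_lit 0) (p (nat_lit 0x50612) (nat_lit 0) (p (nat_lit 0x40592) (nat_lit 0) (p (nat_lit 0x40492) (nat_lit 0) (p (nat_lit 0x30412) (nat_lit 0) (p (nat_lit 0x30212) (nat_lit 0) (p (nat_lit 0x20192) (nat_lit 0) (p (nat_lit 0x20092) (nat_lit 0) (p (nat_lit 0x10012) (nat_lit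 0) pn))))))))))))))))))))))))) :=
  Cl.node (nat_lit 0xc9) (nat_lit 2) (by decide +kernel) (ClAll.succ (ClAll.succ ClAll.zero s5) n70)

def n99 : Cl (O (nat_lit 6)) (R (nat_lit 104465))
    (p (nat_lit 0x81) (nat_lit 1) (p (nat_lit 0x101) (nat_lit 1) (p (nat_lit 0x119) (nat_lit 0) (p (nat_lit 0xd1) (nat_lit 0) (p (nat_lit 0x89) (nat_lit 0) (p (nat_lit 0x41) (nat_lit 0) (p (nat_lit 0x10a098b090a9a) (nat_lit 0) (p (nat_lit 0x89890a888a1a) (nat_lit 0) (p (nat_lit 0x109088a08079a) (nat_lit 0) (p (nat_lit 0x88880987871a) (nat_lit 0) (p (nat_lit 0x8000080000000080907088a) (nat_lit 0) (p (nat_lit 0x8000080000000078886860a) (nat_lit 0) (p (nat_lit 0x10688060782) (nat_lit 0) (p (nat_lit 0x8607858702) (nat_lit 0) (p (nat_lit 0x10587050482) (nat_lit 0) (p (nat_lit 0x8506848402) (nat_lit 0) (p (nat_lit 0x160004) (nat_lit 0) (p (nat_lit 0x50612) (nat_lit 0) (p (nat_lit 0x40592) (nat_lit 0) (p (nat_lit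 0x40492) (nat_lit 0) (p (nat_lit 0x30412) (nat_lit 0) (p (nat_lit 0x30212) (nat_lit 0) (p (nat_lit 0x20192) (nat_lit 0) (p (nat_lit 0x20092) (nat_lit 0) (p (nat_lit 0x10012) (nat_lit 0) pn))))))))))))))))))))))))) :=
  Cl.node (nat_lit 0xc1) (nat_lit 2) (by decide +kernel) (ClAll.succ (ClAll.succ ClAll.zero n71) s16)

def n100 : Cl (O (nat_lit 6)) (R (nat_lit 104465))
    (p (nat_lit 0x81) (nat_lit 1) (p (nat_lit 0xc1) (nat_lit 1) (p (nat_lit 0x119) (nat_lit 1) (p (nat_lit 0xd1) (nat_lit 0) (p (nat_lit 0x89) (nat_lit 0) (p (nat_lit 0x41) (nat_lit 0) (p (nat_lit 0x10a098b090a9a) (nat_lit 0) (p (nat_lit 0x89890a888a1a) (nat_lit 0) (p (nat_lit 0x109088a08079a) (nat_lit 0) (p (nat_lit 0x88880987871a) (nat_lit 0) (p (nat_lit 0x8000080000000080907088a) (nat_lit 0) (p (nat_lit 0x8000080000000078886860a) (nat_lit 0) (p (nat_lit 0x10688060782) (nat_lit 0) (p (nat_lit 0x8607858702) (nat_lit 0)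 (p (nat_lit 0x10587050482) (nat_lit 0) (p (nat_lit 0x8506848402) (nat_lit 0) (p (nat_lit 0x160004) (nat_lit 0) (p (nat_lit 0x50612) (nat_lit 0) (p (nat_lit 0x40592) (nat_lit 0) (p (nat_lit 0x40492) (nat_lit 0) (p (nat_lit 0x30412) (nat_lit 0) (p (nat_lit 0x30212) (nat_lit 0) (p (nat_lit 0x20192) (nat_lit 0) (p (nat_lit 0x20092) (nat_lit 0) (p (nat_lit 0x10012) (nat_lit 0) pn))))))))))))))))))))))))) :=
  Cl.node (nat_lit 0x101) (nat_lit 2) (by decide +kernel) (ClAll.succ (ClAll.succ ClAll.zero n72) s26)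

def n101 : Cl (O (nat_lit 6)) (R (nat_lit 104465))
    (p (nat_lit 0x109) (nat_lit 1) (p (nat_lit 0x101) (nat_lit 0) (p (nat_lit 0x111) (nat_lit 0) (p (nat_lit 0xd1) (nat_lit 1) (p (nat_lit 0x89) (nat_lit 0) (p (nat_lit 0x41) (nat_lit 0) (p (nat_lit 0x10a098b090a9a) (nat_lit 0) (p (nat_lit 0x89890a888a1a) (nat_lit 0) (p (nat_lit 0x109088a08079a) (nat_lit 0) (p (nat_lit 0x88880987871a) (nat_lit 0) (p (nat_lit 0x8000080000000080907088a) (nat_lit 0) (p (nat_lit 0x8000080000000078886860a) (nat_lit 0) (p (nat_lit 0x10688060782) (nat_lit 0) (p (nat_lit 0x8607858702) (nat_lit 0) (p (nat_lit 0x10587050482) (nat_lit 0) (p (nat_lit 0x8506848402) (nat_lit 0) (p (nat_lit 0x160004) (nat_lit 0) (p (nat_lit 0x50612) (nat_lit 0) (p (nat_lit 0x40592) (nat_lit 0) (p (nat_lit 0x40492) (nat_lit 0) (p (nat_lit 0x30412) (nat_lit 0) (p (nat_lit 0x30212) (nat_lit 0) (p (nat_lit 0x20192) (nat_lit 0) (p (nat_lit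 0x20092) (nat_lit 0) (p (nat_lit 0x10012) (nat_lit 0) pn))))))))))))))))))))))))) :=
  Cl.node (nat_lit 0x20000c) (nat_lit 2) (by decide +kernel) (ClAll.succ (ClAll.succ ClAll.zero n73) s31)

def n102 : Cl (O (nat_lit 6)) (R (nat_lit 104465))
    (p (nat_lit 0x81) (nat_lit 0) (p (nat_lit 0x101) (nat_lit 1) (p (nat_lit 0x111) (nat_lit 0) (p (nat_lit 0xd1) (nat_lit 1) (p (nat_lit 0x89) (nat_lit 0) (p (nat_lit 0x41) (nat_lit 0) (p (nat_lit 0x10a098b090a9a) (nat_lit 0) (p (nat_lit 0x89890a888a1a) (nat_lit 0) (p (nat_lit 0x109088a08079a) (nat_lit 0) (p (nat_lit 0x88880987871a) (nat_lit 0) (p (nat_lit 0x8000080000000080907088a) (nat_lit 0) (p (nat_lit 0x8000080000000078886860a) (nat_lit 0) (p (nat_lit 0x10688060782) (nat_lit 0) (p (nat_lit 0x8607858702) (nat_lit 0) (p (nat_lit 0x10587050482) (nat_lit 0) (p (nat_lit 0x8506848402) (nat_lit 0) (p (nat_lit 0x160004) (nat_lit 0) (p (nat_lit 0x50612)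 (nat_lit 0) (p (nat_lit 0x40592) (nat_lit 0) (p (nat_lit 0x40492) (nat_lit 0) (p (nat_lit 0x30412) (nat_lit 0) (p (nat_lit 0x30212) (nat_lit 0) (p (nat_lit 0x20192) (nat_lit 0) (p (nat_lit 0x20092) (nat_lit 0) (p (nat_lit 0x10012) (nat_lit 0) pn))))))))))))))))))))))))) :=
  Cl.node (nat_lit 0x20000c) (nat_lit 2) (by decide +kernel) (ClAll.succ (ClAll.succ ClAll.zero n74) s34)

def n103 : Cl (O (nat_lit 6)) (R (nat_lit 104465))
    (p (nat_lit 0x81) (nat_lit 1) (p (nat_lit 0x101) (nat_lit 1) (p (nat_lit 0x111) (nat_lit 0) (p (nat_lit 0xd1) (nat_lit 1) (p (nat_lit 0x89) (nat_lit 0) (p (nat_lit 0x41) (nat_lit 0) (p (nat_lit 0x10a098b090a9a) (nat_lit 0) (p (nat_lit 0x89890a888a1a) (nat_lit 0) (p (nat_lit 0x109088a08079a) (nat_lit 0) (p (nat_lit 0x88880987871a) (nat_lit 0) (p (nat_lit 0x8000080000000080907088a) (nat_lit 0) (p (nat_lit 0x8000080000000078886860a) (nat_lit 0) (p (nat_lit 0x10688060782)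 (nat_lit 0) (p (nat_lit 0x8607858702) (nat_lit 0) (p (nat_lit 0x10587050482) (nat_lit 0) (p (nat_lit 0x8506848402) (nat_lit 0) (p (nat_lit 0x160004) (nat_lit 0) (p (nat_lit 0x50612) (nat_lit 0) (p (nat_lit 0x40592) (nat_lit 0) (p (nat_lit 0x40492) (nat_lit 0) (p (nat_lit 0x30412) (nat_lit 0) (p (nat_lit 0x30212) (nat_lit 0) (p (nat_lit 0x20192) (nat_lit 0) (p (nat_lit 0x20092) (nat_lit 0) (p (nat_lit 0x10012) (nat_lit 0) pn))))))))))))))))))))))))) :=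
  Cl.node (nat_lit 0xc1) (nat_lit 2) (by decide +kernel) (ClAll.succ (ClAll.succ ClAll.zero n75) s41)

def n104 : Cl (O (nat_lit 6)) (R (nat_lit 104465))
    (p (nat_lit 0x109) (nat_lit 0) (p (nat_lit 0x101) (nat_lit 0) (p (nat_lit 0x119) (nat_lit 0) (p (nat_lit 0xc9) (nat_lit 0) (p (nat_lit 0x89) (nat_lit 1) (p (nat_lit 0x41) (nat_lit 0) (p (nat_lit 0x10a098b090a9a) (nat_lit 0) (p (nat_lit 0x89890a888a1a) (nat_lit 0) (p (nat_lit 0x109088a08079a) (nat_lit 0) (p (nat_lit 0x88880987871a) (nat_lit 0) (p (nat_lit 0x8000080000000080907088a) (nat_lit 0) (p (nat_lit 0x8000080000000078886860a) (nat_lit 0) (p (nat_lit 0x10688060782) (nat_lit 0) (p (nat_lit 0x8607858702) (nat_lit 0) (p (nat_lit 0x10587050482) (nat_lit 0) (p (nat_lit 0x8506848402) (nat_lit 0) (p (nat_lit 0x160004) (nat_lit 0) (p (nat_lit 0x50612) (nat_lit 0) (p (nat_lit 0x40592) (nat_lit 0) (p (nat_lit 0x40492) (nat_lit 0) (p (nat_lit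 0x30412) (nat_lit 0) (p (nat_lit 0x30212) (nat_lit 0) (p (nat_lit 0x20192) (nat_lit 0) (p (nat_lit 0x20092) (nat_lit 0) (p (nat_lit 0x10012) (nat_lit 0) pn))))))))))))))))))))))))) :=
  Cl.node (nat_lit 0x111) (nat_lit 2) (by decide +kernel) (ClAll.succ (ClAll.succ ClAll.zero s43) n76)

def n105 : Cl (O (nat_lit 6)) (R (nat_lit 104465))
    (p (nat_lit 0x109) (nat_lit 1) (p (nat_lit 0x101) (nat_lit 0) (p (nat_lit 0x119) (nat_lit 0) (p (nat_lit 0xc9) (nat_lit 0) (p (nat_lit 0x89) (nat_lit 1) (p (nat_lit 0x41) (nat_lit 0) (p (nat_lit 0x10a098b090a9a) (nat_lit 0) (p (nat_lit 0x89890a888a1a) (nat_lit 0) (p (nat_lit 0x109088a08079a) (nat_lit 0) (p (nat_lit 0x88880987871a) (nat_lit 0) (p (nat_lit 0x8000080000000080907088a) (nat_lit 0) (p (nat_lit 0x8000080000000078886860a) (nat_lit 0) (p (nat_lit 0x10688060782) (nat_lit 0) (p (nat_lit 0x8607858702) (nat_lit 0) (p (nat_lit 0x10587050482) (nat_lit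 0) (p (nat_lit 0x8506848402) (nat_lit 0) (p (nat_lit 0x160004) (nat_lit 0) (p (nat_lit 0x50612) (nat_lit 0) (p (nat_lit 0x40592) (nat_lit 0) (p (nat_lit 0x40492) (nat_lit 0) (p (nat_lit 0x30412) (nat_lit 0) (p (nat_lit 0x30212) (nat_lit 0) (p (nat_lit 0x20192) (nat_lit 0) (p (nat_lit 0x20092) (nat_lit 0) (p (nat_lit 0x10012) (nat_lit 0) pn))))))))))))))))))))))))) :=
  Cl.node (nat_lit 0xd1) (nat_lit 2) (by decide +kernel) (ClAll.succ (ClAll.succ ClAll.zero n77) n78)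

def n106 : Cl (O (nat_lit 6)) (R (nat_lit 104465))
    (p (nat_lit 0xc1) (nat_lit 0) (p (nat_lit 0x101) (nat_lit 1) (p (nat_lit 0x119) (nat_lit 0) (p (nat_lit 0xc9) (nat_lit 0) (p (nat_lit 0x89) (nat_lit 1) (p (nat_lit 0x41) (nat_lit 0) (p (nat_lit 0x10a098b090a9a) (nat_lit 0) (p (nat_lit 0x89890a888a1a) (nat_lit 0) (p (nat_lit 0x109088a08079a) (nat_lit 0) (p (nat_lit 0x88880987871a) (nat_lit 0) (p (nat_lit 0x8000080000000080907088a) (nat_lit 0) (p (nat_lit 0x8000080000000078886860a) (nat_lit 0) (p (nat_lit 0x10688060782) (nat_lit 0) (p (nat_lit 0x8607858702) (nat_lit 0) (p (nat_lit 0x10587050482) (nat_lit 0) (p (nat_lit 0x8506848402) (nat_lit 0) (p (nat_lit 0x160004) (nat_lit 0) (p (nat_lit 0x50612) (nat_lit 0) (p (nat_lit 0x40592) (nat_lit 0) (p (nat_lit 0x40492) (nat_lit 0) (p (nat_lit 0x30412) (nat_lit 0) (p (nat_lit 0x30212) (nat_lit 0) (p (nat_lit 0x20192) (nat_lit 0) (p (nat_lit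 0x20092) (nat_lit 0) (p (nat_lit 0x10012) (nat_lit 0) pn))))))))))))))))))))))))) :=
  Cl.node (nat_lit 0xd1) (nat_lit 2) (by decide +kernel) (ClAll.succ (ClAll.succ ClAll.zero n79) n80)

def n107 : Cl (O (nat_lit 6)) (R (nat_lit 104465))
    (p (nat_lit 0xd1) (nat_lit 1) (p (nat_lit 0xc1) (nat_lit 0) (p (nat_lit 0x119) (nat_lit 1) (p (nat_lit 0xc9) (nat_lit 0) (p (nat_lit 0x89) (nat_lit 1) (p (nat_lit 0x41) (nat_lit 0) (p (nat_lit 0x10a098b090a9a) (nat_lit 0) (p (nat_lit 0x89890a888a1a) (nat_lit 0) (p (nat_lit 0x109088a08079a) (nat_lit 0) (p (nat_lit 0x88880987871a) (nat_lit 0) (p (nat_lit 0x8000080000000080907088a) (nat_lit 0) (p (nat_lit 0x8000080000000078886860a) (nat_lit 0) (p (nat_lit 0x10688060782) (nat_lit 0) (p (nat_lit 0x8607858702) (nat_lit 0) (p (nat_lit 0x10587050482) (nat_lit 0) (p (nat_lit 0x8506848402) (nat_lit 0) (p (nat_lit 0x160004) (nat_lit 0) (p (nat_lit 0x50612)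 (nat_lit 0) (p (nat_lit 0x40592) (nat_lit 0) (p (nat_lit 0x40492) (nat_lit 0) (p (nat_lit 0x30412) (nat_lit 0) (p (nat_lit 0x30212) (nat_lit 0) (p (nat_lit 0x20192) (nat_lit 0) (p (nat_lit 0x20092) (nat_lit 0) (p (nat_lit 0x10012) (nat_lit 0) pn))))))))))))))))))))))))) :=
  Cl.node (nat_lit 0x111) (nat_lit 2) (by decide +kernel) (ClAll.succ (ClAll.succ ClAll.zero s70) n81)

def n108 : Cl (O (nat_lit 6)) (R (nat_lit 104465))
    (p (nat_lit 0x101) (nat_lit 0) (p (nat_lit 0xc1) (nat_lit 1) (p (nat_lit 0x119) (nat_lit 1) (p (nat_lit 0xc9) (nat_lit 0) (p (nat_lit 0x89) (nat_lit 1) (p (nat_lit 0x41) (nat_lit 0) (p (nat_lit 0x10a098b090a9a) (nat_lit 0) (p (nat_lit 0x89890a888a1a) (nat_lit 0) (p (nat_lit 0x109088a08079a) (nat_lit 0) (p (nat_lit 0x88880987871a) (nat_lit 0) (p (nat_lit 0x8000080000000080907088a) (nat_lit 0) (p (nat_lit 0x8000080000000078886860a) (nat_lit 0) (p (nat_lit 0x10688060782)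 (nat_lit 0) (p (nat_lit 0x8607858702) (nat_lit 0) (p (nat_lit 0x10587050482) (nat_lit 0) (p (nat_lit 0x8506848402) (nat_lit 0) (p (nat_lit 0x160004) (nat_lit 0) (p (nat_lit 0x50612) (nat_lit 0) (p (nat_lit 0x40592) (nat_lit 0) (p (nat_lit 0x40492) (nat_lit 0) (p (nat_lit 0x30412) (nat_lit 0) (p (nat_lit 0x30212) (nat_lit 0) (p (nat_lit 0x20192) (nat_lit 0) (p (nat_lit 0x20092) (nat_lit 0) (p (nat_lit 0x10012) (nat_lit 0) pn))))))))))))))))))))))))) :=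
  Cl.node (nat_lit 0x111) (nat_lit 2) (by decide +kernel) (ClAll.succ (ClAll.succ ClAll.zero n82) n83)

def n109 : Cl (O (nat_lit 6)) (R (nat_lit 104465))
    (p (nat_lit 0x109) (nat_lit 1) (p (nat_lit 0x101) (nat_lit 0) (p (nat_lit 0x119) (nat_lit 0) (p (nat_lit 0xd1) (nat_lit 0) (p (nat_lit 0x81) (nat_lit 0) (p (nat_lit 0x41) (nat_lit 1) (p (nat_lit 0x10a098b090a9a) (nat_lit 0) (p (nat_lit 0x89890a888a1a) (nat_lit 0) (p (nat_lit 0x109088a08079a) (nat_lit 0) (p (nat_lit 0x88880987871a) (nat_lit 0) (p (nat_lit 0x8000080000000080907088a) (nat_lit 0) (p (nat_lit 0x8000080000000078886860a) (nat_lit 0) (p (nat_lit 0x10688060782) (nat_lit 0) (p (nat_lit 0x8607858702) (nat_lit 0) (p (nat_lit 0x10587050482) (nat_lit 0) (p (nat_lit 0x8506848402) (nat_lit 0) (p (nat_lit 0x160004) (nat_lit 0) (p (nat_lit 0x50612) (nat_lit 0) (p (nat_lit 0x40592) (nat_lit 0) (p (nat_lit 0x40492) (nat_lit 0) (p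 (nat_lit 0x30412) (nat_lit 0) (p (nat_lit 0x30212) (nat_lit 0) (p (nat_lit 0x20192) (nat_lit 0) (p (nat_lit 0x20092) (nat_lit 0) (p (nat_lit 0x10012) (nat_lit 0) pn))))))))))))))))))))))))) :=
  Cl.node (nat_lit 0x89) (nat_lit 2) (by decide +kernel) (ClAll.succ (ClAll.succ ClAll.zero n84) n85)

def n110 : Cl (O (nat_lit 6)) (R (nat_lit 104465))
    (p (nat_lit 0xc1) (nat_lit 0) (p (nat_lit 0x101) (nat_lit 1) (p (nat_lit 0x119) (nat_lit 0) (p (nat_lit 0xd1) (nat_lit 0) (p (nat_lit 0x81) (nat_lit 0) (p (nat_lit 0x41) (nat_lit 1) (p (nat_lit 0x10a098b090a9a) (nat_lit 0) (p (nat_lit 0x89890a888a1a) (nat_lit 0) (p (nat_lit 0x109088a08079a) (nat_lit 0) (p (nat_lit 0x88880987871a) (nat_lit 0) (p (nat_lit 0x8000080000000080907088a) (nat_lit 0) (p (nat_lit 0x8000080000000078886860a) (nat_lit 0) (p (nat_lit 0x10688060782) (nat_lit 0) (p (nat_lit 0x8607858702) (nat_lit 0) (p (nat_lit 0x10587050482)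 (nat_lit 0) (p (nat_lit 0x8506848402) (nat_lit 0) (p (nat_lit 0x160004) (nat_lit 0) (p (nat_lit 0x50612) (nat_lit 0) (p (nat_lit 0x40592) (nat_lit 0) (p (nat_lit 0x40492) (nat_lit 0) (p (nat_lit 0x30412) (nat_lit 0) (p (nat_lit 0x30212) (nat_lit 0) (p (nat_lit 0x20192) (nat_lit 0) (p (nat_lit 0x20092) (nat_lit 0) (p (nat_lit 0x10012) (nat_lit 0) pn))))))))))))))))))))))))) :=
  Cl.node (nat_lit 0x89) (nat_lit 2) (by decide +kernel) (ClAll.succ (ClAll.succ ClAll.zero s94) n86)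

def n111 : Cl (O (nat_lit 6)) (R (nat_lit 104465))
    (p (nat_lit 0xc1) (nat_lit 1) (p (nat_lit 0x101) (nat_lit 1) (p (nat_lit 0x119) (nat_lit 0) (p (nat_lit 0xd1) (nat_lit 0) (p (nat_lit 0x81) (nat_lit 0) (p (nat_lit 0x41) (nat_lit 1) (p (nat_lit 0x10a098b090a9a) (nat_lit 0) (p (nat_lit 0x89890a888a1a) (nat_lit 0) (p (nat_lit 0x109088a08079a) (nat_lit 0) (p (nat_lit 0x88880987871a) (nat_lit 0) (p (nat_lit 0x8000080000000080907088a) (nat_lit 0) (p (nat_lit 0x8000080000000078886860a) (nat_lit 0) (p (nat_lit 0x10688060782) (nat_lit 0) (p (nat_lit 0x8607858702) (nat_lit 0) (p (nat_lit 0x10587050482) (nat_lit 0) (p (nat_lit 0x8506848402) (nat_lit 0) (p (nat_lit 0x160004) (nat_lit 0) (p (nat_lit 0x50612) (nat_lit 0) (p (nat_lit 0x40592) (nat_lit 0) (p (nat_lit 0x40492) (nat_lit 0) (p (nat_lit 0x30412) (nat_lit 0) (p (nat_lit 0x30212) (nat_lit 0) (p (nat_lit 0x20192) (nat_lit 0) (p (nat_lit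 0x20092) (nat_lit 0) (p (nat_lit 0x10012) (nat_lit 0) pn))))))))))))))))))))))))) :=
  Cl.node (nat_lit 0x89) (nat_lit 2) (by decide +kernel) (ClAll.succ (ClAll.succ ClAll.zero s102) n87)

def n112 : Cl (O (nat_lit 6)) (R (nat_lit 104465))
    (p (nat_lit 0xc9) (nat_lit 1) (p (nat_lit 0xc1) (nat_lit 0) (p (nat_lit 0x119) (nat_lit 1) (p (nat_lit 0xd1) (nat_lit 0) (p (nat_lit 0x81) (nat_lit 0) (p (nat_lit 0x41) (nat_lit 1) (p (nat_lit 0x10a098b090a9a) (nat_lit 0) (p (nat_lit 0x89890a888a1a) (nat_lit 0) (p (nat_lit 0x109088a08079a) (nat_lit 0) (p (nat_lit 0x88880987871a) (nat_lit 0) (p (nat_lit 0x8000080000000080907088a) (nat_lit 0) (p (nat_lit 0x8000080000000078886860a) (nat_lit 0) (p (nat_lit 0x10688060782) (nat_lit 0) (p (nat_lit 0x8607858702) (nat_lit 0) (p (nat_lit 0x10587050482) (nat_lit 0) (p (nat_lit 0x8506848402) (nat_lit 0) (p (nat_lit 0x160004) (nat_lit 0) (p (nat_lit 0x50612)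 (nat_lit 0) (p (nat_lit 0x40592) (nat_lit 0) (p (nat_lit 0x40492) (nat_lit 0) (p (nat_lit 0x30412) (nat_lit 0) (p (nat_lit 0x30212) (nat_lit 0) (p (nat_lit 0x20192) (nat_lit 0) (p (nat_lit 0x20092) (nat_lit 0) (p (nat_lit 0x10012) (nat_lit 0) pn))))))))))))))))))))))))) :=
  Cl.node (nat_lit 0x89) (nat_lit 2) (by decide +kernel) (ClAll.succ (ClAll.succ ClAll.zero s110) n88)

def n113 : Cl (O (nat_lit 6)) (R (nat_lit 104465))
    (p (nat_lit 0x101) (nat_lit 0) (p (nat_lit 0xc1) (nat_lit 1) (p (nat_lit 0x119) (nat_lit 1) (p (nat_lit 0xd1) (nat_lit 0) (p (nat_lit 0x81) (nat_lit 0) (p (nat_lit 0x41) (nat_lit 1) (p (nat_lit 0x10a098b090a9a) (nat_lit 0) (p (nat_lit 0x89890a888a1a) (nat_lit 0) (p (nat_lit 0x109088a08079a) (nat_lit 0) (p (nat_lit 0x88880987871a) (nat_lit 0) (p (nat_lit 0x8000080000000080907088a) (nat_lit 0) (p (nat_lit 0x8000080000000078886860a) (nat_lit 0) (p (nat_lit 0x10688060782)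 (nat_lit 0) (p (nat_lit 0x8607858702) (nat_lit 0) (p (nat_lit 0x10587050482) (nat_lit 0) (p (nat_lit 0x8506848402) (nat_lit 0) (p (nat_lit 0x160004) (nat_lit 0) (p (nat_lit 0x50612) (nat_lit 0) (p (nat_lit 0x40592) (nat_lit 0) (p (nat_lit 0x40492) (nat_lit 0) (p (nat_lit 0x30412) (nat_lit 0) (p (nat_lit 0x30212) (nat_lit 0) (p (nat_lit 0x20192) (nat_lit 0) (p (nat_lit 0x20092) (nat_lit 0) (p (nat_lit 0x10012) (nat_lit 0) pn))))))))))))))))))))))))) :=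
  Cl.node (nat_lit 0x89) (nat_lit 2) (by decide +kernel) (ClAll.succ (ClAll.succ ClAll.zero s113) n89)

def n114 : Cl (O (nat_lit 6)) (R (nat_lit 104465))
    (p (nat_lit 0x101) (nat_lit 1) (p (nat_lit 0xc1) (nat_lit 1) (p (nat_lit 0x119) (nat_lit 1) (p (nat_lit 0xd1) (nat_lit 0) (p (nat_lit 0x81) (nat_lit 0) (p (nat_lit 0x41) (nat_lit 1) (p (nat_lit 0x10a098b090a9a) (nat_lit 0) (p (nat_lit 0x89890a888a1a) (nat_lit 0) (p (nat_lit 0x109088a08079a) (nat_lit 0) (p (nat_lit 0x88880987871a) (nat_lit 0) (p (nat_lit 0x8000080000000080907088a) (nat_lit 0) (p (nat_lit 0x8000080000000078886860a) (nat_lit 0) (p (nat_lit 0x10688060782) (nat_lit 0) (p (nat_lit 0x8607858702) (nat_lit 0) (p (nat_lit 0x10587050482) (nat_lit 0) (p (nat_lit 0x8506848402) (nat_lit 0) (p (nat_lit 0x160004) (nat_lit 0) (p (nat_lit 0x50612) (nat_lit 0) (p (nat_lit 0x40592) (nat_lit 0) (p (nat_lit 0x40492) (nat_lit 0) (p (nat_lit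 0x30412) (nat_lit 0) (p (nat_lit 0x30212) (nat_lit 0) (p (nat_lit 0x20192) (nat_lit 0) (p (nat_lit 0x20092) (nat_lit 0) (p (nat_lit 0x10012) (nat_lit 0) pn))))))))))))))))))))))))) :=
  Cl.node (nat_lit 0x89) (nat_lit 2) (by decide +kernel) (ClAll.succ (ClAll.succ ClAll.zero s119) n90)

def n115 : Cl (O (nat_lit 6)) (R (nat_lit 104465))
    (p (nat_lit 0x109) (nat_lit 1) (p (nat_lit 0x101) (nat_lit 0) (p (nat_lit 0x111) (nat_lit 0) (p (nat_lit 0xd1) (nat_lit 1) (p (nat_lit 0x81) (nat_lit 0) (p (nat_lit 0x41) (nat_lit 1) (p (nat_lit 0x10a098b090a9a) (nat_lit 0) (p (nat_lit 0x89890a888a1a) (nat_lit 0) (p (nat_lit 0x109088a08079a) (nat_lit 0) (p (nat_lit 0x88880987871a) (nat_lit 0) (p (nat_lit 0x8000080000000080907088a) (nat_lit 0) (p (nat_lit 0x8000080000000078886860a) (nat_lit 0) (p (nat_lit 0x10688060782) (nat_lit 0) (p (nat_lit 0x8607858702) (nat_lit 0) (p (nat_lit 0x10587050482) (nat_lit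 0) (p (nat_lit 0x8506848402) (nat_lit 0) (p (nat_lit 0x160004) (nat_lit 0) (p (nat_lit 0x50612) (nat_lit 0) (p (nat_lit 0x40592) (nat_lit 0) (p (nat_lit 0x40492) (nat_lit 0) (p (nat_lit 0x30412) (nat_lit 0) (p (nat_lit 0x30212) (nat_lit 0) (p (nat_lit 0x20192) (nat_lit 0) (p (nat_lit 0x20092) (nat_lit 0) (p (nat_lit 0x10012) (nat_lit 0) pn))))))))))))))))))))))))) :=
  Cl.node (nat_lit 0x89) (nat_lit 2) (by decide +kernel) (ClAll.succ (ClAll.succ ClAll.zero s125) n91)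

def n116 : Cl (O (nat_lit 6)) (R (nat_lit 104465))
    (p (nat_lit 0x89) (nat_lit 0) (p (nat_lit 0x101) (nat_lit 1) (p (nat_lit 0x111) (nat_lit 0) (p (nat_lit 0xd1) (nat_lit 1) (p (nat_lit 0x81) (nat_lit 0) (p (nat_lit 0x41) (nat_lit 1) (p (nat_lit 0x10a098b090a9a) (nat_lit 0) (p (nat_lit 0x89890a888a1a) (nat_lit 0) (p (nat_lit 0x109088a08079a) (nat_lit 0) (p (nat_lit 0x88880987871a) (nat_lit 0) (p (nat_lit 0x8000080000000080907088a) (nat_lit 0) (p (nat_lit 0x8000080000000078886860a) (nat_lit 0) (p (nat_lit 0x10688060782) (nat_lit 0) (p (nat_lit 0x8607858702) (nat_lit 0) (p (nat_lit 0x10587050482) (nat_lit 0) (p (nat_lit 0x8506848402) (nat_lit 0) (p (nat_lit 0x160004) (nat_lit 0) (p (nat_lit 0x50612) (nat_lit 0) (p (nat_lit 0x40592) (nat_lit 0) (p (nat_lit 0x40492) (nat_lit 0) (p (nat_lit 0x30412) (nat_lit 0) (p (nat_lit 0x30212) (nat_lit 0) (p (nat_lit 0x20192) (nat_lit 0) (p (nat_lit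 0x20092) (nat_lit 0) (p (nat_lit 0x10012) (nat_lit 0) pn))))))))))))))))))))))))) :=
  Cl.node (nat_lit 0x20000c) (nat_lit 2) (by decide +kernel) (ClAll.succ (ClAll.succ ClAll.zero n92) s134)

def n117 : Cl (O (nat_lit 6)) (R (nat_lit 104465))
    (p (nat_lit 0x89) (nat_lit 1) (p (nat_lit 0x101) (nat_lit 1) (p (nat_lit 0x111) (nat_lit 0) (p (nat_lit 0xd1) (nat_lit 1) (p (nat_lit 0x81) (nat_lit 0) (p (nat_lit 0x41) (nat_lit 1) (p (nat_lit 0x10a098b090a9a) (nat_lit 0) (p (nat_lit 0x89890a888a1a) (nat_lit 0) (p (nat_lit 0x109088a08079a) (nat_lit 0) (p (nat_lit 0x88880987871a) (nat_lit 0) (p (nat_lit 0x8000080000000080907088a) (nat_lit 0) (p (nat_lit 0x8000080000000078886860a) (nat_lit 0) (p (nat_lit 0x10688060782) (nat_lit 0) (p (nat_lit 0x8607858702) (nat_lit 0) (p (nat_lit 0x10587050482) (nat_lit 0) (p (nat_lit 0x8506848402) (nat_lit 0) (p (nat_lit 0x160004) (nat_lit 0) (p (nat_lit 0x50612)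 (nat_lit 0) (p (nat_lit 0x40592) (nat_lit 0) (p (nat_lit 0x40492) (nat_lit 0) (p (nat_lit 0x30412) (nat_lit 0) (p (nat_lit 0x30212) (nat_lit 0) (p (nat_lit 0x20192) (nat_lit 0) (p (nat_lit 0x20092) (nat_lit 0) (p (nat_lit 0x10012) (nat_lit 0) pn))))))))))))))))))))))))) :=
  Cl.node (nat_lit 0xc9) (nat_lit 2) (by decide +kernel) (ClAll.succ (ClAll.succ ClAll.zero n93) s139)

def n118 : Cl (O (nat_lit 6)) (R (nat_lit 104465))
    (p (nat_lit 0xc9) (nat_lit 1) (p (nat_lit 0x89) (nat_lit 1) (p (nat_lit 0x111) (nat_lit 1) (p (nat_lit 0xd1) (nat_lit 1) (p (nat_lit 0x81) (nat_lit 0) (p (nat_lit 0x41) (nat_lit 1) (p (nat_lit 0x10a098b090a9a) (nat_lit 0) (p (nat_lit 0x89890a888a1a) (nat_lit 0) (p (nat_lit 0x109088a08079a) (nat_lit 0) (p (nat_lit 0x88880987871a) (nat_lit 0) (p (nat_lit 0x8000080000000080907088a) (nat_lit 0) (p (nat_lit 0x8000080000000078886860a) (nat_lit 0) (p (nat_lit 0x10688060782)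 (nat_lit 0) (p (nat_lit 0x8607858702) (nat_lit 0) (p (nat_lit 0x10587050482) (nat_lit 0) (p (nat_lit 0x8506848402) (nat_lit 0) (p (nat_lit 0x160004) (nat_lit 0) (p (nat_lit 0x50612) (nat_lit 0) (p (nat_lit 0x40592) (nat_lit 0) (p (nat_lit 0x40492) (nat_lit 0) (p (nat_lit 0x30412) (nat_lit 0) (p (nat_lit 0x30212) (nat_lit 0) (p (nat_lit 0x20192) (nat_lit 0) (p (nat_lit 0x20092) (nat_lit 0) (p (nat_lit 0x10012) (nat_lit 0) pn))))))))))))))))))))))))) :=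
  Cl.node (nat_lit 0x109) (nat_lit 2) (by decide +kernel) (ClAll.succ (ClAll.succ ClAll.zero s142) s143)

def n119 : Cl (O (nat_lit 6)) (R (nat_lit 104465))
    (p (nat_lit 0xc9) (nat_lit 0) (p (nat_lit 0x101) (nat_lit 1) (p (nat_lit 0x119) (nat_lit 0) (p (nat_lit 0xc1) (nat_lit 0) (p (nat_lit 0x81) (nat_lit 1) (p (nat_lit 0x41) (nat_lit 1) (p (nat_lit 0x10a098b090a9a) (nat_lit 0) (p (nat_lit 0x89890a888a1a) (nat_lit 0) (p (nat_lit 0x109088a08079a) (nat_lit 0) (p (nat_lit 0x88880987871a) (nat_lit 0) (p (nat_lit 0x8000080000000080907088a) (nat_lit 0) (p (nat_lit 0x8000080000000078886860a) (nat_lit 0) (p (nat_lit 0x10688060782) (nat_lit 0) (p (nat_lit 0x8607858702) (nat_lit 0) (p (nat_lit 0x10587050482) (nat_lit 0) (p (nat_lit 0x8506848402) (nat_lit 0) (p (nat_lit 0x160004) (nat_lit 0) (p (nat_lit 0x50612) (nat_lit 0) (p (nat_lit 0x40592) (nat_lit 0) (p (nat_lit 0x40492) (nat_lit 0) (p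 (nat_lit 0x30412) (nat_lit 0) (p (nat_lit 0x30212) (nat_lit 0) (p (nat_lit 0x20192) (nat_lit 0) (p (nat_lit 0x20092) (nat_lit 0) (p (nat_lit 0x10012) (nat_lit 0) pn))))))))))))))))))))))))) :=
  Cl.node (nat_lit 0xd1) (nat_lit 2) (by decide +kernel) (ClAll.succ (ClAll.succ ClAll.zero n94) n95)

def n120 : Cl (O (nat_lit 6)) (R (nat_lit 104465))
    (p (nat_lit 0x109) (nat_lit 0) (p (nat_lit 0xc9) (nat_lit 1) (p (nat_lit 0x119) (nat_lit 1) (p (nat_lit 0xc1) (nat_lit 0) (p (nat_lit 0x81) (nat_lit 1) (p (nat_lit 0x41) (nat_lit 1) (p (nat_lit 0x10a098b090a9a) (nat_lit 0) (p (nat_lit 0x89890a888a1a) (nat_lit 0) (p (nat_lit 0x109088a08079a) (nat_lit 0) (p (nat_lit 0x88880987871a) (nat_lit 0) (p (nat_lit 0x8000080000000080907088a) (nat_lit 0) (p (nat_lit 0x8000080000000078886860a) (nat_lit 0) (p (nat_lit 0x10688060782) (nat_lit 0) (p (nat_lit 0x8607858702) (nat_lit 0) (p (nat_lit 0x10587050482)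 (nat_lit 0) (p (nat_lit 0x8506848402) (nat_lit 0) (p (nat_lit 0x160004) (nat_lit 0) (p (nat_lit 0x50612) (nat_lit 0) (p (nat_lit 0x40592) (nat_lit 0) (p (nat_lit 0x40492) (nat_lit 0) (p (nat_lit 0x30412) (nat_lit 0) (p (nat_lit 0x30212) (nat_lit 0) (p (nat_lit 0x20192) (nat_lit 0) (p (nat_lit 0x20092) (nat_lit 0) (p (nat_lit 0x10012) (nat_lit 0) pn))))))))))))))))))))))))) :=
  Cl.node (nat_lit 0x111) (nat_lit 2) (by decide +kernel) (ClAll.succ (ClAll.succ ClAll.zero s155) n96)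

def n121 : Cl (O (nat_lit 6)) (R (nat_lit 104465))
    (p (nat_lit 0x101) (nat_lit 0) (p (nat_lit 0x119) (nat_lit 0) (p (nat_lit 0xd1) (nat_lit 0) (p (nat_lit 0x89) (nat_lit 0) (p (nat_lit 0x41) (nat_lit 0) (p (nat_lit 0x10a098b090a9a) (nat_lit 0) (p (nat_lit 0x89890a888a1a) (nat_lit 0) (p (nat_lit 0x109088a08079a) (nat_lit 0) (p (nat_lit 0x88880987871a) (nat_lit 0) (p (nat_lit 0x8000080000000080907088a) (nat_lit 0) (p (nat_lit 0x8000080000000078886860a) (nat_lit 0) (p (nat_lit 0x10688060782) (nat_lit 0) (p (nat_lit 0x8607858702) (nat_lit 0) (p (nat_lit 0x10587050482) (nat_lit 0) (p (nat_lit 0x8506848402) (nat_lit 0) (p (nat_lit 0x160004) (nat_lit 0) (p (nat_lit 0x50612) (nat_lit 0) (p (nat_lit 0x40592) (nat_lit 0) (p (nat_lit 0x40492) (nat_lit 0) (p (nat_lit 0x30412) (nat_lit 0) (p (nat_lit 0x30212) (nat_lit 0) (p (nat_lit 0x20192) (nat_lit 0) (p (nat_lit 0x20092) (nat_lit 0) (p (nat_lit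 0x10012) (nat_lit 0) pn)))))))))))))))))))))))) :=
  Cl.node (nat_lit 0x109) (nat_lit 2) (by decide +kernel) (ClAll.succ (ClAll.succ ClAll.zero s0) n97)

def n122 : Cl (O (nat_lit 6)) (R (nat_lit 104465))
    (p (nat_lit 0x101) (nat_lit 1) (p (nat_lit 0x119) (nat_lit 0) (p (nat_lit 0xd1) (nat_lit 0) (p (nat_lit 0x89) (nat_lit 0) (p (nat_lit 0x41) (nat_lit 0) (p (nat_lit 0x10a098b090a9a) (nat_lit 0) (p (nat_lit 0x89890a888a1a) (nat_lit 0) (p (nat_lit 0x109088a08079a) (nat_lit 0) (p (nat_lit 0x88880987871a) (nat_lit 0) (p (nat_lit 0x8000080000000080907088a) (nat_lit 0) (p (nat_lit 0x8000080000000078886860a) (nat_lit 0) (p (nat_lit 0x10688060782) (nat_lit 0) (p (nat_lit 0x8607858702) (nat_lit 0) (p (nat_lit 0x10587050482) (nat_lit 0) (p (nat_lit 0x8506848402) (nat_lit 0) (p (nat_lit 0x160004) (nat_lit 0) (p (nat_lit 0x50612) (nat_lit 0) (p (nat_lit 0x40592) (nat_lit 0) (p (nat_lit 0x40492)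 (nat_lit 0) (p (nat_lit 0x30412) (nat_lit 0) (p (nat_lit 0x30212) (nat_lit 0) (p (nat_lit 0x20192) (nat_lit 0) (p (nat_lit 0x20092) (nat_lit 0) (p (nat_lit 0x10012) (nat_lit 0) pn)))))))))))))))))))))))) :=
  Cl.node (nat_lit 0x81) (nat_lit 2) (by decide +kernel) (ClAll.succ (ClAll.succ ClAll.zero n98) n99)

def n123 : Cl (O (nat_lit 6)) (R (nat_lit 104465))
    (p (nat_lit 0xc1) (nat_lit 1) (p (nat_lit 0x119) (nat_lit 1) (p (nat_lit 0xd1) (nat_lit 0) (p (nat_lit 0x89) (nat_lit 0) (p (nat_lit 0x41) (nat_lit 0) (p (nat_lit 0x10a098b090a9a) (nat_lit 0) (p (nat_lit 0x89890a888a1a) (nat_lit 0) (p (nat_lit 0x109088a08079a) (nat_lit 0) (p (nat_lit 0x88880987871a) (nat_lit 0) (p (nat_lit 0x8000080000000080907088a) (nat_lit 0) (p (nat_lit 0x8000080000000078886860a) (nat_lit 0) (p (nat_lit 0x10688060782) (nat_lit 0) (p (nat_lit 0x8607858702) (nat_lit 0) (p (nat_lit 0x10587050482) (nat_lit 0)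 (p (nat_lit 0x8506848402) (nat_lit 0) (p (nat_lit 0x160004) (nat_lit 0) (p (nat_lit 0x50612) (nat_lit 0) (p (nat_lit 0x40592) (nat_lit 0) (p (nat_lit 0x40492) (nat_lit 0) (p (nat_lit 0x30412) (nat_lit 0) (p (nat_lit 0x30212) (nat_lit 0) (p (nat_lit 0x20192) (nat_lit 0) (p (nat_lit 0x20092) (nat_lit 0) (p (nat_lit 0x10012) (nat_lit 0) pn)))))))))))))))))))))))) :=
  Cl.node (nat_lit 0x81) (nat_lit 2) (by decide +kernel) (ClAll.succ (ClAll.succ ClAll.zero s18) n100)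

def n124 : Cl (O (nat_lit 6)) (R (nat_lit 104465))
    (p (nat_lit 0x101) (nat_lit 0) (p (nat_lit 0x111) (nat_lit 0) (p (nat_lit 0xd1) (nat_lit 1) (p (nat_lit 0x89) (nat_lit 0) (p (nat_lit 0x41) (nat_lit 0) (p (nat_lit 0x10a098b090a9a) (nat_lit 0) (p (nat_lit 0x89890a888a1a) (nat_lit 0) (p (nat_lit 0x109088a08079a) (nat_lit 0) (p (nat_lit 0x88880987871a) (nat_lit 0) (p (nat_lit 0x8000080000000080907088a) (nat_lit 0) (p (nat_lit 0x8000080000000078886860a) (nat_lit 0) (p (nat_lit 0x10688060782) (nat_lit 0) (p (nat_lit 0x8607858702) (nat_lit 0) (p (nat_lit 0x10587050482) (nat_lit 0) (p (nat_lit 0x8506848402) (nat_lit 0) (p (nat_lit 0x160004) (nat_lit 0) (p (nat_lit 0x50612) (nat_lit 0) (p (nat_lit 0x40592) (nat_lit 0) (p (nat_lit 0x40492) (nat_lit 0) (p (nat_lit 0x30412) (nat_lit 0) (p (nat_lit 0x30212) (nat_lit 0) (p (nat_lit 0x20192) (nat_lit 0) (p (nat_lit 0x20092) (nat_lit 0) (p (nat_lit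 0x10012) (nat_lit 0) pn)))))))))))))))))))))))) :=
  Cl.node (nat_lit 0x109) (nat_lit 2) (by decide +kernel) (ClAll.succ (ClAll.succ ClAll.zero s27) n101)

def n125 : Cl (O (nat_lit 6)) (R (nat_lit 104465))
    (p (nat_lit 0x101) (nat_lit 1) (p (nat_lit 0x111) (nat_lit 0) (p (nat_lit 0xd1) (nat_lit 1) (p (nat_lit 0x89) (nat_lit 0) (p (nat_lit 0x41) (nat_lit 0) (p (nat_lit 0x10a098b090a9a) (nat_lit 0) (p (nat_lit 0x89890a888a1a) (nat_lit 0) (p (nat_lit 0x109088a08079a) (nat_lit 0) (p (nat_lit 0x88880987871a) (nat_lit 0) (p (nat_lit 0x8000080000000080907088a) (nat_lit 0) (p (nat_lit 0x8000080000000078886860a) (nat_lit 0) (p (nat_lit 0x10688060782) (nat_lit 0) (p (nat_lit 0x8607858702) (nat_lit 0) (p (nat_lit 0x10587050482) (nat_lit 0) (p (nat_lit 0x8506848402) (nat_lit 0) (p (nat_lit 0x160004) (nat_lit 0) (p (nat_lit 0x50612) (nat_lit 0) (p (nat_lit 0x40592) (nat_lit 0) (p (nat_lit 0x40492)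 (nat_lit 0) (p (nat_lit 0x30412) (nat_lit 0) (p (nat_lit 0x30212) (nat_lit 0) (p (nat_lit 0x20192) (nat_lit 0) (p (nat_lit 0x20092) (nat_lit 0) (p (nat_lit 0x10012) (nat_lit 0) pn)))))))))))))))))))))))) :=
  Cl.node (nat_lit 0x81) (nat_lit 2) (by decide +kernel) (ClAll.succ (ClAll.succ ClAll.zero n102) n103)

def n126 : Cl (O (nat_lit 6)) (R (nat_lit 104465))
    (p (nat_lit 0x101) (nat_lit 0) (p (nat_lit 0x119) (nat_lit 0) (p (nat_lit 0xc9) (nat_lit 0) (p (nat_lit 0x89) (nat_lit 1) (p (nat_lit 0x41) (nat_lit 0) (p (nat_lit 0x10a098b090a9a) (nat_lit 0) (p (nat_lit 0x89890a888a1a) (nat_lit 0) (p (nat_lit 0x109088a08079a) (nat_lit 0) (p (nat_lit 0x88880987871a) (nat_lit 0) (p (nat_lit 0x8000080000000080907088a) (nat_lit 0) (p (nat_lit 0x8000080000000078886860a) (nat_lit 0) (p (nat_lit 0x10688060782) (nat_lit 0) (p (nat_lit 0x8607858702) (nat_lit 0) (p (nat_lit 0x10587050482) (nat_lit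 0) (p (nat_lit 0x8506848402) (nat_lit 0) (p (nat_lit 0x160004) (nat_lit 0) (p (nat_lit 0x50612) (nat_lit 0) (p (nat_lit 0x40592) (nat_lit 0) (p (nat_lit 0x40492) (nat_lit 0) (p (nat_lit 0x30412) (nat_lit 0) (p (nat_lit 0x30212) (nat_lit 0) (p (nat_lit 0x20192) (nat_lit 0) (p (nat_lit 0x20092) (nat_lit 0) (p (nat_lit 0x10012) (nat_lit 0) pn)))))))))))))))))))))))) :=
  Cl.node (nat_lit 0x109) (nat_lit 2) (by decide +kernel) (ClAll.succ (ClAll.succ ClAll.zero n104) n105)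

def n127 : Cl (O (nat_lit 6)) (R (nat_lit 104465))
    (p (nat_lit 0x101) (nat_lit 1) (p (nat_lit 0x119) (nat_lit 0) (p (nat_lit 0xc9) (nat_lit 0) (p (nat_lit 0x89) (nat_lit 1) (p (nat_lit 0x41) (nat_lit 0) (p (nat_lit 0x10a098b090a9a) (nat_lit 0) (p (nat_lit 0x89890a888a1a) (nat_lit 0) (p (nat_lit 0x109088a08079a) (nat_lit 0) (p (nat_lit 0x88880987871a) (nat_lit 0) (p (nat_lit 0x8000080000000080907088a) (nat_lit 0) (p (nat_lit 0x8000080000000078886860a) (nat_lit 0) (p (nat_lit 0x10688060782) (nat_lit 0) (p (nat_lit 0x8607858702) (nat_lit 0) (p (nat_lit 0x10587050482) (nat_lit 0) (p (nat_lit 0x8506848402) (nat_lit 0) (p (nat_lit 0x160004) (nat_lit 0) (p (nat_lit 0x50612) (nat_lit 0) (p (nat_lit 0x40592) (nat_lit 0) (p (nat_lit 0x40492) (nat_lit 0) (p (nat_lit 0x30412) (nat_lit 0) (p (nat_lit 0x30212) (nat_lit 0) (p (nat_lit 0x20192) (nat_lit 0) (p (nat_lit 0x20092) (nat_lit 0) (p (nat_lit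 0x10012) (nat_lit 0) pn)))))))))))))))))))))))) :=
  Cl.node (nat_lit 0xc1) (nat_lit 2) (by decide +kernel) (ClAll.succ (ClAll.succ ClAll.zero n106) s68)

def n128 : Cl (O (nat_lit 6)) (R (nat_lit 104465))
    (p (nat_lit 0xc1) (nat_lit 0) (p (nat_lit 0x119) (nat_lit 1) (p (nat_lit 0xc9) (nat_lit 0) (p (nat_lit 0x89) (nat_lit 1) (p (nat_lit 0x41) (nat_lit 0) (p (nat_lit 0x10a098b090a9a) (nat_lit 0) (p (nat_lit 0x89890a888a1a) (nat_lit 0) (p (nat_lit 0x109088a08079a) (nat_lit 0) (p (nat_lit 0x88880987871a) (nat_lit 0) (p (nat_lit 0x8000080000000080907088a) (nat_lit 0) (p (nat_lit 0x8000080000000078886860a) (nat_lit 0) (p (nat_lit 0x10688060782) (nat_lit 0) (p (nat_lit 0x8607858702) (nat_lit 0) (p (nat_lit 0x10587050482) (nat_lit 0) (p (nat_lit 0x8506848402) (nat_lit 0) (p (nat_lit 0x160004) (nat_lit 0) (p (nat_lit 0x50612) (nat_lit 0) (p (nat_lit 0x40592) (nat_lit 0) (p (nat_lit 0x40492)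 (nat_lit 0) (p (nat_lit 0x30412) (nat_lit 0) (p (nat_lit 0x30212) (nat_lit 0) (p (nat_lit 0x20192) (nat_lit 0) (p (nat_lit 0x20092) (nat_lit 0) (p (nat_lit 0x10012) (nat_lit 0) pn)))))))))))))))))))))))) :=
  Cl.node (nat_lit 0xd1) (nat_lit 2) (by decide +kernel) (ClAll.succ (ClAll.succ ClAll.zero s69) n107)

def n129 : Cl (O (nat_lit 6)) (R (nat_lit 104465))
    (p (nat_lit 0xc1) (nat_lit 1) (p (nat_lit 0x119) (nat_lit 1) (p (nat_lit 0xc9) (nat_lit 0) (p (nat_lit 0x89) (nat_lit 1) (p (nat_lit 0x41) (nat_lit 0) (p (nat_lit 0x10a098b090a9a) (nat_lit 0) (p (nat_lit 0x89890a888a1a) (nat_lit 0) (p (nat_lit 0x109088a08079a) (nat_lit 0) (p (nat_lit 0x88880987871a) (nat_lit 0) (p (nat_lit 0x8000080000000080907088a) (nat_lit 0) (p (nat_lit 0x8000080000000078886860a) (nat_lit 0) (p (nat_lit 0x10688060782) (nat_lit 0) (p (nat_lit 0x8607858702) (nat_lit 0) (p (nat_lit 0x10587050482) (nat_lit 0)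 (p (nat_lit 0x8506848402) (nat_lit 0) (p (nat_lit 0x160004) (nat_lit 0) (p (nat_lit 0x50612) (nat_lit 0) (p (nat_lit 0x40592) (nat_lit 0) (p (nat_lit 0x40492) (nat_lit 0) (p (nat_lit 0x30412) (nat_lit 0) (p (nat_lit 0x30212) (nat_lit 0) (p (nat_lit 0x20192) (nat_lit 0) (p (nat_lit 0x20092) (nat_lit 0) (p (nat_lit 0x10012) (nat_lit 0) pn)))))))))))))))))))))))) :=
  Cl.node (nat_lit 0x101) (nat_lit 2) (by decide +kernel) (ClAll.succ (ClAll.succ ClAll.zero n108) s82)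

def n130 : Cl (O (nat_lit 6)) (R (nat_lit 104465))
    (p (nat_lit 0x101) (nat_lit 0) (p (nat_lit 0x109) (nat_lit 0) (p (nat_lit 0xc9) (nat_lit 1) (p (nat_lit 0x89) (nat_lit 1) (p (nat_lit 0x41) (nat_lit 0) (p (nat_lit 0x10a098b090a9a) (nat_lit 0) (p (nat_lit 0x89890a888a1a) (nat_lit 0) (p (nat_lit 0x109088a08079a) (nat_lit 0) (p (nat_lit 0x88880987871a) (nat_lit 0) (p (nat_lit 0x8000080000000080907088a) (nat_lit 0) (p (nat_lit 0x8000080000000078886860a) (nat_lit 0) (p (nat_lit 0x10688060782) (nat_lit 0) (p (nat_lit 0x8607858702) (nat_lit 0) (p (nat_lit 0x10587050482) (nat_lit 0) (p (nat_lit 0x8506848402) (nat_lit 0) (p (nat_lit 0x160004) (nat_lit 0) (p (nat_lit 0x50612) (nat_lit 0) (p (nat_lit 0x40592) (nat_lit 0) (p (nat_lit 0x40492) (nat_lit 0) (p (nat_lit 0x30412) (nat_lit 0) (p (nat_lit 0x30212) (nat_lit 0) (p (nat_lit 0x20192) (nat_lit 0) (p (nat_lit 0x20092) (nat_lit 0) (p (nat_lit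 0x10012) (nat_lit 0) pn)))))))))))))))))))))))) :=
  Cl.node (nat_lit 0x111) (nat_lit 2) (by decide +kernel) (ClAll.succ (ClAll.succ ClAll.zero s83) s84)

def n131 : Cl (O (nat_lit 6)) (R (nat_lit 104465))
    (p (nat_lit 0x101) (nat_lit 0) (p (nat_lit 0x119) (nat_lit 0) (p (nat_lit 0xd1) (nat_lit 0) (p (nat_lit 0x81) (nat_lit 0) (p (nat_lit 0x41) (nat_lit 1) (p (nat_lit 0x10a098b090a9a) (nat_lit 0) (p (nat_lit 0x89890a888a1a) (nat_lit 0) (p (nat_lit 0x109088a08079a) (nat_lit 0) (p (nat_lit 0x88880987871a) (nat_lit 0) (p (nat_lit 0x8000080000000080907088a) (nat_lit 0) (p (nat_lit 0x8000080000000078886860a) (nat_lit 0) (p (nat_lit 0x10688060782) (nat_lit 0) (p (nat_lit 0x8607858702) (nat_lit 0) (p (nat_lit 0x10587050482) (nat_lit 0) (p (nat_lit 0x8506848402) (nat_lit 0) (p (nat_lit 0x160004) (nat_lit 0) (p (nat_lit 0x50612) (nat_lit 0) (p (nat_lit 0x40592) (nat_lit 0) (p (nat_lit 0x40492)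 (nat_lit 0) (p (nat_lit 0x30412) (nat_lit 0) (p (nat_lit 0x30212) (nat_lit 0) (p (nat_lit 0x20192) (nat_lit 0) (p (nat_lit 0x20092) (nat_lit 0) (p (nat_lit 0x10012) (nat_lit 0) pn)))))))))))))))))))))))) :=
  Cl.node (nat_lit 0x109) (nat_lit 2) (by decide +kernel) (ClAll.succ (ClAll.succ ClAll.zero s87) n109)

def n132 : Cl (O (nat_lit 6)) (R (nat_lit 104465))
    (p (nat_lit 0x101) (nat_lit 1) (p (nat_lit 0x119) (nat_lit 0) (p (nat_lit 0xd1) (nat_lit 0) (p (nat_lit 0x81) (nat_lit 0) (p (nat_lit 0x41) (nat_lit 1) (p (nat_lit 0x10a098b090a9a) (nat_lit 0) (p (nat_lit 0x89890a888a1a) (nat_lit 0) (p (nat_lit 0x109088a08079a) (nat_lit 0) (p (nat_lit 0x88880987871a) (nat_lit 0) (p (nat_lit 0x8000080000000080907088a) (nat_lit 0) (p (nat_lit 0x8000080000000078886860a) (nat_lit 0) (p (nat_lit 0x10688060782) (nat_lit 0) (p (nat_lit 0x8607858702) (nat_lit 0) (p (nat_lit 0x10587050482) (nat_lit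 0) (p (nat_lit 0x8506848402) (nat_lit 0) (p (nat_lit 0x160004) (nat_lit 0) (p (nat_lit 0x50612) (nat_lit 0) (p (nat_lit 0x40592) (nat_lit 0) (p (nat_lit 0x40492) (nat_lit 0) (p (nat_lit 0x30412) (nat_lit 0) (p (nat_lit 0x30212) (nat_lit 0) (p (nat_lit 0x20192) (nat_lit 0) (p (nat_lit 0x20092) (nat_lit 0) (p (nat_lit 0x10012) (nat_lit 0) pn)))))))))))))))))))))))) :=
  Cl.node (nat_lit 0xc1) (nat_lit 2) (by decide +kernel) (ClAll.succ (ClAll.succ ClAll.zero n110) n111)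

def n133 : Cl (O (nat_lit 6)) (R (nat_lit 104465))
    (p (nat_lit 0xc1) (nat_lit 0) (p (nat_lit 0x119) (nat_lit 1) (p (nat_lit 0xd1) (nat_lit 0) (p (nat_lit 0x81) (nat_lit 0) (p (nat_lit 0x41) (nat_lit 1) (p (nat_lit 0x10a098b090a9a) (nat_lit 0) (p (nat_lit 0x89890a888a1a) (nat_lit 0) (p (nat_lit 0x109088a08079a) (nat_lit 0) (p (nat_lit 0x88880987871a) (nat_lit 0) (p (nat_lit 0x8000080000000080907088a) (nat_lit 0) (p (nat_lit 0x8000080000000078886860a) (nat_lit 0) (p (nat_lit 0x10688060782) (nat_lit 0) (p (nat_lit 0x8607858702) (nat_lit 0) (p (nat_lit 0x10587050482) (nat_lit 0) (p (nat_lit 0x8506848402) (nat_lit 0) (p (nat_lit 0x160004) (nat_lit 0) (p (nat_lit 0x50612) (nat_lit 0) (p (nat_lit 0x40592) (nat_lit 0) (p (nat_lit 0x40492) (nat_lit 0) (p (nat_lit 0x30412) (nat_lit 0) (p (nat_lit 0x30212) (nat_lit 0) (p (nat_lit 0x20192) (nat_lit 0) (p (nat_lit 0x20092) (nat_lit 0) (p (nat_lit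 0x10012) (nat_lit 0) pn)))))))))))))))))))))))) :=
  Cl.node (nat_lit 0xc9) (nat_lit 2) (by decide +kernel) (ClAll.succ (ClAll.succ ClAll.zero s109) n112)

def n134 : Cl (O (nat_lit 6)) (R (nat_lit 104465))
    (p (nat_lit 0xc1) (nat_lit 1) (p (nat_lit 0x119) (nat_lit 1) (p (nat_lit 0xd1) (nat_lit 0) (p (nat_lit 0x81) (nat_lit 0) (p (nat_lit 0x41) (nat_lit 1) (p (nat_lit 0x10a098b090a9a) (nat_lit 0) (p (nat_lit 0x89890a888a1a) (nat_lit 0) (p (nat_lit 0x109088a08079a) (nat_lit 0) (p (nat_lit 0x88880987871a) (nat_lit 0) (p (nat_lit 0x8000080000000080907088a) (nat_lit 0) (p (nat_lit 0x8000080000000078886860a) (nat_lit 0) (p (nat_lit 0x10688060782) (nat_lit 0) (p (nat_lit 0x8607858702) (nat_lit 0) (p (nat_lit 0x10587050482) (nat_lit 0) (p (nat_lit 0x8506848402) (nat_lit 0) (p (nat_lit 0x160004) (nat_lit 0) (p (nat_lit 0x50612) (nat_lit 0) (p (nat_lit 0x40592) (nat_lit 0) (p (nat_lit 0x40492)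 (nat_lit 0) (p (nat_lit 0x30412) (nat_lit 0) (p (nat_lit 0x30212) (nat_lit 0) (p (nat_lit 0x20192) (nat_lit 0) (p (nat_lit 0x20092) (nat_lit 0) (p (nat_lit 0x10012) (nat_lit 0) pn)))))))))))))))))))))))) :=
  Cl.node (nat_lit 0x101) (nat_lit 2) (by decide +kernel) (ClAll.succ (ClAll.succ ClAll.zero n113) n114)

def n135 : Cl (O (nat_lit 6)) (R (nat_lit 104465))
    (p (nat_lit 0x101) (nat_lit 0) (p (nat_lit 0x111) (nat_lit 0) (p (nat_lit 0xd1) (nat_lit 1) (p (nat_lit 0x81) (nat_lit 0) (p (nat_lit 0x41) (nat_lit 1) (p (nat_lit 0x10a098b090a9a) (nat_lit 0) (p (nat_lit 0x89890a888a1a) (nat_lit 0) (p (nat_lit 0x109088a08079a) (nat_lit 0) (p (nat_lit 0x88880987871a) (nat_lit 0) (p (nat_lit 0x8000080000000080907088a) (nat_lit 0) (p (nat_lit 0x8000080000000078886860a) (nat_lit 0) (p (nat_lit 0x10688060782) (nat_lit 0) (p (nat_lit 0x8607858702) (nat_lit 0) (p (nat_lit 0x10587050482) (nat_lit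 0) (p (nat_lit 0x8506848402) (nat_lit 0) (p (nat_lit 0x160004) (nat_lit 0) (p (nat_lit 0x50612) (nat_lit 0) (p (nat_lit 0x40592) (nat_lit 0) (p (nat_lit 0x40492) (nat_lit 0) (p (nat_lit 0x30412) (nat_lit 0) (p (nat_lit 0x30212) (nat_lit 0) (p (nat_lit 0x20192) (nat_lit 0) (p (nat_lit 0x20092) (nat_lit 0) (p (nat_lit 0x10012) (nat_lit 0) pn)))))))))))))))))))))))) :=
  Cl.node (nat_lit 0x109) (nat_lit 2) (by decide +kernel) (ClAll.succ (ClAll.succ ClAll.zero s124) n115)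

def n136 : Cl (O (nat_lit 6)) (R (nat_lit 104465))
    (p (nat_lit 0x101) (nat_lit 1) (p (nat_lit 0x111) (nat_lit 0) (p (nat_lit 0xd1) (nat_lit 1) (p (nat_lit 0x81) (nat_lit 0) (p (nat_lit 0x41) (nat_lit 1) (p (nat_lit 0x10a098b090a9a) (nat_lit 0) (p (nat_lit 0x89890a888a1a) (nat_lit 0) (p (nat_lit 0x109088a08079a) (nat_lit 0) (p (nat_lit 0x88880987871a) (nat_lit 0) (p (nat_lit 0x8000080000000080907088a) (nat_lit 0) (p (nat_lit 0x8000080000000078886860a) (nat_lit 0) (p (nat_lit 0x10688060782) (nat_lit 0) (p (nat_lit 0x8607858702) (nat_lit 0) (p (nat_lit 0x10587050482) (nat_lit 0) (p (nat_lit 0x8506848402) (nat_lit 0) (p (nat_lit 0x160004) (nat_lit 0) (p (nat_lit 0x50612) (nat_lit 0) (p (nat_lit 0x40592) (nat_lit 0) (p (nat_lit 0x40492) (nat_lit 0) (p (nat_lit 0x30412) (nat_lit 0) (p (nat_lit 0x30212) (nat_lit 0) (p (nat_lit 0x20192) (nat_lit 0) (p (nat_lit 0x20092) (nat_lit 0) (p (nat_lit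 0x10012) (nat_lit 0) pn)))))))))))))))))))))))) :=
  Cl.node (nat_lit 0x89) (nat_lit 2) (by decide +kernel) (ClAll.succ (ClAll.succ ClAll.zero n116) n117)

def n137 : Cl (O (nat_lit 6)) (R (nat_lit 104465))
    (p (nat_lit 0x89) (nat_lit 1) (p (nat_lit 0x111) (nat_lit 1) (p (nat_lit 0xd1) (nat_lit 1) (p (nat_lit 0x81) (nat_lit 0) (p (nat_lit 0x41) (nat_lit 1) (p (nat_lit 0x10a098b090a9a) (nat_lit 0) (p (nat_lit 0x89890a888a1a) (nat_lit 0) (p (nat_lit 0x109088a08079a) (nat_lit 0) (p (nat_lit 0x88880987871a) (nat_lit 0) (p (nat_lit 0x8000080000000080907088a) (nat_lit 0) (p (nat_lit 0x8000080000000078886860a) (nat_lit 0) (p (nat_lit 0x10688060782) (nat_lit 0) (p (nat_lit 0x8607858702) (nat_lit 0) (p (nat_lit 0x10587050482) (nat_lit 0) (p (nat_lit 0x8506848402) (nat_lit 0) (p (nat_lit 0x160004) (nat_lit 0) (p (nat_lit 0x50612) (nat_lit 0) (p (nat_lit 0x40592) (nat_lit 0) (p (nat_lit 0x40492)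 (nat_lit 0) (p (nat_lit 0x30412) (nat_lit 0) (p (nat_lit 0x30212) (nat_lit 0) (p (nat_lit 0x20192) (nat_lit 0) (p (nat_lit 0x20092) (nat_lit 0) (p (nat_lit 0x10012) (nat_lit 0) pn)))))))))))))))))))))))) :=
  Cl.node (nat_lit 0xc9) (nat_lit 2) (by decide +kernel) (ClAll.succ (ClAll.succ ClAll.zero s141) n118)

def n138 : Cl (O (nat_lit 6)) (R (nat_lit 104465))
    (p (nat_lit 0x101) (nat_lit 0) (p (nat_lit 0x119) (nat_lit 0) (p (nat_lit 0xc1) (nat_lit 0) (p (nat_lit 0x81) (nat_lit 1) (p (nat_lit 0x41) (nat_lit 1) (p (nat_lit 0x10a098b090a9a) (nat_lit 0) (p (nat_lit 0x89890a888a1a) (nat_lit 0) (p (nat_lit 0x109088a08079a) (nat_lit 0) (p (nat_lit 0x88880987871a) (nat_lit 0) (p (nat_lit 0x8000080000000080907088a) (nat_lit 0) (p (nat_lit 0x8000080000000078886860a) (nat_lit 0) (p (nat_lit 0x10688060782) (nat_lit 0) (p (nat_lit 0x8607858702) (nat_lit 0) (p (nat_lit 0x10587050482) (nat_lit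 0) (p (nat_lit 0x8506848402) (nat_lit 0) (p (nat_lit 0x160004) (nat_lit 0) (p (nat_lit 0x50612) (nat_lit 0) (p (nat_lit 0x40592) (nat_lit 0) (p (nat_lit 0x40492) (nat_lit 0) (p (nat_lit 0x30412) (nat_lit 0) (p (nat_lit 0x30212) (nat_lit 0) (p (nat_lit 0x20192) (nat_lit 0) (p (nat_lit 0x20092) (nat_lit 0) (p (nat_lit 0x10012) (nat_lit 0) pn)))))))))))))))))))))))) :=
  Cl.node (nat_lit 0x109) (nat_lit 2) (by decide +kernel) (ClAll.succ (ClAll.succ ClAll.zero s144) s145)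

def n139 : Cl (O (nat_lit 6)) (R (nat_lit 104465))
    (p (nat_lit 0x101) (nat_lit 1) (p (nat_lit 0x119) (nat_lit 0) (p (nat_lit 0xc1) (nat_lit 0) (p (nat_lit 0x81) (nat_lit 1) (p (nat_lit 0x41) (nat_lit 1) (p (nat_lit 0x10a098b090a9a) (nat_lit 0) (p (nat_lit 0x89890a888a1a) (nat_lit 0) (p (nat_lit 0x109088a08079a) (nat_lit 0) (p (nat_lit 0x88880987871a) (nat_lit 0) (p (nat_lit 0x8000080000000080907088a) (nat_lit 0) (p (nat_lit 0x8000080000000078886860a) (nat_lit 0) (p (nat_lit 0x10688060782) (nat_lit 0) (p (nat_lit 0x8607858702) (nat_lit 0) (p (nat_lit 0x10587050482) (nat_lit 0) (p (nat_lit 0x8506848402) (nat_lit 0) (p (nat_lit 0x160004) (nat_lit 0) (p (nat_lit 0x50612) (nat_lit 0) (p (nat_lit 0x40592) (nat_lit 0) (p (nat_lit 0x40492) (nat_lit 0) (p (nat_lit 0x30412) (nat_lit 0) (p (nat_lit 0x30212) (nat_lit 0) (p (nat_lit 0x20192) (nat_lit 0) (p (nat_lit 0x20092) (nat_lit 0) (p (nat_lit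 0x10012) (nat_lit 0) pn)))))))))))))))))))))))) :=
  Cl.node (nat_lit 0xc9) (nat_lit 2) (by decide +kernel) (ClAll.succ (ClAll.succ ClAll.zero n119) s153)

def n140 : Cl (O (nat_lit 6)) (R (nat_lit 104465))
    (p (nat_lit 0xc9) (nat_lit 1) (p (nat_lit 0x119) (nat_lit 1) (p (nat_lit 0xc1) (nat_lit 0) (p (nat_lit 0x81) (nat_lit 1) (p (nat_lit 0x41) (nat_lit 1) (p (nat_lit 0x10a098b090a9a) (nat_lit 0) (p (nat_lit 0x89890a888a1a) (nat_lit 0) (p (nat_lit 0x109088a08079a) (nat_lit 0) (p (nat_lit 0x88880987871a) (nat_lit 0) (p (nat_lit 0x8000080000000080907088a) (nat_lit 0) (p (nat_lit 0x8000080000000078886860a) (nat_lit 0) (p (nat_lit 0x10688060782) (nat_lit 0) (p (nat_lit 0x8607858702) (nat_lit 0) (p (nat_lit 0x10587050482) (nat_lit 0) (p (nat_lit 0x8506848402) (nat_lit 0) (p (nat_lit 0x160004) (nat_lit 0) (p (nat_lit 0x50612) (nat_lit 0) (p (nat_lit 0x40592) (nat_lit 0) (p (nat_lit 0x40492)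 (nat_lit 0) (p (nat_lit 0x30412) (nat_lit 0) (p (nat_lit 0x30212) (nat_lit 0) (p (nat_lit 0x20192) (nat_lit 0) (p (nat_lit 0x20092) (nat_lit 0) (p (nat_lit 0x10012) (nat_lit 0) pn)))))))))))))))))))))))) :=
  Cl.node (nat_lit 0x109) (nat_lit 2) (by decide +kernel) (ClAll.succ (ClAll.succ ClAll.zero n120) s160)

def n141 : Cl (O (nat_lit 6)) (R (nat_lit 104465))
    (p (nat_lit 0x119) (nat_lit 0) (p (nat_lit 0xd1) (nat_lit 0) (p (nat_lit 0x89) (nat_lit 0) (p (nat_lit 0x41) (nat_lit 0) (p (nat_lit 0x10a098b090a9a) (nat_lit 0) (p (nat_lit 0x89890a888a1a) (nat_lit 0) (p (nat_lit 0x109088a08079a) (nat_lit 0) (p (nat_lit 0x88880987871a) (nat_lit 0) (p (nat_lit 0x8000080000000080907088a) (nat_lit 0) (p (nat_lit 0x8000080000000078886860a) (nat_lit 0) (p (nat_lit 0x10688060782) (nat_lit 0) (p (nat_lit 0x8607858702) (nat_lit 0) (p (nat_lit 0x10587050482) (nat_lit 0) (p (nat_lit 0x8506848402) (nat_lit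 0) (p (nat_lit 0x160004) (nat_lit 0) (p (nat_lit 0x50612) (nat_lit 0) (p (nat_lit 0x40592) (nat_lit 0) (p (nat_lit 0x40492) (nat_lit 0) (p (nat_lit 0x30412) (nat_lit 0) (p (nat_lit 0x30212) (nat_lit 0) (p (nat_lit 0x20192) (nat_lit 0) (p (nat_lit 0x20092) (nat_lit 0) (p (nat_lit 0x10012) (nat_lit 0) pn))))))))))))))))))))))) :=
  Cl.node (nat_lit 0x101) (nat_lit 2) (by decide +kernel) (ClAll.succ (ClAll.succ ClAll.zero n121) n122)

def n142 : Cl (O (nat_lit 6)) (R (nat_lit 104465))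
    (p (nat_lit 0x119) (nat_lit 1) (p (nat_lit 0xd1) (nat_lit 0) (p (nat_lit 0x89) (nat_lit 0) (p (nat_lit 0x41) (nat_lit 0) (p (nat_lit 0x10a098b090a9a) (nat_lit 0) (p (nat_lit 0x89890a888a1a) (nat_lit 0) (p (nat_lit 0x109088a08079a) (nat_lit 0) (p (nat_lit 0x88880987871a) (nat_lit 0) (p (nat_lit 0x8000080000000080907088a) (nat_lit 0) (p (nat_lit 0x8000080000000078886860a) (nat_lit 0) (p (nat_lit 0x10688060782) (nat_lit 0) (p (nat_lit 0x8607858702) (nat_lit 0) (p (nat_lit 0x10587050482) (nat_lit 0) (p (nat_lit 0x8506848402) (nat_lit 0) (p (nat_lit 0x160004) (nat_lit 0) (p (nat_lit 0x50612) (nat_lit 0) (p (nat_lit 0x40592) (nat_lit 0) (p (nat_lit 0x40492) (nat_lit 0) (p (nat_lit 0x30412) (nat_lit 0) (p (nat_lit 0x30212) (nat_lit 0) (p (nat_lit 0x20192) (nat_lit 0) (p (nat_lit 0x20092) (nat_lit 0) (p (nat_lit 0x10012) (nat_lit 0) pn))))))))))))))))))))))) :=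
  Cl.node (nat_lit 0xc1) (nat_lit 2) (by decide +kernel) (ClAll.succ (ClAll.succ ClAll.zero s17) n123)

def n143 : Cl (O (nat_lit 6)) (R (nat_lit 104465))
    (p (nat_lit 0x111) (nat_lit 0) (p (nat_lit 0xd1) (nat_lit 1) (p (nat_lit 0x89) (nat_lit 0) (p (nat_lit 0x41) (nat_lit 0) (p (nat_lit 0x10a098b090a9a) (nat_lit 0) (p (nat_lit 0x89890a888a1a) (nat_lit 0) (p (nat_lit 0x109088a08079a) (nat_lit 0) (p (nat_lit 0x88880987871a) (nat_lit 0) (p (nat_lit 0x8000080000000080907088a) (nat_lit 0) (p (nat_lit 0x8000080000000078886860a) (nat_lit 0) (p (nat_lit 0x10688060782) (nat_lit 0) (p (nat_lit 0x8607858702) (nat_lit 0) (p (nat_lit 0x10587050482) (nat_lit 0) (p (nat_lit 0x8506848402) (nat_lit 0) (p (nat_lit 0x160004) (nat_lit 0) (p (nat_lit 0x50612) (nat_lit 0) (p (nat_lit 0x40592) (nat_lit 0) (p (nat_lit 0x40492) (nat_lit 0) (p (nat_lit 0x30412) (nat_lit 0) (p (nat_lit 0x30212) (nat_lit 0)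 (p (nat_lit 0x20192) (nat_lit 0) (p (nat_lit 0x20092) (nat_lit 0) (p (nat_lit 0x10012) (nat_lit 0) pn))))))))))))))))))))))) :=
  Cl.node (nat_lit 0x101) (nat_lit 2) (by decide +kernel) (ClAll.succ (ClAll.succ ClAll.zero n124) n125)

def n144 : Cl (O (nat_lit 6)) (R (nat_lit 104465))
    (p (nat_lit 0x119) (nat_lit 0) (p (nat_lit 0xc9) (nat_lit 0) (p (nat_lit 0x89) (nat_lit 1) (p (nat_lit 0x41) (nat_lit 0) (p (nat_lit 0x10a098b090a9a) (nat_lit 0) (p (nat_lit 0x89890a888a1a) (nat_lit 0) (p (nat_lit 0x109088a08079a) (nat_lit 0) (p (nat_lit 0x88880987871a) (nat_lit 0) (p (nat_lit 0x8000080000000080907088a) (nat_lit 0) (p (nat_lit 0x8000080000000078886860a) (nat_lit 0) (p (nat_lit 0x10688060782) (nat_lit 0) (p (nat_lit 0x8607858702) (nat_lit 0) (p (nat_lit 0x10587050482) (nat_lit 0) (p (nat_lit 0x8506848402) (nat_lit 0) (p (nat_lit 0x160004) (nat_lit 0) (p (nat_lit 0x50612) (nat_lit 0) (p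 (nat_lit 0x40592) (nat_lit 0) (p (nat_lit 0x40492) (nat_lit 0) (p (nat_lit 0x30412) (nat_lit 0) (p (nat_lit 0x30212) (nat_lit 0) (p (nat_lit 0x20192) (nat_lit 0) (p (nat_lit 0x20092) (nat_lit 0) (p (nat_lit 0x10012) (nat_lit 0) pn))))))))))))))))))))))) :=
  Cl.node (nat_lit 0x101) (nat_lit 2) (by decide +kernel) (ClAll.succ (ClAll.succ ClAll.zero n126) n127)

def n145 : Cl (O (nat_lit 6)) (R (nat_lit 104465))
    (p (nat_lit 0x119) (nat_lit 1) (p (nat_lit 0xc9) (nat_lit 0) (p (nat_lit 0x89) (nat_lit 1) (p (nat_lit 0x41) (nat_lit 0) (p (nat_lit 0x10a098b090a9a) (nat_lit 0) (p (nat_lit 0x89890a888a1a) (nat_lit 0) (p (nat_lit 0x109088a08079a) (nat_lit 0) (p (nat_lit 0x88880987871a) (nat_lit 0) (p (nat_lit 0x8000080000000080907088a) (nat_lit 0) (p (nat_lit 0x8000080000000078886860a) (nat_lit 0) (p (nat_lit 0x10688060782) (nat_lit 0) (p (nat_lit 0x8607858702) (nat_lit 0) (p (nat_lit 0x10587050482)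 (nat_lit 0) (p (nat_lit 0x8506848402) (nat_lit 0) (p (nat_lit 0x160004) (nat_lit 0) (p (nat_lit 0x50612) (nat_lit 0) (p (nat_lit 0x40592) (nat_lit 0) (p (nat_lit 0x40492) (nat_lit 0) (p (nat_lit 0x30412) (nat_lit 0) (p (nat_lit 0x30212) (nat_lit 0) (p (nat_lit 0x20192) (nat_lit 0) (p (nat_lit 0x20092) (nat_lit 0) (p (nat_lit 0x10012) (nat_lit 0) pn))))))))))))))))))))))) :=
  Cl.node (nat_lit 0xc1) (nat_lit 2) (by decide +kernel) (ClAll.succ (ClAll.succ ClAll.zero n128) n129)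

def n146 : Cl (O (nat_lit 6)) (R (nat_lit 104465))
    (p (nat_lit 0x109) (nat_lit 0) (p (nat_lit 0xc9) (nat_lit 1) (p (nat_lit 0x89) (nat_lit 1) (p (nat_lit 0x41) (nat_lit 0) (p (nat_lit 0x10a098b090a9a) (nat_lit 0) (p (nat_lit 0x89890a888a1a) (nat_lit 0) (p (nat_lit 0x109088a08079a) (nat_lit 0) (p (nat_lit 0x88880987871a) (nat_lit 0) (p (nat_lit 0x8000080000000080907088a) (nat_lit 0) (p (nat_lit 0x8000080000000078886860a) (nat_lit 0) (p (nat_lit 0x10688060782) (nat_lit 0) (p (nat_lit 0x8607858702) (nat_lit 0) (p (nat_lit 0x10587050482) (nat_lit 0) (p (nat_lit 0x8506848402) (nat_lit 0) (p (nat_lit 0x160004) (nat_lit 0) (p (nat_lit 0x50612) (nat_lit 0) (p (nat_lit 0x40592) (nat_lit 0) (p (nat_lit 0x40492) (nat_lit 0) (p (nat_lit 0x30412) (nat_lit 0) (p (nat_lit 0x30212) (nat_lit 0) (p (nat_lit 0x20192) (nat_lit 0) (p (nat_lit 0x20092) (nat_lit 0) (p (nat_lit 0x10012) (nat_lit 0) pn)))))))))))))))))))))))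 :=
  Cl.node (nat_lit 0x101) (nat_lit 2) (by decide +kernel) (ClAll.succ (ClAll.succ ClAll.zero n130) s85)

def n147 : Cl (O (nat_lit 6)) (R (nat_lit 104465))
    (p (nat_lit 0x119) (nat_lit 0) (p (nat_lit 0xd1) (nat_lit 0) (p (nat_lit 0x81) (nat_lit 0) (p (nat_lit 0x41) (nat_lit 1) (p (nat_lit 0x10a098b090a9a) (nat_lit 0) (p (nat_lit 0x89890a888a1a) (nat_lit 0) (p (nat_lit 0x109088a08079a) (nat_lit 0) (p (nat_lit 0x88880987871a) (nat_lit 0) (p (nat_lit 0x8000080000000080907088a) (nat_lit 0) (p (nat_lit 0x8000080000000078886860a) (nat_lit 0) (p (nat_lit 0x10688060782) (nat_lit 0) (p (nat_lit 0x8607858702) (nat_lit 0) (p (nat_lit 0x10587050482) (nat_lit 0) (p (nat_lit 0x8506848402) (nat_lit 0) (p (nat_lit 0x160004) (nat_lit 0) (p (nat_lit 0x50612) (nat_lit 0) (p (nat_lit 0x40592) (nat_lit 0) (p (nat_lit 0x40492) (nat_lit 0) (p (nat_lit 0x30412) (nat_lit 0) (p (nat_lit 0x30212) (nat_lit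 0) (p (nat_lit 0x20192) (nat_lit 0) (p (nat_lit 0x20092) (nat_lit 0) (p (nat_lit 0x10012) (nat_lit 0) pn))))))))))))))))))))))) :=
  Cl.node (nat_lit 0x101) (nat_lit 2) (by decide +kernel) (ClAll.succ (ClAll.succ ClAll.zero n131) n132)

def n148 : Cl (O (nat_lit 6)) (R (nat_lit 104465))
    (p (nat_lit 0x119) (nat_lit 1) (p (nat_lit 0xd1) (nat_lit 0) (p (nat_lit 0x81) (nat_lit 0) (p (nat_lit 0x41) (nat_lit 1) (p (nat_lit 0x10a098b090a9a) (nat_lit 0) (p (nat_lit 0x89890a888a1a) (nat_lit 0) (p (nat_lit 0x109088a08079a) (nat_lit 0) (p (nat_lit 0x88880987871a) (nat_lit 0) (p (nat_lit 0x8000080000000080907088a) (nat_lit 0) (p (nat_lit 0x8000080000000078886860a) (nat_lit 0) (p (nat_lit 0x10688060782) (nat_lit 0) (p (nat_lit 0x8607858702) (nat_lit 0) (p (nat_lit 0x10587050482) (nat_lit 0) (p (nat_lit 0x8506848402) (nat_lit 0) (p (nat_lit 0x160004) (nat_lit 0) (p (nat_lit 0x50612) (nat_lit 0)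 (p (nat_lit 0x40592) (nat_lit 0) (p (nat_lit 0x40492) (nat_lit 0) (p (nat_lit 0x30412) (nat_lit 0) (p (nat_lit 0x30212) (nat_lit 0) (p (nat_lit 0x20192) (nat_lit 0) (p (nat_lit 0x20092) (nat_lit 0) (p (nat_lit 0x10012) (nat_lit 0) pn))))))))))))))))))))))) :=
  Cl.node (nat_lit 0xc1) (nat_lit 2) (by decide +kernel) (ClAll.succ (ClAll.succ ClAll.zero n133) n134)

def n149 : Cl (O (nat_lit 6)) (R (nat_lit 104465))
    (p (nat_lit 0x111) (nat_lit 0) (p (nat_lit 0xd1) (nat_lit 1) (p (nat_lit 0x81) (nat_lit 0) (p (nat_lit 0x41) (nat_lit 1) (p (nat_lit 0x10a098b090a9a) (nat_lit 0) (p (nat_lit 0x89890a888a1a) (nat_lit 0) (p (nat_lit 0x109088a08079a) (nat_lit 0) (p (nat_lit 0x88880987871a) (nat_lit 0) (p (nat_lit 0x8000080000000080907088a) (nat_lit 0) (p (nat_lit 0x8000080000000078886860a) (nat_lit 0) (p (nat_lit 0x10688060782) (nat_lit 0) (p (nat_lit 0x8607858702) (nat_lit 0) (p (nat_lit 0x10587050482)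 (nat_lit 0) (p (nat_lit 0x8506848402) (nat_lit 0) (p (nat_lit 0x160004) (nat_lit 0) (p (nat_lit 0x50612) (nat_lit 0) (p (nat_lit 0x40592) (nat_lit 0) (p (nat_lit 0x40492) (nat_lit 0) (p (nat_lit 0x30412) (nat_lit 0) (p (nat_lit 0x30212) (nat_lit 0) (p (nat_lit 0x20192) (nat_lit 0) (p (nat_lit 0x20092) (nat_lit 0) (p (nat_lit 0x10012) (nat_lit 0) pn))))))))))))))))))))))) :=
  Cl.node (nat_lit 0x101) (nat_lit 2) (by decide +kernel) (ClAll.succ (ClAll.succ ClAll.zero n135) n136)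

def n150 : Cl (O (nat_lit 6)) (R (nat_lit 104465))
    (p (nat_lit 0x111) (nat_lit 1) (p (nat_lit 0xd1) (nat_lit 1) (p (nat_lit 0x81) (nat_lit 0) (p (nat_lit 0x41) (nat_lit 1) (p (nat_lit 0x10a098b090a9a) (nat_lit 0) (p (nat_lit 0x89890a888a1a) (nat_lit 0) (p (nat_lit 0x109088a08079a) (nat_lit 0) (p (nat_lit 0x88880987871a) (nat_lit 0) (p (nat_lit 0x8000080000000080907088a) (nat_lit 0) (p (nat_lit 0x8000080000000078886860a) (nat_lit 0) (p (nat_lit 0x10688060782) (nat_lit 0) (p (nat_lit 0x8607858702) (nat_lit 0) (p (nat_lit 0x10587050482) (nat_lit 0) (p (nat_lit 0x8506848402) (nat_lit 0) (p (nat_lit 0x160004) (nat_lit 0) (p (nat_lit 0x50612) (nat_lit 0) (p (nat_lit 0x40592) (nat_lit 0) (p (nat_lit 0x40492) (nat_lit 0) (p (nat_lit 0x30412) (nat_lit 0) (p (nat_lit 0x30212) (nat_lit 0) (p (nat_lit 0x20192) (nat_lit 0) (p (nat_lit 0x20092) (nat_lit 0) (p (nat_lit 0x10012) (nat_lit 0) pn)))))))))))))))))))))))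 :=
  Cl.node (nat_lit 0x89) (nat_lit 2) (by decide +kernel) (ClAll.succ (ClAll.succ ClAll.zero s140) n137)

def n151 : Cl (O (nat_lit 6)) (R (nat_lit 104465))
    (p (nat_lit 0x119) (nat_lit 0) (p (nat_lit 0xc1) (nat_lit 0) (p (nat_lit 0x81) (nat_lit 1) (p (nat_lit 0x41) (nat_lit 1) (p (nat_lit 0x10a098b090a9a) (nat_lit 0) (p (nat_lit 0x89890a888a1a) (nat_lit 0) (p (nat_lit 0x109088a08079a) (nat_lit 0) (p (nat_lit 0x88880987871a) (nat_lit 0) (p (nat_lit 0x8000080000000080907088a) (nat_lit 0) (p (nat_lit 0x8000080000000078886860a) (nat_lit 0) (p (nat_lit 0x10688060782) (nat_lit 0) (p (nat_lit 0x8607858702) (nat_lit 0) (p (nat_lit 0x10587050482) (nat_lit 0) (p (nat_lit 0x8506848402) (nat_lit 0) (p (nat_lit 0x160004) (nat_lit 0) (p (nat_lit 0x50612) (nat_lit 0) (p (nat_lit 0x40592) (nat_lit 0) (p (nat_lit 0x40492) (nat_lit 0) (p (nat_lit 0x30412) (nat_lit 0) (p (nat_lit 0x30212) (nat_lit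 0) (p (nat_lit 0x20192) (nat_lit 0) (p (nat_lit 0x20092) (nat_lit 0) (p (nat_lit 0x10012) (nat_lit 0) pn))))))))))))))))))))))) :=
  Cl.node (nat_lit 0x101) (nat_lit 2) (by decide +kernel) (ClAll.succ (ClAll.succ ClAll.zero n138) n139)

def n152 : Cl (O (nat_lit 6)) (R (nat_lit 104465))
    (p (nat_lit 0x119) (nat_lit 1) (p (nat_lit 0xc1) (nat_lit 0) (p (nat_lit 0x81) (nat_lit 1) (p (nat_lit 0x41) (nat_lit 1) (p (nat_lit 0x10a098b090a9a) (nat_lit 0) (p (nat_lit 0x89890a888a1a) (nat_lit 0) (p (nat_lit 0x109088a08079a) (nat_lit 0) (p (nat_lit 0x88880987871a) (nat_lit 0) (p (nat_lit 0x8000080000000080907088a) (nat_lit 0) (p (nat_lit 0x8000080000000078886860a) (nat_lit 0) (p (nat_lit 0x10688060782) (nat_lit 0) (p (nat_lit 0x8607858702) (nat_lit 0) (p (nat_lit 0x10587050482) (nat_lit 0) (p (nat_lit 0x8506848402) (nat_lit 0) (p (nat_lit 0x160004) (nat_lit 0) (p (nat_lit 0x50612) (nat_lit 0)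 (p (nat_lit 0x40592) (nat_lit 0) (p (nat_lit 0x40492) (nat_lit 0) (p (nat_lit 0x30412) (nat_lit 0) (p (nat_lit 0x30212) (nat_lit 0) (p (nat_lit 0x20192) (nat_lit 0) (p (nat_lit 0x20092) (nat_lit 0) (p (nat_lit 0x10012) (nat_lit 0) pn))))))))))))))))))))))) :=
  Cl.node (nat_lit 0xc9) (nat_lit 2) (by decide +kernel) (ClAll.succ (ClAll.succ ClAll.zero s154) n140)

def n153 : Cl (O (nat_lit 6)) (R (nat_lit 104465))
    (p (nat_lit 0x101) (nat_lit 0) (p (nat_lit 0xc1) (nat_lit 1) (p (nat_lit 0x81) (nat_lit 1) (p (nat_lit 0x41) (nat_lit 1) (p (nat_lit 0x10a098b090a9a) (nat_lit 0) (p (nat_lit 0x89890a888a1a) (nat_lit 0) (p (nat_lit 0x109088a08079a) (nat_lit 0) (p (nat_lit 0x88880987871a) (nat_lit 0) (p (nat_lit 0x8000080000000080907088a) (nat_lit 0) (p (nat_lit 0x8000080000000078886860a) (nat_lit 0) (p (nat_lit 0x10688060782) (nat_lit 0) (p (nat_lit 0x8607858702) (nat_lit 0) (p (nat_lit 0x10587050482)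 (nat_lit 0) (p (nat_lit 0x8506848402) (nat_lit 0) (p (nat_lit 0x160004) (nat_lit 0) (p (nat_lit 0x50612) (nat_lit 0) (p (nat_lit 0x40592) (nat_lit 0) (p (nat_lit 0x40492) (nat_lit 0) (p (nat_lit 0x30412) (nat_lit 0) (p (nat_lit 0x30212) (nat_lit 0) (p (nat_lit 0x20192) (nat_lit 0) (p (nat_lit 0x20092) (nat_lit 0) (p (nat_lit 0x10012) (nat_lit 0) pn))))))))))))))))))))))) :=
  Cl.node (nat_lit 0x109) (nat_lit 2) (by decide +kernel) (ClAll.succ (ClAll.succ ClAll.zero s161) s162)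

def n154 : Cl (O (nat_lit 6)) (R (nat_lit 104465))
    (p (nat_lit 0xd1) (nat_lit 0) (p (nat_lit 0x89) (nat_lit 0) (p (nat_lit 0x41) (nat_lit 0) (p (nat_lit 0x10a098b090a9a) (nat_lit 0) (p (nat_lit 0x89890a888a1a) (nat_lit 0) (p (nat_lit 0x109088a08079a) (nat_lit 0) (p (nat_lit 0x88880987871a) (nat_lit 0) (p (nat_lit 0x8000080000000080907088a) (nat_lit 0) (p (nat_lit 0x8000080000000078886860a) (nat_lit 0) (p (nat_lit 0x10688060782) (nat_lit 0) (p (nat_lit 0x8607858702) (nat_lit 0) (p (nat_lit 0x10587050482) (nat_lit 0) (p (nat_lit 0x8506848402) (nat_lit 0) (p (nat_lit 0x160004) (nat_lit 0) (p (nat_lit 0x50612) (nat_lit 0) (p (nat_lit 0x40592) (nat_lit 0) (p (nat_lit 0x40492) (nat_lit 0) (p (nat_lit 0x30412) (nat_lit 0) (p (nat_lit 0x30212) (nat_lit 0) (p (nat_lit 0x20192) (nat_lit 0) (p (nat_lit 0x20092) (nat_lit 0) (p (nat_lit 0x10012) (nat_lit 0) pn)))))))))))))))))))))) :=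
  Cl.node (nat_lit 0x119) (nat_lit 2) (by decide +kernel) (ClAll.succ (ClAll.succ ClAll.zero n141) n142)

def n155 : Cl (O (nat_lit 6)) (R (nat_lit 104465))
    (p (nat_lit 0xd1) (nat_lit 1) (p (nat_lit 0x89) (nat_lit 0) (p (nat_lit 0x41) (nat_lit 0) (p (nat_lit 0x10a098b090a9a) (nat_lit 0) (p (nat_lit 0x89890a888a1a) (nat_lit 0) (p (nat_lit 0x109088a08079a) (nat_lit 0) (p (nat_lit 0x88880987871a) (nat_lit 0) (p (nat_lit 0x8000080000000080907088a) (nat_lit 0) (p (nat_lit 0x8000080000000078886860a) (nat_lit 0) (p (nat_lit 0x10688060782) (nat_lit 0) (p (nat_lit 0x8607858702) (nat_lit 0) (p (nat_lit 0x10587050482) (nat_lit 0) (p (nat_lit 0x8506848402) (nat_lit 0) (p (nat_lit 0x160004) (nat_lit 0) (p (nat_lit 0x50612) (nat_lit 0) (p (nat_lit 0x40592) (nat_lit 0) (p (nat_lit 0x40492) (nat_lit 0) (p (nat_lit 0x30412) (nat_lit 0) (p (nat_lit 0x30212) (nat_lit 0) (p (nat_lit 0x20192) (nat_lit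 0) (p (nat_lit 0x20092) (nat_lit 0) (p (nat_lit 0x10012) (nat_lit 0) pn)))))))))))))))))))))) :=
  Cl.node (nat_lit 0x111) (nat_lit 2) (by decide +kernel) (ClAll.succ (ClAll.succ ClAll.zero n143) s42)

def n156 : Cl (O (nat_lit 6)) (R (nat_lit 104465))
    (p (nat_lit 0xc9) (nat_lit 0) (p (nat_lit 0x89) (nat_lit 1) (p (nat_lit 0x41) (nat_lit 0) (p (nat_lit 0x10a098b090a9a) (nat_lit 0) (p (nat_lit 0x89890a888a1a) (nat_lit 0) (p (nat_lit 0x109088a08079a) (nat_lit 0) (p (nat_lit 0x88880987871a) (nat_lit 0) (p (nat_lit 0x8000080000000080907088a) (nat_lit 0) (p (nat_lit 0x8000080000000078886860a) (nat_lit 0) (p (nat_lit 0x10688060782) (nat_lit 0) (p (nat_lit 0x8607858702) (nat_lit 0) (p (nat_lit 0x10587050482) (nat_lit 0) (p (nat_lit 0x8506848402) (nat_lit 0) (p (nat_lit 0x160004) (nat_lit 0) (p (nat_lit 0x50612) (nat_lit 0) (p (nat_lit 0x40592) (nat_lit 0) (p (nat_lit 0x40492) (nat_lit 0)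 (p (nat_lit 0x30412) (nat_lit 0) (p (nat_lit 0x30212) (nat_lit 0) (p (nat_lit 0x20192) (nat_lit 0) (p (nat_lit 0x20092) (nat_lit 0) (p (nat_lit 0x10012) (nat_lit 0) pn)))))))))))))))))))))) :=
  Cl.node (nat_lit 0x119) (nat_lit 2) (by decide +kernel) (ClAll.succ (ClAll.succ ClAll.zero n144) n145)

def n157 : Cl (O (nat_lit 6)) (R (nat_lit 104465))
    (p (nat_lit 0xc9) (nat_lit 1) (p (nat_lit 0x89) (nat_lit 1) (p (nat_lit 0x41) (nat_lit 0) (p (nat_lit 0x10a098b090a9a) (nat_lit 0) (p (nat_lit 0x89890a888a1a) (nat_lit 0) (p (nat_lit 0x109088a08079a) (nat_lit 0) (p (nat_lit 0x88880987871a) (nat_lit 0) (p (nat_lit 0x8000080000000080907088a) (nat_lit 0) (p (nat_lit 0x8000080000000078886860a) (nat_lit 0) (p (nat_lit 0x10688060782) (nat_lit 0) (p (nat_lit 0x8607858702) (nat_lit 0) (p (nat_lit 0x10587050482) (nat_lit 0) (p (nat_lit 0x8506848402) (nat_lit 0) (p (nat_lit 0x160004) (nat_lit 0)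 (p (nat_lit 0x50612) (nat_lit 0) (p (nat_lit 0x40592) (nat_lit 0) (p (nat_lit 0x40492) (nat_lit 0) (p (nat_lit 0x30412) (nat_lit 0) (p (nat_lit 0x30212) (nat_lit 0) (p (nat_lit 0x20192) (nat_lit 0) (p (nat_lit 0x20092) (nat_lit 0) (p (nat_lit 0x10012) (nat_lit 0) pn)))))))))))))))))))))) :=
  Cl.node (nat_lit 0x109) (nat_lit 2) (by decide +kernel) (ClAll.succ (ClAll.succ ClAll.zero n146) s86)

def n158 : Cl (O (nat_lit 6)) (R (nat_lit 104465))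
    (p (nat_lit 0xd1) (nat_lit 0) (p (nat_lit 0x81) (nat_lit 0) (p (nat_lit 0x41) (nat_lit 1) (p (nat_lit 0x10a098b090a9a) (nat_lit 0) (p (nat_lit 0x89890a888a1a) (nat_lit 0) (p (nat_lit 0x109088a08079a) (nat_lit 0) (p (nat_lit 0x88880987871a) (nat_lit 0) (p (nat_lit 0x8000080000000080907088a) (nat_lit 0) (p (nat_lit 0x8000080000000078886860a) (nat_lit 0) (p (nat_lit 0x10688060782) (nat_lit 0) (p (nat_lit 0x8607858702) (nat_lit 0) (p (nat_lit 0x10587050482) (nat_lit 0) (p (nat_lit 0x8506848402) (nat_lit 0) (p (nat_lit 0x160004) (nat_lit 0) (p (nat_lit 0x50612) (nat_lit 0) (p (nat_lit 0x40592) (nat_lit 0) (p (nat_lit 0x40492) (nat_lit 0) (p (nat_lit 0x30412) (nat_lit 0) (p (nat_lit 0x30212) (nat_lit 0) (p (nat_lit 0x20192) (nat_lit 0) (p (nat_lit 0x20092) (nat_lit 0) (p (nat_lit 0x10012) (nat_lit 0) pn)))))))))))))))))))))) :=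
  Cl.node (nat_lit 0x119) (nat_lit 2) (by decide +kernel) (ClAll.succ (ClAll.succ ClAll.zero n147) n148)

def n159 : Cl (O (nat_lit 6)) (R (nat_lit 104465))
    (p (nat_lit 0xd1) (nat_lit 1) (p (nat_lit 0x81) (nat_lit 0) (p (nat_lit 0x41) (nat_lit 1) (p (nat_lit 0x10a098b090a9a) (nat_lit 0) (p (nat_lit 0x89890a888a1a) (nat_lit 0) (p (nat_lit 0x109088a08079a) (nat_lit 0) (p (nat_lit 0x88880987871a) (nat_lit 0) (p (nat_lit 0x8000080000000080907088a) (nat_lit 0) (p (nat_lit 0x8000080000000078886860a) (nat_lit 0) (p (nat_lit 0x10688060782) (nat_lit 0) (p (nat_lit 0x8607858702) (nat_lit 0) (p (nat_lit 0x10587050482) (nat_lit 0) (p (nat_lit 0x8506848402) (nat_lit 0) (p (nat_lit 0x160004) (nat_lit 0) (p (nat_lit 0x50612) (nat_lit 0) (p (nat_lit 0x40592) (nat_lit 0) (p (nat_lit 0x40492) (nat_lit 0) (p (nat_lit 0x30412) (nat_lit 0) (p (nat_lit 0x30212) (nat_lit 0) (p (nat_lit 0x20192) (nat_lit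 0) (p (nat_lit 0x20092) (nat_lit 0) (p (nat_lit 0x10012) (nat_lit 0) pn)))))))))))))))))))))) :=
  Cl.node (nat_lit 0x111) (nat_lit 2) (by decide +kernel) (ClAll.succ (ClAll.succ ClAll.zero n149) n150)

def n160 : Cl (O (nat_lit 6)) (R (nat_lit 104465))
    (p (nat_lit 0xc1) (nat_lit 0) (p (nat_lit 0x81) (nat_lit 1) (p (nat_lit 0x41) (nat_lit 1) (p (nat_lit 0x10a098b090a9a) (nat_lit 0) (p (nat_lit 0x89890a888a1a) (nat_lit 0) (p (nat_lit 0x109088a08079a) (nat_lit 0) (p (nat_lit 0x88880987871a) (nat_lit 0) (p (nat_lit 0x8000080000000080907088a) (nat_lit 0) (p (nat_lit 0x8000080000000078886860a) (nat_lit 0) (p (nat_lit 0x10688060782) (nat_lit 0) (p (nat_lit 0x8607858702) (nat_lit 0) (p (nat_lit 0x10587050482) (nat_lit 0) (p (nat_lit 0x8506848402) (nat_lit 0) (p (nat_lit 0x160004) (nat_lit 0) (p (nat_lit 0x50612) (nat_lit 0) (p (nat_lit 0x40592) (nat_lit 0) (p (nat_lit 0x40492) (nat_lit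 0) (p (nat_lit 0x30412) (nat_lit 0) (p (nat_lit 0x30212) (nat_lit 0) (p (nat_lit 0x20192) (nat_lit 0) (p (nat_lit 0x20092) (nat_lit 0) (p (nat_lit 0x10012) (nat_lit 0) pn)))))))))))))))))))))) :=
  Cl.node (nat_lit 0x119) (nat_lit 2) (by decide +kernel) (ClAll.succ (ClAll.succ ClAll.zero n151) n152)

def n161 : Cl (O (nat_lit 6)) (R (nat_lit 104465))
    (p (nat_lit 0xc1) (nat_lit 1) (p (nat_lit 0x81) (nat_lit 1) (p (nat_lit 0x41) (nat_lit 1) (p (nat_lit 0x10a098b090a9a) (nat_lit 0) (p (nat_lit 0x89890a888a1a) (nat_lit 0) (p (nat_lit 0x109088a08079a) (nat_lit 0) (p (nat_lit 0x88880987871a) (nat_lit 0) (p (nat_lit 0x8000080000000080907088a) (nat_lit 0) (p (nat_lit 0x8000080000000078886860a) (nat_lit 0) (p (nat_lit 0x10688060782) (nat_lit 0) (p (nat_lit 0x8607858702) (nat_lit 0) (p (nat_lit 0x10587050482) (nat_lit 0) (p (nat_lit 0x8506848402) (nat_lit 0) (p (nat_lit 0x160004) (nat_lit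 0) (p (nat_lit 0x50612) (nat_lit 0) (p (nat_lit 0x40592) (nat_lit 0) (p (nat_lit 0x40492) (nat_lit 0) (p (nat_lit 0x30412) (nat_lit 0) (p (nat_lit 0x30212) (nat_lit 0) (p (nat_lit 0x20192) (nat_lit 0) (p (nat_lit 0x20092) (nat_lit 0) (p (nat_lit 0x10012) (nat_lit 0) pn)))))))))))))))))))))) :=
  Cl.node (nat_lit 0x101) (nat_lit 2) (by decide +kernel) (ClAll.succ (ClAll.succ ClAll.zero n153) s163)

def n162 : Cl (O (nat_lit 6)) (R (nat_lit 104465))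
    (p (nat_lit 0x89) (nat_lit 0) (p (nat_lit 0x41) (nat_lit 0) (p (nat_lit 0x10a098b090a9a) (nat_lit 0) (p (nat_lit 0x89890a888a1a) (nat_lit 0) (p (nat_lit 0x109088a08079a) (nat_lit 0) (p (nat_lit 0x88880987871a) (nat_lit 0) (p (nat_lit 0x8000080000000080907088a) (nat_lit 0) (p (nat_lit 0x8000080000000078886860a) (nat_lit 0) (p (nat_lit 0x10688060782) (nat_lit 0) (p (nat_lit 0x8607858702) (nat_lit 0) (p (nat_lit 0x10587050482) (nat_lit 0) (p (nat_lit 0x8506848402) (nat_lit 0) (p (nat_lit 0x160004) (nat_lit 0) (p (nat_lit 0x50612) (nat_lit 0) (p (nat_lit 0x40592) (nat_lit 0) (p (nat_lit 0x40492) (nat_lit 0) (p (nat_lit 0x30412) (nat_lit 0) (p (nat_lit 0x30212) (nat_lit 0) (p (nat_lit 0x20192) (nat_lit 0) (p (nat_lit 0x20092) (nat_lit 0) (p (nat_lit 0x10012) (nat_lit 0) pn))))))))))))))))))))) :=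
  Cl.node (nat_lit 0xd1) (nat_lit 2) (by decide +kernel) (ClAll.succ (ClAll.succ ClAll.zero n154) n155)

def n163 : Cl (O (nat_lit 6)) (R (nat_lit 104465))
    (p (nat_lit 0x89) (nat_lit 1) (p (nat_lit 0x41) (nat_lit 0) (p (nat_lit 0x10a098b090a9a) (nat_lit 0) (p (nat_lit 0x89890a888a1a) (nat_lit 0) (p (nat_lit 0x109088a08079a) (nat_lit 0) (p (nat_lit 0x88880987871a) (nat_lit 0) (p (nat_lit 0x8000080000000080907088a) (nat_lit 0) (p (nat_lit 0x8000080000000078886860a) (nat_lit 0) (p (nat_lit 0x10688060782) (nat_lit 0) (p (nat_lit 0x8607858702) (nat_lit 0) (p (nat_lit 0x10587050482) (nat_lit 0) (p (nat_lit 0x8506848402) (nat_lit 0) (p (nat_lit 0x160004) (nat_lit 0) (p (nat_lit 0x50612) (nat_lit 0) (p (nat_lit 0x40592) (nat_lit 0) (p (nat_lit 0x40492) (nat_lit 0) (p (nat_lit 0x30412) (nat_lit 0) (p (nat_lit 0x30212) (nat_lit 0) (p (nat_lit 0x20192) (nat_lit 0) (p (nat_lit 0x20092) (nat_lit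 0) (p (nat_lit 0x10012) (nat_lit 0) pn))))))))))))))))))))) :=
  Cl.node (nat_lit 0xc9) (nat_lit 2) (by decide +kernel) (ClAll.succ (ClAll.succ ClAll.zero n156) n157)

def n164 : Cl (O (nat_lit 6)) (R (nat_lit 104465))
    (p (nat_lit 0x81) (nat_lit 0) (p (nat_lit 0x41) (nat_lit 1) (p (nat_lit 0x10a098b090a9a) (nat_lit 0) (p (nat_lit 0x89890a888a1a) (nat_lit 0) (p (nat_lit 0x109088a08079a) (nat_lit 0) (p (nat_lit 0x88880987871a) (nat_lit 0) (p (nat_lit 0x8000080000000080907088a) (nat_lit 0) (p (nat_lit 0x8000080000000078886860a) (nat_lit 0) (p (nat_lit 0x10688060782) (nat_lit 0) (p (nat_lit 0x8607858702) (nat_lit 0) (p (nat_lit 0x10587050482) (nat_lit 0) (p (nat_lit 0x8506848402) (nat_lit 0) (p (nat_lit 0x160004) (nat_lit 0) (p (nat_lit 0x50612) (nat_lit 0) (p (nat_lit 0x40592) (nat_lit 0) (p (nat_lit 0x40492) (nat_lit 0) (p (nat_lit 0x30412) (nat_lit 0) (p (nat_lit 0x30212) (nat_lit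 0) (p (nat_lit 0x20192) (nat_lit 0) (p (nat_lit 0x20092) (nat_lit 0) (p (nat_lit 0x10012) (nat_lit 0) pn))))))))))))))))))))) :=
  Cl.node (nat_lit 0xd1) (nat_lit 2) (by decide +kernel) (ClAll.succ (ClAll.succ ClAll.zero n158) n159)

def n165 : Cl (O (nat_lit 6)) (R (nat_lit 104465))
    (p (nat_lit 0x81) (nat_lit 1) (p (nat_lit 0x41) (nat_lit 1) (p (nat_lit 0x10a098b090a9a) (nat_lit 0) (p (nat_lit 0x89890a888a1a) (nat_lit 0) (p (nat_lit 0x109088a08079a) (nat_lit 0) (p (nat_lit 0x88880987871a) (nat_lit 0) (p (nat_lit 0x8000080000000080907088a) (nat_lit 0) (p (nat_lit 0x8000080000000078886860a) (nat_lit 0) (p (nat_lit 0x10688060782) (nat_lit 0) (p (nat_lit 0x8607858702) (nat_lit 0) (p (nat_lit 0x10587050482) (nat_lit 0) (p (nat_lit 0x8506848402) (nat_lit 0) (p (nat_lit 0x160004) (nat_lit 0) (p (nat_lit 0x50612) (nat_lit 0) (p (nat_lit 0x40592) (nat_lit 0) (p (nat_lit 0x40492) (nat_lit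 0) (p (nat_lit 0x30412) (nat_lit 0) (p (nat_lit 0x30212) (nat_lit 0) (p (nat_lit 0x20192) (nat_lit 0) (p (nat_lit 0x20092) (nat_lit 0) (p (nat_lit 0x10012) (nat_lit 0) pn))))))))))))))))))))) :=
  Cl.node (nat_lit 0xc1) (nat_lit 2) (by decide +kernel) (ClAll.succ (ClAll.succ ClAll.zero n160) n161)

def n166 : Cl (O (nat_lit 6)) (R (nat_lit 104465))
    (p (nat_lit 0x41) (nat_lit 0) (p (nat_lit 0x10a098b090a9a) (nat_lit 0) (p (nat_lit 0x89890a888a1a) (nat_lit 0) (p (nat_lit 0x109088a08079a) (nat_lit 0) (p (nat_lit 0x88880987871a) (nat_lit 0) (p (nat_lit 0x8000080000000080907088a) (nat_lit 0) (p (nat_lit 0x8000080000000078886860a) (nat_lit 0) (p (nat_lit 0x10688060782) (nat_lit 0) (p (nat_lit 0x8607858702) (nat_lit 0) (p (nat_lit 0x10587050482) (nat_lit 0) (p (nat_lit 0x8506848402) (nat_lit 0) (p (nat_lit 0x160004) (nat_lit 0) (p (nat_lit 0x50612) (nat_lit 0) (p (nat_lit 0x40592) (nat_lit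 0) (p (nat_lit 0x40492) (nat_lit 0) (p (nat_lit 0x30412) (nat_lit 0) (p (nat_lit 0x30212) (nat_lit 0) (p (nat_lit 0x20192) (nat_lit 0) (p (nat_lit 0x20092) (nat_lit 0) (p (nat_lit 0x10012) (nat_lit 0) pn)))))))))))))))))))) :=
  Cl.node (nat_lit 0x89) (nat_lit 2) (by decide +kernel) (ClAll.succ (ClAll.succ ClAll.zero n162) n163)

def n167 : Cl (O (nat_lit 6)) (R (nat_lit 104465))
    (p (nat_lit 0x41) (nat_lit 1) (p (nat_lit 0x10a098b090a9a) (nat_lit 0) (p (nat_lit 0x89890a888a1a) (nat_lit 0) (p (nat_lit 0x109088a08079a) (nat_lit 0) (p (nat_lit 0x88880987871a) (nat_lit 0) (p (nat_lit 0x8000080000000080907088a) (nat_lit 0) (p (nat_lit 0x8000080000000078886860a) (nat_lit 0) (p (nat_lit 0x10688060782) (nat_lit 0) (p (nat_lit 0x8607858702) (nat_lit 0) (p (nat_lit 0x10587050482) (nat_lit 0) (p (nat_lit 0x8506848402) (nat_lit 0) (p (nat_lit 0x160004) (nat_lit 0) (p (nat_lit 0x50612) (nat_lit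 0) (p (nat_lit 0x40592) (nat_lit 0) (p (nat_lit 0x40492) (nat_lit 0) (p (nat_lit 0x30412) (nat_lit 0) (p (nat_lit 0x30212) (nat_lit 0) (p (nat_lit 0x20192) (nat_lit 0) (p (nat_lit 0x20092) (nat_lit 0) (p (nat_lit 0x10012) (nat_lit 0) pn)))))))))))))))))))) :=
  Cl.node (nat_lit 0x81) (nat_lit 2) (by decide +kernel) (ClAll.succ (ClAll.succ ClAll.zero n164) n165)

def n168 : Cl (O (nat_lit 6)) (R (nat_lit 104465))
    (p (nat_lit 0x10a098b090a9a) (nat_lit 0) (p (nat_lit 0x89890a888a1a) (nat_lit 0) (p (nat_lit 0x109088a08079a) (nat_lit 0) (p (nat_lit 0x88880987871a) (nat_lit 0) (p (nat_lit 0x8000080000000080907088a) (nat_lit 0) (p (nat_lit 0x8000080000000078886860a) (nat_lit 0) (p (nat_lit 0x10688060782) (nat_lit 0) (p (nat_lit 0x8607858702) (nat_lit 0) (p (nat_lit 0x10587050482) (nat_lit 0) (p (nat_lit 0x8506848402) (nat_lit 0) (p (nat_lit 0x160004) (nat_lit 0) (p (nat_lit 0x50612) (nat_lit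 0) (p (nat_lit 0x40592) (nat_lit 0) (p (nat_lit 0x40492) (nat_lit 0) (p (nat_lit 0x30412) (nat_lit 0) (p (nat_lit 0x30212) (nat_lit 0) (p (nat_lit 0x20192) (nat_lit 0) (p (nat_lit 0x20092) (nat_lit 0) (p (nat_lit 0x10012) (nat_lit 0) pn))))))))))))))))))) :=
  Cl.node (nat_lit 0x41) (nat_lit 2) (by decide +kernel) (ClAll.succ (ClAll.succ ClAll.zero n166) n167)

def n169 : Cl (O (nat_lit 6)) (R (nat_lit 104465))
    (p (nat_lit 0x89890a888a1a) (nat_lit 0) (p (nat_lit 0x109088a08079a) (nat_lit 0) (p (nat_lit 0x88880987871a) (nat_lit 0) (p (nat_lit 0x8000080000000080907088a) (nat_lit 0) (p (nat_lit 0x8000080000000078886860a) (nat_lit 0) (p (nat_lit 0x10688060782) (nat_lit 0) (p (nat_lit 0x8607858702) (nat_lit 0) (p (nat_lit 0x10587050482) (nat_lit 0) (p (nat_lit 0x8506848402) (nat_lit 0) (p (nat_lit 0x160004) (nat_lit 0) (p (nat_lit 0x50612) (nat_lit 0) (p (nat_lit 0x40592) (nat_lit 0)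 (p (nat_lit 0x40492) (nat_lit 0) (p (nat_lit 0x30412) (nat_lit 0) (p (nat_lit 0x30212) (nat_lit 0) (p (nat_lit 0x20192) (nat_lit 0) (p (nat_lit 0x20092) (nat_lit 0) (p (nat_lit 0x10012) (nat_lit 0) pn)))))))))))))))))) :=
  Cl.node (nat_lit 0x10a098b090a9a) (nat_lit 1) (by decide +kernel) (ClAll.succ ClAll.zero n168)

def n170 : Cl (O (nat_lit 6)) (R (nat_lit 104465))
    (p (nat_lit 0x109088a08079a) (nat_lit 0) (p (nat_lit 0x88880987871a) (nat_lit 0) (p (nat_lit 0x8000080000000080907088a) (nat_lit 0) (p (nat_lit 0x8000080000000078886860a) (nat_lit 0) (p (nat_lit 0x10688060782) (nat_lit 0) (p (nat_lit 0x8607858702) (nat_lit 0) (p (nat_lit 0x10587050482) (nat_lit 0) (p (nat_lit 0x8506848402) (nat_lit 0) (p (nat_lit 0x160004) (nat_lit 0) (p (nat_lit 0x50612) (nat_lit 0) (p (nat_lit 0x40592) (nat_lit 0) (p (nat_lit 0x40492) (nat_lit 0) (p (nat_lit 0x30412) (nat_lit 0) (p (nat_lit 0x30212)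 (nat_lit 0) (p (nat_lit 0x20192) (nat_lit 0) (p (nat_lit 0x20092) (nat_lit 0) (p (nat_lit 0x10012) (nat_lit 0) pn))))))))))))))))) :=
  Cl.node (nat_lit 0x89890a888a1a) (nat_lit 1) (by decide +kernel) (ClAll.succ ClAll.zero n169)

def n171 : Cl (O (nat_lit 6)) (R (nat_lit 104465))
    (p (nat_lit 0x88880987871a) (nat_lit 0) (p (nat_lit 0x8000080000000080907088a) (nat_lit 0) (p (nat_lit 0x8000080000000078886860a) (nat_lit 0) (p (nat_lit 0x10688060782) (nat_lit 0) (p (nat_lit 0x8607858702) (nat_lit 0) (p (nat_lit 0x10587050482) (nat_lit 0) (p (nat_lit 0x8506848402) (nat_lit 0) (p (nat_lit 0x160004) (nat_lit 0) (p (nat_lit 0x50612) (nat_lit 0) (p (nat_lit 0x40592) (nat_lit 0) (p (nat_lit 0x40492) (nat_lit 0) (p (nat_lit 0x30412) (nat_lit 0) (p (nat_lit 0x30212) (nat_lit 0) (p (nat_lit 0x20192) (nat_lit 0) (p (nat_lit 0x20092) (nat_lit 0) (p (nat_lit 0x10012) (nat_lit 0) pn))))))))))))))))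 :=
  Cl.node (nat_lit 0x109088a08079a) (nat_lit 1) (by decide +kernel) (ClAll.succ ClAll.zero n170)

def n172 : Cl (O (nat_lit 6)) (R (nat_lit 104465))
    (p (nat_lit 0x8000080000000080907088a) (nat_lit 0) (p (nat_lit 0x8000080000000078886860a) (nat_lit 0) (p (nat_lit 0x10688060782) (nat_lit 0) (p (nat_lit 0x8607858702) (nat_lit 0) (p (nat_lit 0x10587050482) (nat_lit 0) (p (nat_lit 0x8506848402) (nat_lit 0) (p (nat_lit 0x160004) (nat_lit 0) (p (nat_lit 0x50612) (nat_lit 0) (p (nat_lit 0x40592) (nat_lit 0) (p (nat_lit 0x40492) (nat_lit 0) (p (nat_lit 0x30412) (nat_lit 0) (p (nat_lit 0x30212) (nat_lit 0) (p (nat_lit 0x20192) (nat_lit 0) (p (nat_lit 0x20092) (nat_lit 0) (p (nat_lit 0x10012) (nat_lit 0) pn))))))))))))))) :=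
  Cl.node (nat_lit 0x88880987871a) (nat_lit 1) (by decide +kernel) (ClAll.succ ClAll.zero n171)

def n173 : Cl (O (nat_lit 6)) (R (nat_lit 104465))
    (p (nat_lit 0x8000080000000078886860a) (nat_lit 0) (p (nat_lit 0x10688060782) (nat_lit 0) (p (nat_lit 0x8607858702) (nat_lit 0) (p (nat_lit 0x10587050482) (nat_lit 0) (p (nat_lit 0x8506848402) (nat_lit 0) (p (nat_lit 0x160004) (nat_lit 0) (p (nat_lit 0x50612) (nat_lit 0) (p (nat_lit 0x40592) (nat_lit 0) (p (nat_lit 0x40492) (nat_lit 0) (p (nat_lit 0x30412) (nat_lit 0) (p (nat_lit 0x30212) (nat_lit 0) (p (nat_lit 0x20192) (nat_lit 0) (p (nat_lit 0x20092) (nat_lit 0) (p (nat_lit 0x10012) (nat_lit 0) pn)))))))))))))) :=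
  Cl.node (nat_lit 0x8000080000000080907088a) (nat_lit 1) (by decide +kernel) (ClAll.succ ClAll.zero n172)

def n174 : Cl (O (nat_lit 6)) (R (nat_lit 104465))
    (p (nat_lit 0x10688060782) (nat_lit 0) (p (nat_lit 0x8607858702) (nat_lit 0) (p (nat_lit 0x10587050482) (nat_lit 0) (p (nat_lit 0x8506848402) (nat_lit 0) (p (nat_lit 0x160004) (nat_lit 0) (p (nat_lit 0x50612) (nat_lit 0) (p (nat_lit 0x40592) (nat_lit 0) (p (nat_lit 0x40492) (nat_lit 0) (p (nat_lit 0x30412) (nat_lit 0) (p (nat_lit 0x30212) (nat_lit 0) (p (nat_lit 0x20192) (nat_lit 0) (p (nat_lit 0x20092) (nat_lit 0) (p (nat_lit 0x10012) (nat_lit 0) pn))))))))))))) :=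
  Cl.node (nat_lit 0x8000080000000078886860a) (nat_lit 1) (by decide +kernel) (ClAll.succ ClAll.zero n173)

def n175 : Cl (O (nat_lit 6)) (R (nat_lit 104465))
    (p (nat_lit 0x8607858702) (nat_lit 0) (p (nat_lit 0x10587050482) (nat_lit 0) (p (nat_lit 0x8506848402) (nat_lit 0) (p (nat_lit 0x160004) (nat_lit 0) (p (nat_lit 0x50612) (nat_lit 0) (p (nat_lit 0x40592) (nat_lit 0) (p (nat_lit 0x40492) (nat_lit 0) (p (nat_lit 0x30412) (nat_lit 0) (p (nat_lit 0x30212) (nat_lit 0) (p (nat_lit 0x20192) (nat_lit 0) (p (nat_lit 0x20092) (nat_lit 0) (p (nat_lit 0x10012) (nat_lit 0) pn)))))))))))) :=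
  Cl.node (nat_lit 0x10688060782) (nat_lit 1) (by decide +kernel) (ClAll.succ ClAll.zero n174)

def n176 : Cl (O (nat_lit 6)) (R (nat_lit 104465))
    (p (nat_lit 0x10587050482) (nat_lit 0) (p (nat_lit 0x8506848402) (nat_lit 0) (p (nat_lit 0x160004) (nat_lit 0) (p (nat_lit 0x50612) (nat_lit 0) (p (nat_lit 0x40592) (nat_lit 0) (p (nat_lit 0x40492) (nat_lit 0) (p (nat_lit 0x30412) (nat_lit 0) (p (nat_lit 0x30212) (nat_lit 0) (p (nat_lit 0x20192) (nat_lit 0) (p (nat_lit 0x20092) (nat_lit 0) (p (nat_lit 0x10012) (nat_lit 0) pn))))))))))) :=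
  Cl.node (nat_lit 0x8607858702) (nat_lit 1) (by decide +kernel) (ClAll.succ ClAll.zero n175)

def n177 : Cl (O (nat_lit 6)) (R (nat_lit 104465))
    (p (nat_lit 0x8506848402) (nat_lit 0) (p (nat_lit 0x160004) (nat_lit 0) (p (nat_lit 0x50612) (nat_lit 0) (p (nat_lit 0x40592) (nat_lit 0) (p (nat_lit 0x40492) (nat_lit 0) (p (nat_lit 0x30412) (nat_lit 0) (p (nat_lit 0x30212) (nat_lit 0) (p (nat_lit 0x20192) (nat_lit 0) (p (nat_lit 0x20092) (nat_lit 0) (p (nat_lit 0x10012) (nat_lit 0) pn)))))))))) :=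
  Cl.node (nat_lit 0x10587050482) (nat_lit 1) (by decide +kernel) (ClAll.succ ClAll.zero n176)

def n178 : Cl (O (nat_lit 6)) (R (nat_lit 104465))
    (p (nat_lit 0x160004) (nat_lit 0) (p (nat_lit 0x50612) (nat_lit 0) (p (nat_lit 0x40592) (nat_lit 0) (p (nat_lit 0x40492) (nat_lit 0) (p (nat_lit 0x30412) (nat_lit 0) (p (nat_lit 0x30212) (nat_lit 0) (p (nat_lit 0x20192) (nat_lit 0) (p (nat_lit 0x20092) (nat_lit 0) (p (nat_lit 0x10012) (nat_lit 0) pn))))))))) :=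
  Cl.node (nat_lit 0x8506848402) (nat_lit 1) (by decide +kernel) (ClAll.succ ClAll.zero n177)

def n179 : Cl (O (nat_lit 6)) (R (nat_lit 104465))
    (p (nat_lit 0x50612) (nat_lit 0) (p (nat_lit 0x40592) (nat_lit 0) (p (nat_lit 0x40492) (nat_lit 0) (p (nat_lit 0x30412) (nat_lit 0) (p (nat_lit 0x30212) (nat_lit 0) (p (nat_lit 0x20192) (nat_lit 0) (p (nat_lit 0x20092) (nat_lit 0) (p (nat_lit 0x10012) (nat_lit 0) pn)))))))) :=
  Cl.node (nat_lit 0x160004) (nat_lit 2) (by decide +kernel) (ClAll.succ (ClAll.succ ClAll.zero n178) s164)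

def n180 : Cl (O (nat_lit 6)) (R (nat_lit 104465))
    (p (nat_lit 0x40592) (nat_lit 0) (p (nat_lit 0x40492) (nat_lit 0) (p (nat_lit 0x30412) (nat_lit 0) (p (nat_lit 0x30212) (nat_lit 0) (p (nat_lit 0x20192) (nat_lit 0) (p (nat_lit 0x20092) (nat_lit 0) (p (nat_lit 0x10012) (nat_lit 0) pn))))))) :=
  Cl.node (nat_lit 0x50612) (nat_lit 1) (by decide +kernel) (ClAll.succ ClAll.zero n179)

def n181 : Cl (O (nat_lit 6)) (R (nat_lit 104465))
    (p (nat_lit 0x40492) (nat_lit 0) (p (nat_lit 0x30412) (nat_lit 0) (p (nat_lit 0x30212) (nat_lit 0) (p (nat_lit 0x20192) (nat_lit 0) (p (nat_lit 0x20092) (nat_lit 0) (p (nat_lit 0x10012) (nat_lit 0) pn)))))) :=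
  Cl.node (nat_lit 0x40592) (nat_lit 1) (by decide +kernel) (ClAll.succ ClAll.zero n180)

def n182 : Cl (O (nat_lit 6)) (R (nat_lit 104465))
    (p (nat_lit 0x30412) (nat_lit 0) (p (nat_lit 0x30212) (nat_lit 0) (p (nat_lit 0x20192) (nat_lit 0) (p (nat_lit 0x20092) (nat_lit 0) (p (nat_lit 0x10012) (nat_lit 0) pn))))) :=
  Cl.node (nat_lit 0x40492) (nat_lit 1) (by decide +kernel) (ClAll.succ ClAll.zero n181)

def n183 : Cl (O (nat_lit 6)) (R (nat_lit 104465))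
    (p (nat_lit 0x30212) (nat_lit 0) (p (nat_lit 0x20192) (nat_lit 0) (p (nat_lit 0x20092) (nat_lit 0) (p (nat_lit 0x10012) (nat_lit 0) pn)))) :=
  Cl.node (nat_lit 0x30412) (nat_lit 1) (by decide +kernel) (ClAll.succ ClAll.zero n182)

def n184 : Cl (O (nat_lit 6)) (R (nat_lit 104465))
    (p (nat_lit 0x20192) (nat_lit 0) (p (nat_lit 0x20092) (nat_lit 0) (p (nat_lit 0x10012) (nat_lit 0) pn))) :=
  Cl.node (nat_lit 0x30212) (nat_lit 1) (by decide +kernel) (ClAll.succ ClAll.zero n183)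

def n185 : Cl (O (nat_lit 6)) (R (nat_lit 104465))
    (p (nat_lit 0x20092) (nat_lit 0) (p (nat_lit 0x10012) (nat_lit 0) pn)) :=
  Cl.node (nat_lit 0x20192) (nat_lit 1) (by decide +kernel) (ClAll.succ ClAll.zero n184)

def n186 : Cl (O (nat_lit 6)) (R (nat_lit 104465))
    (p (nat_lit 0x10012) (nat_lit 0) pn) :=
  Cl.node (nat_lit 0x20092) (nat_lit 1) (by decide +kernel) (ClAll.succ ClAll.zero n185)

def n187 : Cl (O (nat_lit 6)) (R (nat_lit 104465))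
    pn :=
  Cl.node (nat_lit 0x10012) (nat_lit 1) (by decide +kernel) (ClAll.succ ClAll.zero n186)

theorem top : Cl (O (nat_lit 6)) (R (nat_lit 104465)) pn := n187

end Pool.Agent.Gen.F5.X12CD13m6
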